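import Mathlib

/-! # A critical point lemma in a box -/

set_option autoImplicit false

open Set Filter Topology

namespace Pool.Agent.T6.H49.CSD

/-- A function with a zero in a box, but without zeros on the faces of the box, has a zero in the
box at which a given partial derivative vanishes (in dimension at least two). -/
lemma box_crit {n : ℕ} {f f' : (Fin n → ℝ) → ℝ} (i j : Fin n) (hij : i ≠ j)
    (hc : Continuous f)
    (hf : ∀ s, HasDerivAt (fun t : ℝ => f (s + t • Pi.single i (1 : ℝ))) (f' s) 0)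
    (a : Fin n → ℝ)
    (hz : ∃ s, (∀ l, a l ≤ s l ∧ s l ≤ a l + 1) ∧ f s = 0)
    (hface : ∀ s, (∀ l, a l ≤ s l ∧ s l ≤ a l + 1) → f s = 0 → ∀ l, a l < s l ∧ s l < a l + 1) :
    ∃ s, (∀ l, a l ≤ s l ∧ s l ≤ a l + 1) ∧ f s = 0 ∧ f' s = 0 := by
  classical
  set K : Set (Fin n → ℝ) := {s | (∀ l, a l ≤ s l ∧ s l ≤ a l + 1) ∧ f s = 0} with hK
  have hKc : IsCompact K := by
    have h1 : IsCompact (Set.pi Set.univ fun l : Fin n => Icc (a l) (a l + 1)) :=
      isCompact_univ_pi fun _ => isCompact_Icc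
    have h2 : K = (Set.pi Set.univ fun l : Fin n => Icc (a l) (a l + 1)) ∩ f ⁻¹' {0} := by
      ext s
      simp only [hK, Set.mem_ofPred_eq, Set.mem_inter_iff, Set.mem_pi, Set.mem_univ, true_implies,
        Set.mem_Icc, Set.mem_preimage, Set.mem_singleton_iff]
    rw [h2]
    exact h1.inter_right (isClosed_singleton.preimage hc)
  obtain ⟨p, hpK, hpmax⟩ := hKc.exists_isMaxOn hz
    (f := fun s : Fin n → ℝ => s j) (continuous_apply j).continuousOn
  refine ⟨p, hpK.1, hpK.2, ?_⟩
  by_contra hne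
  have hint := hface p hpK.1 hpK.2
  -- opposite signs in direction `i`
  set g : ℝ → ℝ := fun t => f (p + t • Pi.single i (1 : ℝ)) with hg
  have hg0 : g 0 = 0 := by
    simp only [hg, zero_smul, add_zero]
    exact hpK.2
  have hslope := hasDerivAt_iff_tendsto_slope.1 (hf p)
  have hpos : 0 < f' p * f' p := mul_self_pos.2 hne
  have hev : ∀ᶠ t in 𝓝[≠] (0 : ℝ), 0 < slope g 0 t * f' p :=
    (hslope.mul_const (f' p)).eventually (lt_mem_nhds hpos)
  rw [eventually_nhdsWithin_iff, Metric.eventually_nhds_iff] at hev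
  obtain ⟨ε, hε, hev⟩ := hev
  obtain ⟨τ, hτ0, hτε, hτ1, hτ2⟩ : ∃ τ : ℝ, 0 < τ ∧ τ < ε ∧ τ ≤ p i - a i ∧ τ ≤ a i + 1 - p i := by
    have h1 := hint i
    refine ⟨min (ε / 2) (min (p i - a i) (a i + 1 - p i)), ?_, ?_, ?_, ?_⟩
    · exact lt_min (by linarith) (lt_min (by linarith) (by linarith))
    · exact lt_of_le_of_lt (min_le_left _ _) (by linarith)
    · exact (min_le_right _ _).trans (min_le_left _ _)
    · exact (min_le_right _ _).trans (min_le_right _ _)
  have hs1 : 0 < g τ * f' p := by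
    have h1 := hev (y := τ) (by rw [Real.dist_eq, sub_zero, abs_of_pos hτ0]; exact hτε)
      (by simpa using hτ0.ne')
    rw [slope_def_field, hg0, sub_zero, sub_zero] at h1
    have h2 : g τ / τ * f' p = (g τ * f' p) / τ := by ring
    rw [h2] at h1
    rwa [div_pos_iff_of_pos_right hτ0] at h1
  have hs2 : g (-τ) * f' p < 0 := by
    have h1 := hev (y := -τ) (by rw [Real.dist_eq, sub_zero, abs_neg, abs_of_pos hτ0]; exact hτε)
      (by simpa using hτ0.ne')
    rw [slope_def_field, hg0, sub_zero, sub_zero] at h1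
    have h2 : g (-τ) / (-τ) * f' p = (-(g (-τ) * f' p)) / τ := by
      rw [div_neg, neg_mul, neg_div]; ring
    rw [h2, div_pos_iff_of_pos_right hτ0] at h1
    linarith
  -- move slightly in direction `j`
  have hcont : ∀ t : ℝ, Continuous fun δ : ℝ =>
      f (p + t • Pi.single i (1 : ℝ) + δ • Pi.single j (1 : ℝ)) * f' p := by
    intro t
    exact (hc.comp (by fun_prop)).mul continuous_const
  have hev1 : ∀ᶠ δ in 𝓝 (0 : ℝ),
      0 < f (p + τ • Pi.single i (1 : ℝ) + δ • Pi.single j (1 : ℝ)) * f' p := by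
    refine (hcont τ).continuousAt.eventually (lt_mem_nhds ?_)
    simp only [zero_smul, add_zero]
    exact hs1
  have hev2 : ∀ᶠ δ in 𝓝 (0 : ℝ),
      f (p + (-τ) • Pi.single i (1 : ℝ) + δ • Pi.single j (1 : ℝ)) * f' p < 0 := by
    refine (hcont (-τ)).continuousAt.eventually (gt_mem_nhds ?_)
    simp only [zero_smul, add_zero]
    exact hs2
  obtain ⟨ε', hε', hev3⟩ := Metric.eventually_nhds_iff.1 (hev1.and hev2)
  obtain ⟨δ, hδ0, hδε, hδ1⟩ : ∃ δ : ℝ, 0 < δ ∧ δ < ε' ∧ δ ≤ a j + 1 - p j := by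
    have h1 := hint j
    exact ⟨min (ε' / 2) (a j + 1 - p j), lt_min (by linarith) (by linarith),
      lt_of_le_of_lt (min_le_left _ _) (by linarith), min_le_right _ _⟩
  obtain ⟨h1, h2⟩ := hev3 (y := δ) (by rw [Real.dist_eq, sub_zero, abs_of_pos hδ0]; exact hδε)
  -- intermediate value
  set φ : ℝ → ℝ := fun t => f (p + t • Pi.single i (1 : ℝ) + δ • Pi.single j (1 : ℝ)) * f' p with hφ
  have hφc : Continuous φ := (hc.comp (by fun_prop)).mul continuous_const
  obtain ⟨t, ht, ht0⟩ := intermediate_value_Icc (by linarith : -τ ≤ τ) hφc.continuousOn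
    (show (0 : ℝ) ∈ Icc (φ (-τ)) (φ τ) from ⟨h2.le, h1.le⟩)
  have hft : f (p + t • Pi.single i (1 : ℝ) + δ • Pi.single j (1 : ℝ)) = 0 :=
    (mul_eq_zero.1 ht0).resolve_right hne
  set q : Fin n → ℝ := p + t • Pi.single i (1 : ℝ) + δ • Pi.single j (1 : ℝ) with hq
  have hqi : q i = p i + t := by
    simp [hq, Pi.single_eq_of_ne hij]
  have hqj : q j = p j + δ := by
    simp [hq, Pi.single_eq_of_ne hij.symm]
  have hql : ∀ l, l ≠ i → l ≠ j → q l = p l := by
    intro l hli hlj
    simp [hq, Pi.single_eq_of_ne hli, Pi.single_eq_of_ne hlj]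
  have hqK : q ∈ K := by
    refine ⟨fun l => ?_, hft⟩
    by_cases hli : l = i
    · subst hli
      rw [hqi]
      constructor <;> linarith [ht.1, ht.2]
    by_cases hlj : l = j
    · subst hlj
      rw [hqj]
      have := hint l
      constructor <;> linarith
    rw [hql l hli hlj]
    exact hpK.1 l
  have hle := hpmax hqK
  simp only [Set.mem_ofPred_eq] at hle
  have : q j ≤ p j := hle
  rw [hqj] at this
  linarith

end Pool.Agent.T6.H49.CSD
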