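import Mathlib

/-! # Zeros of exponential sums in one variable, and a critical point lemma in a box -/

set_option autoImplicit false

open Set Filter Topology

namespace Pool.Agent.T6.H49.CSD

/-- Rolle: a finite set of zeros of `f` gives a finite set of zeros of the derivative with at most
one element less. -/
lemma rolle_card {f f' : ℝ → ℝ} (hf : ∀ t, HasDerivAt f (f' t) t) (Z : Finset ℝ)
    (hZ : ∀ z ∈ Z, f z = 0) :
    ∃ Z' : Finset ℝ, (∀ z ∈ Z', f' z = 0) ∧ Z.card ≤ Z'.card + 1 := by
  classical
  rcases Nat.eq_zero_or_pos Z.card with h0 | h0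
  · exact ⟨∅, by simp, by omega⟩
  obtain ⟨m, hm⟩ : ∃ m, Z.card = m + 1 := ⟨Z.card - 1, by omega⟩
  set o := Z.orderEmbOfFin hm with ho
  have hex : ∀ i : Fin m, ∃ c ∈ Ioo (o i.castSucc) (o i.succ), f' c = 0 := by
    intro i
    have hlt : o i.castSucc < o i.succ := o.strictMono (Fin.castSucc_lt_succ)
    obtain ⟨c, hc, hc'⟩ := exists_hasDerivAt_eq_zero hlt
      (fun t _ => (hf t).continuousAt.continuousWithinAt)
      (by rw [hZ _ (Z.orderEmbOfFin_mem hm _), hZ _ (Z.orderEmbOfFin_mem hm _)])
      (fun t _ => hf t)
    exact ⟨c, hc, hc'⟩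
  choose c hc hc' using hex
  have hinj : Function.Injective c := by
    have hmono : StrictMono c := by
      intro i j hij
      have h1 := (hc i).2
      have h2 := (hc j).1
      have h3 : o i.succ ≤ o j.castSucc := by
        apply o.monotone
        rw [Fin.le_def]
        simp only [Fin.val_succ, Fin.val_castSucc]
        have : (i : ℕ) < j := hij
        omega
      linarith
    exact hmono.injective
  refine ⟨Finset.univ.image c, ?_, ?_⟩
  · intro z hz
    obtain ⟨i, _, rfl⟩ := Finset.mem_image.1 hz
    exact hc' i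
  · rw [Finset.card_image_of_injective _ hinj, Finset.card_univ, Fintype.card_fin, hm]

/-- a nonzero exponential sum with `N` terms in one variable has at most `N` zeros -/
lemma expSum_one_zeros (N : ℕ) : ∀ (c k : Fin N → ℝ),
    (∃ t : ℝ, ∑ j, c j * Real.exp (k j * t) ≠ 0) → ∀ Z : Finset ℝ,
      (∀ z ∈ Z, ∑ j, c j * Real.exp (k j * z) = 0) → Z.card ≤ N := by
  induction N with
  | zero =>
    intro c k h Z hZ
    obtain ⟨t, ht⟩ := h
    simp at ht
  | succ N ih =>
    intro c k h Z hZ
    -- normalise the first frequency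
    have hnorm : ∀ t : ℝ, ∑ j, c j * Real.exp (k j * t) = Real.exp (k 0 * t) *
        (c 0 + ∑ j : Fin N, c j.succ * Real.exp ((k j.succ - k 0) * t)) := by
      intro t
      rw [Fin.sum_univ_succ, mul_add, Finset.mul_sum]
      congr 1
      · ring
      · refine Finset.sum_congr rfl fun j _ => ?_
        rw [show Real.exp (k 0 * t) * (c j.succ * Real.exp ((k j.succ - k 0) * t)) =
          c j.succ * (Real.exp (k 0 * t) * Real.exp ((k j.succ - k 0) * t)) by ring, ← Real.exp_add]
        congr 2
        ring
    set f : ℝ → ℝ := fun t => c 0 + ∑ j : Fin N, c j.succ * Real.exp ((k j.succ - k 0) * t) with hf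
    set f' : ℝ → ℝ := fun t => ∑ j : Fin N, (c j.succ * (k j.succ - k 0)) *
      Real.exp ((k j.succ - k 0) * t) with hf'
    have hd : ∀ t, HasDerivAt f (f' t) t := by
      intro t
      have h1 : ∀ j : Fin N, HasDerivAt (fun t => c j.succ * Real.exp ((k j.succ - k 0) * t))
          ((c j.succ * (k j.succ - k 0)) * Real.exp ((k j.succ - k 0) * t)) t := by
        intro j
        have h2 : HasDerivAt (fun t : ℝ => (k j.succ - k 0) * t) (k j.succ - k 0) t := by
          simpa using (hasDerivAt_id t).const_mul (k j.succ - k 0)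
        have h3 := (h2.exp).const_mul (c j.succ)
        exact h3.congr_deriv (by ring)
      have h4 := HasDerivAt.fun_sum (u := Finset.univ) (fun j _ => h1 j)
      exact h4.const_add (c 0)
    have hZ' : ∀ z ∈ Z, f z = 0 := by
      intro z hz
      have h1 := hZ z hz
      rw [hnorm z] at h1
      exact (mul_eq_zero.1 h1).resolve_left (Real.exp_pos _).ne'
    by_cases hz : ∃ t, f' t ≠ 0
    · obtain ⟨Z', h1, h2⟩ := rolle_card hd Z hZ'
      have h3 := ih (fun j => c j.succ * (k j.succ - k 0)) (fun j => k j.succ - k 0) hz Z' h1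
      omega
    · push Not at hz
      -- `f` is constant
      have hconst : ∀ x y, f x = f y := by
        intro x y
        refine is_const_of_deriv_eq_zero (fun t => (hd t).differentiableAt) (fun t => ?_) x y
        rw [(hd t).deriv, hz t]
      obtain ⟨t, ht⟩ := h
      have hft : f t ≠ 0 := by
        intro h0
        apply ht
        rw [hnorm t]
        have : (c 0 + ∑ j : Fin N, c j.succ * Real.exp ((k j.succ - k 0) * t)) = f t := rfl
        rw [this, h0, mul_zero]
      have : Z = ∅ := by
        rw [Finset.eq_empty_iff_forall_notMem]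
        intro z hz
        exact hft (by rw [hconst t z]; exact hZ' z hz)
      rw [this]
      simp

end Pool.Agent.T6.H49.CSD
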