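import Mathlib
import Pool.Agent.T6.H49.CSD.Rolle
import Pool.Agent.T6.H49.CSD.BoxCrit

/-! # The cells met by the zero set of an exponential sum -/

set_option autoImplicit false

open Set Filter Topology

namespace Pool.Agent.T6.H49.CSD

/-- an exponential sum with `N` terms in `n` variables -/
noncomputable def expS {n N : ℕ} (c : Fin N → ℝ) (k : Fin N → Fin n → ℝ) (s : Fin n → ℝ) : ℝ :=
  ∑ j, c j * Real.exp (∑ i, k j i * s i)

/-- the closed unit cell with corner `q` -/
def cell {n L : ℕ} (q : Fin n → Fin L) : Set (Fin n → ℝ) :=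
  {s | ∀ l, ((q l : ℕ) : ℝ) ≤ s l ∧ s l ≤ ((q l : ℕ) : ℝ) + 1}

open Classical in
/-- the cells of the grid of side `L` which meet the zero set -/
noncomputable def vis {n N : ℕ} (c : Fin N → ℝ) (k : Fin N → Fin n → ℝ) (L : ℕ) :
    Finset (Fin n → Fin L) :=
  Finset.univ.filter fun q => ∃ s ∈ cell q, expS c k s = 0

lemma mem_vis {n N : ℕ} {c : Fin N → ℝ} {k : Fin N → Fin n → ℝ} {L : ℕ} {q : Fin n → Fin L} :
    q ∈ vis c k L ↔ ∃ s ∈ cell q, expS c k s = 0 := by
  simp [vis]

lemma continuous_expS {n N : ℕ} (c : Fin N → ℝ) (k : Fin N → Fin n → ℝ) :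
    Continuous (expS c k) := by
  unfold expS
  fun_prop

lemma expS_normalize {n N : ℕ} (c : Fin (N + 1) → ℝ) (k : Fin (N + 1) → Fin n → ℝ)
    (s : Fin n → ℝ) : expS c k s = Real.exp (∑ i, k 0 i * s i) *
      expS c (fun j i => k j i - k 0 i) s := by
  unfold expS
  rw [Finset.mul_sum]
  refine Finset.sum_congr rfl fun j _ => ?_
  rw [show Real.exp (∑ i, k 0 i * s i) * (c j * Real.exp (∑ i, (k j i - k 0 i) * s i)) =
    c j * (Real.exp (∑ i, k 0 i * s i) * Real.exp (∑ i, (k j i - k 0 i) * s i)) by ring,
    ← Real.exp_add, ← Finset.sum_add_distrib]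
  have h : ∀ i, k 0 i * s i + (k j i - k 0 i) * s i = k j i * s i := fun i => by ring
  rw [Finset.sum_congr rfl fun i _ => h i]

lemma expS_normalize_zero {n N : ℕ} (c : Fin (N + 1) → ℝ) (k : Fin (N + 1) → Fin n → ℝ)
    (s : Fin n → ℝ) : expS c k s = 0 ↔ expS c (fun j i => k j i - k 0 i) s = 0 := by
  rw [expS_normalize]
  constructor
  · intro h
    exact (mul_eq_zero.1 h).resolve_left (Real.exp_pos _).ne'
  · intro h
    rw [h, mul_zero]

/-- partial derivatives -/
lemma hasDerivAt_expS {n N : ℕ} (c : Fin N → ℝ) (k : Fin N → Fin n → ℝ) (i : Fin n)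
    (s : Fin n → ℝ) :
    HasDerivAt (fun t : ℝ => expS c k (s + t • Pi.single i (1 : ℝ)))
      (expS (fun j => c j * k j i) k s) 0 := by
  classical
  have hexp : ∀ j, ∀ t : ℝ, ∑ l, k j l * (s + t • Pi.single i (1 : ℝ) : Fin n → ℝ) l =
      (∑ l, k j l * s l) + k j i * t := by
    intro j t
    have h1 : ∀ l, k j l * (s + t • Pi.single i (1 : ℝ) : Fin n → ℝ) l =
        k j l * s l + (if l = i then k j i * t else 0) := by
      intro l
      by_cases hl : l = i
      · subst hl
        simp [mul_add]
      · simp [hl, Pi.single_eq_of_ne hl]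
    rw [Finset.sum_congr rfl fun l _ => h1 l, Finset.sum_add_distrib]
    simp
  have h1 : ∀ j ∈ (Finset.univ : Finset (Fin N)), HasDerivAt
      (fun t : ℝ => c j * Real.exp (∑ l, k j l * (s + t • Pi.single i (1 : ℝ) : Fin n → ℝ) l))
      (c j * k j i * Real.exp (∑ l, k j l * s l)) 0 := by
    intro j _
    have h2 : HasDerivAt (fun t : ℝ => (∑ l, k j l * s l) + k j i * t) (k j i) 0 := by
      simpa using ((hasDerivAt_id (0 : ℝ)).const_mul (k j i)).const_add (∑ l, k j l * s l)
    have h3 := (h2.exp).const_mul (c j)
    have h4 : (fun t : ℝ => c j * Real.exp (∑ l, k j l * (s + t • Pi.single i (1 : ℝ) :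
        Fin n → ℝ) l)) = fun t : ℝ => c j * Real.exp ((∑ l, k j l * s l) + k j i * t) := by
      funext t
      rw [hexp j t]
    rw [h4]
    refine h3.congr_deriv ?_
    rw [mul_zero, add_zero]
    ring
  exact HasDerivAt.fun_sum h1

/-- if all partial derivatives vanish, the sum is constant -/
lemma expS_const {n N : ℕ} (c : Fin N → ℝ) (k : Fin N → Fin n → ℝ)
    (h : ∀ i s, expS (fun j => c j * k j i) k s = 0) (s : Fin n → ℝ) :
    expS c k s = expS c k 0 := by
  have hd : ∀ t : ℝ, HasDerivAt (fun t : ℝ => expS c k (t • s)) 0 t := by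
    intro t
    have h1 : ∀ j ∈ (Finset.univ : Finset (Fin N)), HasDerivAt
        (fun t : ℝ => c j * Real.exp (∑ l, k j l * (t • s) l))
        (c j * (Real.exp (∑ l, k j l * (t • s) l) * ∑ l, k j l * s l)) t := by
      intro j _
      have h2 : HasDerivAt (fun t : ℝ => ∑ l, k j l * (t • s) l) (∑ l, k j l * s l) t := by
        have h3 : (fun t : ℝ => ∑ l, k j l * (t • s) l) = fun t : ℝ => t * ∑ l, k j l * s l := by
          funext t
          rw [Finset.mul_sum]
          refine Finset.sum_congr rfl fun l _ => ?_
          simp only [Pi.smul_apply, smul_eq_mul]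
          ring
        rw [h3]
        simpa using (hasDerivAt_id t).mul_const (∑ l, k j l * s l)
      exact (h2.exp).const_mul (c j)
    have h2 := HasDerivAt.fun_sum h1
    refine h2.congr_deriv ?_
    calc ∑ j, c j * (Real.exp (∑ l, k j l * (t • s) l) * ∑ l, k j l * s l)
        = ∑ j, ∑ i, s i * ((c j * k j i) * Real.exp (∑ l, k j l * (t • s) l)) := by
          refine Finset.sum_congr rfl fun j _ => ?_
          rw [Finset.mul_sum, Finset.mul_sum]
          refine Finset.sum_congr rfl fun i _ => ?_
          ring
      _ = ∑ i, s i * expS (fun j => c j * k j i) k (t • s) := by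
          rw [Finset.sum_comm]
          refine Finset.sum_congr rfl fun i _ => ?_
          rw [expS, Finset.mul_sum]
      _ = 0 := Finset.sum_eq_zero fun i _ => by rw [h, mul_zero]
  have h2 := is_const_of_deriv_eq_zero (fun t => (hd t).differentiableAt)
    (fun t => (hd t).deriv) 1 0
  simpa using h2

/-- restriction to a coordinate hyperplane -/
lemma expS_insertNth {n N : ℕ} (c : Fin N → ℝ) (k : Fin N → Fin (n + 1) → ℝ) (i : Fin (n + 1))
    (t : ℝ) (s : Fin n → ℝ) :
    expS c k (Fin.insertNth i t s) =
      expS (fun j => c j * Real.exp (k j i * t)) (fun j l => k j (i.succAbove l)) s := by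
  unfold expS
  refine Finset.sum_congr rfl fun j _ => ?_
  rw [Fin.sum_univ_succAbove _ i]
  simp only [Fin.insertNth_apply_same, Fin.insertNth_apply_succAbove]
  rw [Real.exp_add]
  ring

/-- restriction to a line parallel to a coordinate axis -/
lemma expS_line {n N : ℕ} (c : Fin N → ℝ) (k : Fin N → Fin (n + 1) → ℝ) (i : Fin (n + 1))
    (t : ℝ) (s : Fin n → ℝ) :
    expS c k (Fin.insertNth i t s) =
      ∑ j, (c j * Real.exp (∑ l, k j (i.succAbove l) * s l)) * Real.exp (k j i * t) := by
  unfold expS
  refine Finset.sum_congr rfl fun j _ => ?_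
  rw [Fin.sum_univ_succAbove _ i]
  simp only [Fin.insertNth_apply_same, Fin.insertNth_apply_succAbove]
  rw [Real.exp_add]
  ring

/-- **The cells met by the zero set.** -/
theorem card_vis (n : ℕ) : ∀ N : ℕ, ∃ B : ℕ, ∀ (c : Fin N → ℝ) (k : Fin N → Fin n → ℝ),
    (∃ s, expS c k s ≠ 0) → ∀ L : ℕ, (vis c k L).card ≤ B * L ^ (n - 1) := by
  classical
  match n with
  | 0 =>
    intro N
    refine ⟨0, fun c k h L => ?_⟩
    obtain ⟨s, hs⟩ := h
    rw [zero_mul, Nat.le_zero, Finset.card_eq_zero, Finset.eq_empty_iff_forall_notMem]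
    intro q hq
    obtain ⟨s', _, hs'⟩ := mem_vis.1 hq
    apply hs
    rwa [Subsingleton.elim s s']
  | 1 =>
    intro N
    refine ⟨2 * N, fun c k h L => ?_⟩
    simp only [Nat.sub_self, pow_zero, mul_one]
    -- choose a zero in each cell
    have hch : ∀ q : Fin 1 → Fin L, ∃ s : Fin 1 → ℝ, q ∈ vis c k L → (s ∈ cell q ∧ expS c k s = 0) := by
      intro q
      by_cases hq : q ∈ vis c k L
      · obtain ⟨s, h1, h2⟩ := mem_vis.1 hq
        exact ⟨s, fun _ => ⟨h1, h2⟩⟩
      · exact ⟨0, fun h => absurd h hq⟩
    choose z hz using hch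
    set Z : Finset ℝ := (vis c k L).image fun q => z q 0 with hZ
    have hZcard : Z.card ≤ N := by
      obtain ⟨s, hs⟩ := h
      refine expSum_one_zeros N c (fun j => k j 0) ⟨s 0, ?_⟩ Z ?_
      · simpa [expS] using hs
      · intro x hx
        obtain ⟨q, hq, rfl⟩ := Finset.mem_image.1 hx
        have := (hz q hq).2
        simpa [expS] using this
    have h2 : (vis c k L).card ≤ 2 * Z.card := by
      refine Finset.card_le_mul_card_image_of_maps_to (f := fun q => z q 0)
        (fun q hq => Finset.mem_image_of_mem _ hq) 2 (fun x _ => ?_)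
      -- at most two cells contain `x`
      have h3 : ((vis c k L).filter fun q => z q 0 = x).card ≤
          (({⌈x⌉ - 1, ⌊x⌋} : Finset ℤ)).card := by
        refine Finset.card_le_card_of_injOn (fun q => ((q 0 : ℕ) : ℤ)) ?_ ?_
        · intro q hq
          rw [Finset.mem_coe, Finset.mem_filter] at hq
          have h4 := (hz q hq.1).1 0
          rw [hq.2] at h4
          rw [Finset.mem_coe, Finset.mem_insert, Finset.mem_singleton]
          have h5 : ((q 0 : ℕ) : ℤ) ≤ ⌊x⌋ := Int.le_floor.2 (by exact_mod_cast h4.1)
          have h6 : ⌈x⌉ ≤ ((q 0 : ℕ) : ℤ) + 1 := Int.ceil_le.2 (by push_cast; exact h4.2)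
          have h7 : ⌊x⌋ ≤ ⌈x⌉ := Int.floor_le_ceil x
          beta_reduce
          omega
        · intro q _ q' _ hqq
          funext l
          have : l = 0 := Subsingleton.elim _ _
          subst this
          apply Fin.ext
          beta_reduce at hqq
          exact_mod_cast hqq
      exact h3.trans Finset.card_le_two
    calc (vis c k L).card ≤ 2 * Z.card := h2
      _ ≤ 2 * N := by omega
  | (n + 2) =>
    intro N
    induction N with
    | zero =>
      refine ⟨0, fun c k h L => ?_⟩
      obtain ⟨s, hs⟩ := h
      simp [expS] at hs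
    | succ N ihN =>
      obtain ⟨B', hB'⟩ := ihN
      obtain ⟨B'', hB''⟩ := card_vis (n + 1) (N + 1)
      refine ⟨(n + 2) * (4 * B'' + 2 * (N + 1)) + B', fun c k h L => ?_⟩
      rcases Nat.eq_zero_or_pos L with hL | hL
      · subst hL
        have : (vis c k 0) = ∅ := by
          rw [Finset.eq_empty_iff_forall_notMem]
          intro q
          exact (q 0).elim0
        rw [this]
        simp
      have hn1 : n + 2 - 1 = n + 1 := by omega
      have hn2 : n + 1 - 1 = n := by omega
      rw [hn1]
      rw [hn1] at hB'
      rw [hn2] at hB''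
      -- slices
      set sc : Fin (n + 2) → ℕ → (Fin (N + 1) → ℝ) := fun i t j => c j * Real.exp (k j i * t)
        with hsc
      set sk : Fin (n + 2) → (Fin (N + 1) → Fin (n + 1) → ℝ) := fun i j l => k j (i.succAbove l)
        with hsk
      set Fc : Fin (n + 2) → ℕ → Finset (Fin (n + 2) → Fin L) := fun i t =>
        Finset.univ.filter fun q => ((q i : ℕ) = t ∨ (q i : ℕ) + 1 = t) ∧
          ∃ s ∈ cell q, s i = t ∧ expS c k s = 0 with hFc
      have hFcard : ∀ i t, (Fc i t).card ≤ 2 * (vis (sc i t) (sk i) L).card := by
        intro i t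
        have h1 : (Fc i t).card ≤
            ((vis (sc i t) (sk i) L) ×ˢ (Finset.univ : Finset Bool)).card := by
          refine Finset.card_le_card_of_injOn
            (fun q => (fun l => q (i.succAbove l), decide ((q i : ℕ) = t))) ?_ ?_
          · intro q hq
            rw [Finset.mem_coe, hFc, Finset.mem_filter] at hq
            obtain ⟨-, -, s, hs, hst, hs0⟩ := hq
            rw [Finset.mem_coe, Finset.mem_product]
            refine ⟨mem_vis.2 ⟨fun l => s (i.succAbove l), fun l => hs (i.succAbove l), ?_⟩,
              Finset.mem_univ _⟩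
            have h2 := expS_insertNth c k i t (fun l => s (i.succAbove l))
            have h3 : Fin.insertNth i (t : ℝ) (fun l => s (i.succAbove l)) = s := by
              rw [← hst]
              exact Fin.insertNth_self_removeNth i s
            rw [h3, hs0] at h2
            exact h2.symm
          · intro q hq q' hq' hqq
            rw [Finset.mem_coe, hFc, Finset.mem_filter] at hq hq'
            have h2 := congrArg Prod.fst hqq
            have h3 := congrArg Prod.snd hqq
            simp only at h2 h3
            funext l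
            rcases Fin.eq_self_or_eq_succAbove i l with hl | ⟨l', hl⟩
            · subst hl
              apply Fin.ext
              by_cases h4 : (q l : ℕ) = t
              · rw [decide_eq_true h4] at h3
                rw [h4, of_decide_eq_true h3.symm]
              · rw [decide_eq_false h4] at h3
                have h5 := of_decide_eq_false h3.symm
                have h6 := hq.2.1.resolve_left h4
                have h7 := hq'.2.1.resolve_left h5
                omega
            · subst hl
              exact congrFun h2 l'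
        rw [Finset.card_product] at h1
        simp only [Finset.card_univ, Fintype.card_bool] at h1
        omega
      -- bad slices
      have hbad : ∀ i : Fin (n + 2), ((Finset.range (L + 1)).filter fun t =>
          ∀ s, expS (sc i t) (sk i) s = 0).card ≤ N + 1 := by
        intro i
        obtain ⟨s₀, hs₀⟩ := h
        set s' : Fin (n + 1) → ℝ := fun l => s₀ (i.succAbove l) with hs'
        have h1 : ∀ t : ℝ, expS c k (Fin.insertNth i t s') =
          ∑ j, (c j * Real.exp (∑ l, k j (i.succAbove l) * s' l)) * Real.exp (k j i * t) :=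
          fun t => expS_line c k i t s'
        have h2 := expSum_one_zeros (N + 1)
          (fun j => c j * Real.exp (∑ l, k j (i.succAbove l) * s' l)) (fun j => k j i)
          ⟨s₀ i, by
            rw [← h1, hs']
            have h3 : Fin.insertNth i (s₀ i) (fun l => s₀ (i.succAbove l)) = s₀ :=
              Fin.insertNth_self_removeNth i s₀
            rw [h3]
            exact hs₀⟩
          (((Finset.range (L + 1)).filter fun t =>
            ∀ s, expS (sc i t) (sk i) s = 0).image fun t : ℕ => (t : ℝ)) (by
            intro z hz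
            obtain ⟨t, ht, rfl⟩ := Finset.mem_image.1 hz
            rw [← h1, expS_insertNth]
            exact (Finset.mem_filter.1 ht).2 s')
        rwa [Finset.card_image_of_injective _ Nat.cast_injective] at h2
      -- the faces in one direction
      have hdir : ∀ i : Fin (n + 2), ∑ t ∈ Finset.range (L + 1), (Fc i t).card ≤
          (4 * B'' + 2 * (N + 1)) * L ^ (n + 1) := by
        intro i
        have h1 : ∀ t ∈ Finset.range (L + 1), (Fc i t).card ≤ 2 * (B'' * L ^ n) +
            2 * (if ∀ s, expS (sc i t) (sk i) s = 0 then L ^ (n + 1) else 0) := by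
          intro t _
          refine (hFcard i t).trans ?_
          by_cases hb : ∀ s, expS (sc i t) (sk i) s = 0
          · rw [if_pos hb]
            have h2 : (vis (sc i t) (sk i) L).card ≤ L ^ (n + 1) := by
              refine (Finset.card_le_univ _).trans ?_
              rw [Fintype.card_fun, Fintype.card_fin, Fintype.card_fin]
            omega
          · rw [if_neg hb]
            push Not at hb
            have h2 := hB'' (sc i t) (sk i) hb L
            omega
        refine (Finset.sum_le_sum h1).trans ?_
        rw [Finset.sum_add_distrib, Finset.sum_const, Finset.card_range, smul_eq_mul,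
          ← Finset.mul_sum, ← Finset.sum_filter, Finset.sum_const, smul_eq_mul]
        have h2 := hbad i
        have h3 : (L + 1) * (2 * (B'' * L ^ n)) ≤ 4 * B'' * L ^ (n + 1) := by
          have : L + 1 ≤ 2 * L := by omega
          calc (L + 1) * (2 * (B'' * L ^ n)) ≤ (2 * L) * (2 * (B'' * L ^ n)) :=
                Nat.mul_le_mul_right _ this
            _ = 4 * B'' * L ^ (n + 1) := by ring
        have h4 := Nat.mul_le_mul_right (L ^ (n + 1)) h2
        calc _ ≤ 4 * B'' * L ^ (n + 1) + 2 * ((N + 1) * L ^ (n + 1)) := by
              refine Nat.add_le_add h3 (Nat.mul_le_mul_left 2 h4)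
          _ = _ := by ring
      -- the function is constant up to a factor
      by_cases hcst : ∀ i s, expS (fun j => c j * (k j i - k 0 i)) (fun j i => k j i - k 0 i) s = 0
      · have h1 := expS_const c (fun j i => k j i - k 0 i) hcst
        obtain ⟨s₀, hs₀⟩ := h
        have h2 : vis c k L = ∅ := by
          rw [Finset.eq_empty_iff_forall_notMem]
          intro q hq
          obtain ⟨s, _, hs⟩ := mem_vis.1 hq
          apply hs₀
          rw [expS_normalize_zero] at hs ⊢
          rw [h1 s₀, ← h1 s, hs]
        rw [h2]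
        simp
      push Not at hcst
      obtain ⟨i, s₁, hs₁⟩ := hcst
      obtain ⟨j, hij⟩ : ∃ j : Fin (n + 2), i ≠ j := by
        obtain ⟨j, hj⟩ := exists_ne i
        exact ⟨j, hj.symm⟩
      set c' : Fin N → ℝ := fun l => c l.succ * (k l.succ i - k 0 i) with hc'
      set k' : Fin N → Fin (n + 2) → ℝ := fun l a => k l.succ a - k 0 a with hk'
      have hc'k' : ∀ s, expS (fun j => c j * (k j i - k 0 i)) (fun j i => k j i - k 0 i) s =
          expS c' k' s := by
        intro s
        unfold expS
        rw [Fin.sum_univ_succ]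
        simp [hc', hk']
      have hvis' := hB' c' k' ⟨s₁, by rw [← hc'k']; exact hs₁⟩ L
      have hsub : vis c k L ⊆
          (Finset.univ.biUnion fun a : Fin (n + 2) => (Finset.range (L + 1)).biUnion fun t => Fc a t) ∪
            vis c' k' L := by
        intro q hq
        rw [Finset.mem_union]
        by_cases hface : ∃ s ∈ cell q, expS c k s = 0 ∧
            ∃ l, s l = ((q l : ℕ) : ℝ) ∨ s l = ((q l : ℕ) : ℝ) + 1
        · left
          obtain ⟨s, hs, hs0, l, hl⟩ := hface
          rw [Finset.mem_biUnion]
          refine ⟨l, Finset.mem_univ _, ?_⟩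
          rw [Finset.mem_biUnion]
          have hql := (q l).is_lt
          rcases hl with hl | hl
          · refine ⟨(q l : ℕ), Finset.mem_range.2 (by omega), ?_⟩
            rw [hFc, Finset.mem_filter]
            exact ⟨Finset.mem_univ _, Or.inl rfl, s, hs, hl, hs0⟩
          · refine ⟨(q l : ℕ) + 1, Finset.mem_range.2 (by omega), ?_⟩
            rw [hFc, Finset.mem_filter]
            exact ⟨Finset.mem_univ _, Or.inr rfl, s, hs, by rw [hl]; push_cast; ring, hs0⟩
        · right
          push Not at hface
          obtain ⟨s, hs, hs0⟩ := mem_vis.1 hq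
          obtain ⟨p, hp, hp0, hp1⟩ := box_crit (f := expS c (fun j i => k j i - k 0 i))
            (f' := fun s => expS c' k' s) i j hij (continuous_expS _ _)
            (fun s => by
              rw [← hc'k']
              exact hasDerivAt_expS c (fun j i => k j i - k 0 i) i s)
            (fun l => ((q l : ℕ) : ℝ)) ⟨s, hs, (expS_normalize_zero c k s).1 hs0⟩
            (fun s' hs' hs'0 l => by
              have h1 := hface s' hs' ((expS_normalize_zero c k s').2 hs'0) l
              exact ⟨lt_of_le_of_ne (hs' l).1 (Ne.symm h1.1), lt_of_le_of_ne (hs' l).2 h1.2⟩)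
          exact mem_vis.2 ⟨p, hp, hp1⟩
      calc (vis c k L).card ≤ _ := Finset.card_le_card hsub
        _ ≤ _ := Finset.card_union_le _ _
        _ ≤ (∑ a : Fin (n + 2), ∑ t ∈ Finset.range (L + 1), (Fc a t).card) +
            (vis c' k' L).card := by
          refine Nat.add_le_add_right ?_ _
          refine Finset.card_biUnion_le.trans (Finset.sum_le_sum fun a _ => ?_)
          exact Finset.card_biUnion_le
        _ ≤ (∑ _a : Fin (n + 2), (4 * B'' + 2 * (N + 1)) * L ^ (n + 1)) + B' * L ^ (n + 1) :=
          Nat.add_le_add (Finset.sum_le_sum fun a _ => hdir a) hvis'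
        _ = ((n + 2) * (4 * B'' + 2 * (N + 1)) + B') * L ^ (n + 1) := by
          rw [Finset.sum_const, Finset.card_univ, Fintype.card_fin, smul_eq_mul]
          ring

end Pool.Agent.T6.H49.CSD
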