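import Mathlib
import Pool.Agent.T6.H49.CSD.Cells
import Pool.Agent.H715R2.Compact

/-! # Homogeneous polynomials along the orbits of the diagonal group -/

set_option autoImplicit false

open MvPolynomial H715R2 Matrix

namespace Pool.Agent.T6.H49.CSD

variable {d D : ℕ}

/-- a homogeneous polynomial of degree `D`, written with all words of length `D` -/
noncomputable def tform (a : (Fin D → Fin d) → ℝ) : MvPolynomial (Fin d) ℝ :=
  ∑ τ, C (a τ) * ∏ i, X (τ i)

lemma eval_tform (a : (Fin D → Fin d) → ℝ) (x : Fin d → ℝ) :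
    eval x (tform a) = ∑ τ, a τ * ∏ i, x (τ i) := by
  simp [tform, map_sum, map_prod]

lemma polyF_eq (g : Matrix (Fin d) (Fin d) ℝ) :
    polyF g = tform (fun τ : Fin d → Fin d => ∏ i, g i (τ i)) := by
  classical
  unfold polyF tform
  rw [Finset.prod_univ_sum]
  rw [Fintype.piFinset_univ]
  refine Finset.sum_congr rfl fun τ _ => ?_
  rw [Finset.prod_mul_distrib, map_prod]

lemma coeff_tform (a : (Fin D → Fin d) → ℝ) (m : Fin d →₀ ℕ) :
    coeff m (tform a) = ∑ τ, if (∑ i, Finsupp.single (τ i) 1) = m then a τ else 0 := by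
  classical
  unfold tform
  rw [coeff_sum]
  refine Finset.sum_congr rfl fun τ _ => ?_
  have h1 : (∏ i, X (τ i) : MvPolynomial (Fin d) ℝ) =
      monomial (∑ i, Finsupp.single (τ i) 1) 1 := by
    rw [monomial_sum_one]
    rfl
  rw [h1, C_mul_monomial, mul_one, coeff_monomial]

/-- a linear substitution -/
lemma eval_mulVec_tform (a : (Fin D → Fin d) → ℝ) (h : Matrix (Fin d) (Fin d) ℝ)
    (y : Fin d → ℝ) : eval (h *ᵥ y) (tform a) =
      eval y (tform (fun σ : Fin D → Fin d => ∑ τ : Fin D → Fin d, a τ * ∏ i, h (τ i) (σ i))) := by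
  classical
  rw [eval_tform, eval_tform]
  have h1 : ∀ τ : Fin D → Fin d, ∏ i, (h *ᵥ y) (τ i) =
      ∑ σ : Fin D → Fin d, ∏ i, (h (τ i) (σ i) * y (σ i)) := by
    intro τ
    simp only [mulVec, dotProduct]
    rw [Finset.prod_univ_sum, Fintype.piFinset_univ]
  simp only [h1, Finset.mul_sum, Finset.sum_mul]
  rw [Finset.sum_comm]
  refine Finset.sum_congr rfl fun σ _ => Finset.sum_congr rfl fun τ _ => ?_
  rw [Finset.prod_mul_distrib]
  ring

/-- a linear functional on the coefficients, at integer points -/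
lemma eval_functional (g : Matrix (Fin d) (Fin d) ℝ) (φ : ℝ →ₗ[ℚ] ℚ) (x : Fin d → ℤ) :
    eval (iR x) (tform (fun τ : Fin d → Fin d => ((φ (∏ i, g i (τ i)) : ℚ) : ℝ))) =
      ((φ (FF g (iR x)) : ℚ) : ℝ) := by
  classical
  have h1 : FF g (iR x) = ∑ τ : Fin d → Fin d, ((∏ i, (x (τ i) : ℚ)) : ℚ) • ∏ i, g i (τ i) := by
    have := eval_polyF g (iR x)
    rw [polyF_eq, eval_tform] at this
    unfold FF
    rw [← this]
    refine Finset.sum_congr rfl fun τ _ => ?_
    rw [Rat.smul_def, mul_comm]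
    congr 1
    push_cast
    rfl
  rw [h1, map_sum, eval_tform]
  push_cast
  refine Finset.sum_congr rfl fun τ _ => ?_
  rw [map_smul, smul_eq_mul]
  push_cast
  rw [mul_comm]
  rfl

lemma coeff_functional (g : Matrix (Fin d) (Fin d) ℝ) (φ : ℝ →ₗ[ℚ] ℚ) (m : Fin d →₀ ℕ) :
    coeff m (tform (fun τ : Fin d → Fin d => ((φ (∏ i, g i (τ i)) : ℚ) : ℝ))) =
      ((φ (coeff m (polyF g)) : ℚ) : ℝ) := by
  classical
  rw [polyF_eq, coeff_tform, coeff_tform, map_sum]
  push_cast
  refine Finset.sum_congr rfl fun τ _ => ?_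
  split_ifs <;> simp

/-- a functional which detects a coefficient outside of a subspace -/
lemma exists_functional (W : Submodule ℚ ℝ) {c : ℝ} (hc : c ∉ W) :
    ∃ φ : ℝ →ₗ[ℚ] ℚ, (∀ w ∈ W, φ w = 0) ∧ φ c ≠ 0 := by
  obtain ⟨φ, h1, h2⟩ := Submodule.exists_le_ker_of_notMem hc
  exact ⟨φ, fun w hw => h2 hw, h1⟩

end Pool.Agent.T6.H49.CSD
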