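import Mathlib
import Pool.Agent.T6.H49.CSD.Tensor

/-! # Homogeneous polynomials on an orthant in logarithmic coordinates -/

set_option autoImplicit false

open MvPolynomial H715R2 Matrix

namespace Pool.Agent.T6.H49.CSD

variable {e D : ℕ}

/-- the parametrisation of the hyperplane of sum zero -/
noncomputable def Pm (i : Fin (e + 1)) (j : Fin e) : ℝ :=
  if i = Fin.last e then -1 else if i = j.castSucc then 1 else 0

lemma Pm_last (j : Fin e) : Pm (Fin.last e) j = -1 := by simp [Pm]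

lemma Pm_castSucc (l j : Fin e) : Pm l.castSucc j = if l = j then 1 else 0 := by
  simp [Pm, Fin.castSucc_ne_last]

lemma sum_Pm (j : Fin e) : ∑ i, Pm i j = 0 := by
  rw [Fin.sum_univ_castSucc, Pm_last]
  simp [Pm_castSucc]

lemma param (t : Fin (e + 1) → ℝ) (i : Fin (e + 1)) :
    t i = (∑ k, t k) / (e + 1) + ∑ j : Fin e, Pm i j * (t j.castSucc - (∑ k, t k) / (e + 1)) := by
  induction i using Fin.lastCases with
  | last =>
    have h1 : ∑ j : Fin e, Pm (Fin.last e) j * (t j.castSucc - (∑ k, t k) / (e + 1)) =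
        - (∑ j : Fin e, t j.castSucc) + e * ((∑ k, t k) / (e + 1)) := by
      simp only [Pm_last, neg_one_mul, neg_sub, Finset.sum_sub_distrib]
      rw [Finset.sum_const, Finset.card_univ, Fintype.card_fin, nsmul_eq_mul]
      ring
    rw [h1]
    have h2 : (∑ k, t k) = (∑ j : Fin e, t j.castSucc) + t (Fin.last e) :=
      Fin.sum_univ_castSucc t
    have h3 : ((e : ℝ) + 1) ≠ 0 := by positivity
    have h4 : (∑ k, t k) / (e + 1) + e * ((∑ k, t k) / (e + 1)) = ∑ k, t k := by
      field_simp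
      ring
    linarith
  | cast l =>
    simp only [Pm_castSucc]
    simp

/-- the frequencies -/
noncomputable def kf (e D : ℕ) (j : Fin (Fintype.card (Fin D → Fin (e + 1)))) (l : Fin e) : ℝ :=
  ∑ i, Pm ((Fintype.equivFin (Fin D → Fin (e + 1))).symm j i) l

/-- the coefficients -/
noncomputable def cf (κ : (Fin D → Fin (e + 1)) → ℝ) (ε : Fin (e + 1) → ℝ)
    (j : Fin (Fintype.card (Fin D → Fin (e + 1)))) : ℝ :=
  κ ((Fintype.equivFin (Fin D → Fin (e + 1))).symm j) *
    ∏ i, ε ((Fintype.equivFin (Fin D → Fin (e + 1))).symm j i)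

lemma eval_orth (κ : (Fin D → Fin (e + 1)) → ℝ) (ε : Fin (e + 1) → ℝ) (c0 : ℝ)
    (u : Fin e → ℝ) :
    eval (fun i => ε i * Real.exp (c0 + ∑ j, Pm i j * u j)) (tform κ) =
      Real.exp (D * c0) * expS (cf κ ε) (kf e D) u := by
  rw [eval_tform]
  unfold expS
  rw [Finset.mul_sum]
  refine (Fintype.sum_equiv (Fintype.equivFin (Fin D → Fin (e + 1))).symm _ _ fun j => ?_).symm
  simp only [cf, kf]
  set σ := (Fintype.equivFin (Fin D → Fin (e + 1))).symm j with hσ
  rw [Finset.prod_mul_distrib, ← Real.exp_sum, Finset.sum_add_distrib, Real.exp_add]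
  have h1 : ∑ _i : Fin D, c0 = D * c0 := by
    rw [Finset.sum_const, Finset.card_univ, Fintype.card_fin, nsmul_eq_mul]
  have h2 : ∑ i : Fin D, ∑ j, Pm (σ i) j * u j = ∑ l, (∑ i, Pm (σ i) l) * u l := by
    rw [Finset.sum_comm]
    refine Finset.sum_congr rfl fun l _ => ?_
    rw [Finset.sum_mul]
  rw [h1, h2]
  ring

/-- an exponential sum which comes from a nonzero homogeneous polynomial does not vanish -/
lemma exists_ne_zero {κ : (Fin D → Fin (e + 1)) → ℝ} (hκ : tform κ ≠ 0)
    (ε : Fin (e + 1) → ℝ) (hε : ∀ i, ε i = 1 ∨ ε i = -1) :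
    ∃ u, expS (cf κ ε) (kf e D) u ≠ 0 := by
  by_contra hcon
  push Not at hcon
  apply hκ
  refine funext_set (fun i => {y : ℝ | 0 < ε i * y}) (fun i => ?_) fun y hy => ?_
  · rcases hε i with h | h
    · simp only [h, one_mul]
      exact Set.Ioi_infinite 0
    · simp only [h, neg_one_mul, neg_pos]
      exact Set.Iio_infinite 0
  · rw [map_zero]
    have hy' : ∀ i, 0 < ε i * y i := fun i => hy i (Set.mem_univ i)
    set t : Fin (e + 1) → ℝ := fun i => Real.log (ε i * y i) with ht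
    have h1 : y = fun i => ε i * Real.exp ((∑ k, t k) / (e + 1) +
        ∑ j, Pm i j * (t j.castSucc - (∑ k, t k) / (e + 1))) := by
      funext i
      rw [← param, ht, Real.exp_log (hy' i)]
      rcases hε i with h | h <;> simp [h]
    rw [h1, eval_orth κ ε _ (fun j : Fin e => t j.castSucc - (∑ k, t k) / (e + 1)), hcon,
      mul_zero]

/-- the coefficients after a change of scale -/
noncomputable def cs {N : ℕ} (c : Fin N → ℝ) (k : Fin N → Fin e → ℝ) (Λ : ℝ) (j : Fin N) : ℝ :=
  c j * Real.exp (- (∑ i, k j i * Λ))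

/-- the frequencies after a change of scale -/
noncomputable def ks {N : ℕ} (k : Fin N → Fin e → ℝ) (δ : ℝ) (j : Fin N) (l : Fin e) : ℝ :=
  δ * k j l

lemma expS_scale {N : ℕ} (c : Fin N → ℝ) (k : Fin N → Fin e → ℝ) (Λ δ : ℝ) (u : Fin e → ℝ) :
    expS (cs c k Λ) (ks k δ) u = expS c k (fun i => δ * u i - Λ) := by
  unfold expS cs ks
  refine Finset.sum_congr rfl fun j _ => ?_
  rw [mul_assoc, ← Real.exp_add]
  congr 2
  rw [← sub_eq_neg_add, ← Finset.sum_sub_distrib]
  refine Finset.sum_congr rfl fun i _ => ?_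
  ring

lemma expS_scale' {N : ℕ} (c : Fin N → ℝ) (k : Fin N → Fin e → ℝ) (Λ : ℝ) {δ : ℝ} (hδ : 0 < δ)
    (s : Fin e → ℝ) :
    expS (cs c k Λ) (ks k δ) (fun i => (s i + Λ) / δ) = expS c k s := by
  rw [expS_scale]
  congr 1
  funext i
  field_simp
  ring

end Pool.Agent.T6.H49.CSD
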