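import Mathlib
import Pool.Agent.T6.H49.CSD.Orth

/-! # Integer points with small values on a hypersurface -/

set_option autoImplicit false

open MvPolynomial H715R2 Matrix

namespace Pool.Agent.T6.H49.CSD

variable {d e D : ℕ}

lemma exp_close {z ρ : ℝ} (h : |z| ≤ ρ) : |Real.exp z - 1| ≤ Real.exp ρ - 1 := by
  obtain ⟨h1, h2⟩ := abs_le.1 h
  rw [abs_le]
  constructor
  · have h3 := Real.add_one_le_exp ρ
    have h4 := Real.add_one_le_exp (-ρ)
    have h5 := Real.exp_le_exp.2 h1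
    linarith
  · have := Real.exp_le_exp.2 h2
    linarith

/-- points with the same signs and close logarithms coincide -/
lemma same_cell {g : Matrix (Fin d) (Fin d) ℝ} {ν T ρ : ℝ} (hν : 0 < ν) (hnu : HasNu g ν)
    {x x' : Fin d → ℤ} (hx : |FF g (iR x)| ≤ T) (hρ0 : 0 ≤ ρ)
    (hρ : T * (Real.exp ρ - 1) ^ d < ν)
    (hsign : ∀ i, 0 < (g *ᵥ iR x) i * (g *ᵥ iR x') i)
    (hlog : ∀ i, abs (Real.log |(g *ᵥ iR x') i| - Real.log |(g *ᵥ iR x) i|) ≤ ρ) : x = x' := by
  by_contra hne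
  have h1 := hnu (x - x') (sub_ne_zero.2 hne)
  have h2 : iR (x - x') = iR x - iR x' := by
    funext i
    simp [iR]
  have h3 : |FF g (iR (x - x'))| ≤ ∏ i, (|(g *ᵥ iR x) i| * (Real.exp ρ - 1)) := by
    rw [FF_eq, Finset.abs_prod, h2, mulVec_sub]
    refine Finset.prod_le_prod (fun i _ => abs_nonneg _) fun i _ => ?_
    have hy : (g *ᵥ iR x) i ≠ 0 := by
      intro h0
      have := hsign i
      rw [h0, zero_mul] at this
      exact lt_irrefl _ this
    have hy' : (g *ᵥ iR x') i ≠ 0 := by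
      intro h0
      have := hsign i
      rw [h0, mul_zero] at this
      exact lt_irrefl _ this
    have h4 : (g *ᵥ iR x') i = (g *ᵥ iR x) i *
        Real.exp (Real.log |(g *ᵥ iR x') i| - Real.log |(g *ᵥ iR x) i|) := by
      rw [Real.exp_sub, Real.exp_log (abs_pos.2 hy), Real.exp_log (abs_pos.2 hy')]
      rcases lt_or_gt_of_ne hy with hl | hl
      · have h5 : (g *ᵥ iR x') i < 0 := by
          have := hsign i
          by_contra hcon
          push Not at hcon
          nlinarith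
        rw [abs_of_neg hl, abs_of_neg h5]
        field_simp
      · have h5 : 0 < (g *ᵥ iR x') i := by
          have := hsign i
          by_contra hcon
          push Not at hcon
          nlinarith
        rw [abs_of_pos hl, abs_of_pos h5]
        field_simp
    rw [Pi.sub_apply]
    have h6 : (g *ᵥ iR x) i - (g *ᵥ iR x') i = -((g *ᵥ iR x) i *
        (Real.exp (Real.log |(g *ᵥ iR x') i| - Real.log |(g *ᵥ iR x) i|) - 1)) := by
      conv_lhs => rw [h4]
      ring
    rw [h6, abs_neg, abs_mul]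
    exact mul_le_mul_of_nonneg_left (exp_close (hlog i)) (abs_nonneg _)
  rw [Finset.prod_mul_distrib, Finset.prod_const, Finset.card_univ, Fintype.card_fin,
    ← Finset.abs_prod, ← FF_eq] at h3
  have h4 : 0 ≤ (Real.exp ρ - 1) ^ d := by
    refine pow_nonneg ?_ _
    have := Real.add_one_le_exp ρ
    linarith
  have h5 := mul_le_mul_of_nonneg_right hx h4
  linarith

lemma exists_rho (d : ℕ) {ν T : ℝ} (hν : 0 < ν) (hT : 0 < T) (hd : 0 < d) :
    ∃ ρ : ℝ, 0 < ρ ∧ T * (Real.exp ρ - 1) ^ d < ν := by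
  set η : ℝ := (ν / (2 * T)) ^ ((1 : ℝ) / d) with hη
  have hη0 : 0 < η := Real.rpow_pos_of_pos (by positivity) _
  refine ⟨Real.log (1 + η), Real.log_pos (by linarith), ?_⟩
  rw [Real.exp_log (by linarith), add_sub_cancel_left, hη, ← Real.rpow_natCast,
    ← Real.rpow_mul (by positivity), one_div, inv_mul_cancel₀ (by exact_mod_cast hd.ne'),
    Real.rpow_one]
  field_simp
  linarith

lemma floor_close {a b : ℝ} (ha : 0 ≤ a) (hb : 0 ≤ b) (h : ⌊a⌋₊ = ⌊b⌋₊) : |a - b| ≤ 1 := by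
  have h1 := Nat.floor_le ha
  have h2 := Nat.lt_floor_add_one a
  have h3 := Nat.floor_le hb
  have h4 := Nat.lt_floor_add_one b
  rw [h] at h1 h2
  rw [abs_le]
  constructor <;> linarith

/-- **Few points with small values lie on a hypersurface.** -/
theorem count_hyper (e D : ℕ) {ν T : ℝ} (hν : 0 < ν) (hT : 0 < T) : ∃ C : ℝ, 0 ≤ C ∧
    ∀ g : Matrix (Fin (e + 1)) (Fin (e + 1)) ℝ, g.det ≠ 0 → HasNu g ν →
    ∀ a : (Fin D → Fin (e + 1)) → ℝ, tform a ≠ 0 → ∀ X : ℝ, 0 ≤ X →
    ∀ S : Finset (Fin (e + 1) → ℤ), (∀ x ∈ S, x ≠ 0 ∧ (∀ i, |(x i : ℝ)| ≤ X) ∧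
      |FF g (iR x)| < T ∧ eval (iR x) (tform a) = 0) →
    (S.card : ℝ) ≤ C * (1 + Real.log (1 + (∑ i, ∑ j, |g i j|) * X)) ^ (e - 1) := by
  classical
  obtain ⟨ρ, hρ0, hρ⟩ := exists_rho (e + 1) hν hT (Nat.succ_pos e)
  obtain ⟨B, hB⟩ := card_vis e (Fintype.card (Fin D → Fin (e + 1)))
  set δ : ℝ := ρ / (e + 1) with hδ
  have he1 : (0 : ℝ) < (e : ℝ) + 1 := by positivity
  have hδ0 : 0 < δ := div_pos hρ0 he1
  set M : ℝ := |Real.log ν| + |Real.log T| with hM
  have hM0 : 0 ≤ M := by positivity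
  set K : ℕ := ⌊(Real.log T - Real.log ν) / δ⌋₊ with hK
  set C1 : ℝ := 2 / δ * ((e + 1) + 2 * M) + 1 with hC1
  have hC10 : 0 ≤ C1 := by positivity
  refine ⟨2 ^ (e + 1) * (K + 1) * B * C1 ^ (e - 1), by positivity, ?_⟩
  intro g hg hnu a ha X hX S hS
  set G : ℝ := ∑ i, ∑ j, |g i j| with hG
  have hG0 : 0 ≤ G := Finset.sum_nonneg fun i _ => Finset.sum_nonneg fun j _ => abs_nonneg _
  have hGX : 0 ≤ G * X := mul_nonneg hG0 hX
  set Λ' : ℝ := Real.log (1 + G * X) with hΛ'
  have hΛ'0 : 0 ≤ Λ' := Real.log_nonneg (by linarith)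
  set Λ : ℝ := (e + 1) * Λ' + 2 * M with hΛ
  have hΛ0 : 0 ≤ Λ := by positivity
  set L' : ℕ := ⌊2 * Λ / δ⌋₊ with hL'
  have hL : ((L' + 1 : ℕ) : ℝ) ≤ C1 * (1 + Λ') := by
    push_cast
    have h1 : (L' : ℝ) ≤ 2 * Λ / δ := Nat.floor_le (by positivity)
    have h2 : C1 * (1 + Λ') = 2 / δ * ((e + 1) + 2 * M) + 1 + 2 / δ * ((e + 1) + 2 * M) * Λ' + Λ' := by
      rw [hC1]; ring
    have h3 : 2 * Λ / δ = 2 / δ * ((e + 1) * Λ') + 2 / δ * (2 * M) := by
      rw [hΛ]; ring
    have h4 : 0 ≤ 2 / δ := by positivity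
    have h5 : 2 / δ * ((e + 1) + 2 * M) = 2 / δ * (e + 1) + 2 / δ * (2 * M) := by ring
    have h6 : 2 / δ * ((e + 1) + 2 * M) * Λ' = 2 / δ * ((e + 1) * Λ') + 2 / δ * (2 * M) * Λ' := by
      ring
    have h7 : 0 ≤ 2 / δ * (e + 1) := by positivity
    have h8 : 0 ≤ 2 / δ * (2 * M) * Λ' := by positivity
    linarith
  -- the coordinates of a point
  set y : (Fin (e + 1) → ℤ) → Fin (e + 1) → ℝ := fun x => g *ᵥ iR x with hy
  set t : (Fin (e + 1) → ℤ) → Fin (e + 1) → ℝ := fun x i => Real.log |y x i| with ht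
  set s0 : (Fin (e + 1) → ℤ) → ℝ := fun x => Real.log |FF g (iR x)| with hs0
  set s : (Fin (e + 1) → ℤ) → Fin e → ℝ := fun x l =>
    t x l.castSucc - s0 x / (e + 1) with hs
  have hyne : ∀ x ∈ S, ∀ i, y x i ≠ 0 := by
    intro x hx i h0
    have h1 := hnu x (hS x hx).1
    rw [FF_eq, Finset.prod_eq_zero (Finset.mem_univ i) h0, abs_zero] at h1
    linarith
  have hsum : ∀ x ∈ S, ∑ i, t x i = s0 x := by
    intro x hx
    rw [hs0, ht]
    simp only
    rw [FF_eq, Finset.abs_prod, Real.log_prod]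
    intro i _
    exact (abs_pos.2 (hyne x hx i)).ne'
  have hs0l : ∀ x ∈ S, Real.log ν ≤ s0 x := fun x hx =>
    Real.log_le_log hν (hnu x (hS x hx).1)
  have hs0u : ∀ x ∈ S, s0 x ≤ Real.log T := fun x hx =>
    Real.log_le_log (hν.trans_le (hnu x (hS x hx).1)) (hS x hx).2.2.1.le
  have hs0M : ∀ x ∈ S, |s0 x| ≤ M := by
    intro x hx
    rw [abs_le]
    have h1 := neg_abs_le (Real.log ν)
    have h2 := le_abs_self (Real.log T)
    have h3 := abs_nonneg (Real.log ν)
    have h4 := abs_nonneg (Real.log T)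
    constructor
    · linarith [hs0l x hx]
    · linarith [hs0u x hx]
  have htu : ∀ x ∈ S, ∀ i, t x i ≤ Λ' := by
    intro x hx i
    refine Real.log_le_log (abs_pos.2 (hyne x hx i)) ?_
    have h1 : |y x i| ≤ ∑ j, |g i j| * X := by
      simp only [hy, mulVec, dotProduct]
      refine (Finset.abs_sum_le_sum_abs _ _).trans (Finset.sum_le_sum fun j _ => ?_)
      rw [abs_mul]
      exact mul_le_mul_of_nonneg_left ((hS x hx).2.1 j) (abs_nonneg _)
    rw [← Finset.sum_mul] at h1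
    have h2 : ∑ j, |g i j| ≤ G := Finset.single_le_sum (f := fun i => ∑ j, |g i j|)
      (fun i _ => Finset.sum_nonneg fun j _ => abs_nonneg _) (Finset.mem_univ i)
    have h3 := mul_le_mul_of_nonneg_right h2 hX
    linarith
  have htl : ∀ x ∈ S, ∀ i, - M - e * Λ' ≤ t x i := by
    intro x hx i
    have h1 := hsum x hx
    rw [← Finset.add_sum_erase _ _ (Finset.mem_univ i)] at h1
    have h2 : ∑ j ∈ Finset.univ.erase i, t x j ≤ e * Λ' := by
      refine (Finset.sum_le_sum fun j _ => htu x hx j).trans (le_of_eq ?_)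
      rw [Finset.sum_const, Finset.card_erase_of_mem (Finset.mem_univ i), Finset.card_univ,
        Fintype.card_fin, nsmul_eq_mul, Nat.add_sub_cancel]
    have h3 := (abs_le.1 (hs0M x hx)).1
    linarith
  have hdiv : ∀ x ∈ S, |s0 x / (e + 1)| ≤ M := by
    intro x hx
    rw [abs_div, abs_of_pos he1]
    refine (div_le_self (abs_nonneg _) ?_).trans (hs0M x hx)
    have : (0 : ℝ) ≤ e := Nat.cast_nonneg e
    linarith
  have hsΛ : ∀ x ∈ S, ∀ l, |s x l| ≤ Λ := by
    intro x hx l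
    have h1 := abs_le.1 (hdiv x hx)
    have h2 := htu x hx l.castSucc
    have h3 := htl x hx l.castSucc
    have h4 : 0 ≤ (e : ℝ) * Λ' := by positivity
    rw [abs_le, hΛ, hs]
    simp only
    constructor <;> nlinarith
  have hu0 : ∀ x ∈ S, ∀ l, 0 ≤ (s x l + Λ) / δ := by
    intro x hx l
    have := (abs_le.1 (hsΛ x hx l)).1
    exact div_nonneg (by linarith) hδ0.le
  have huL : ∀ x ∈ S, ∀ l, ⌊(s x l + Λ) / δ⌋₊ < L' + 1 := by
    intro x hx l
    have := (abs_le.1 (hsΛ x hx l)).2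
    refine Nat.lt_succ_of_le (Nat.floor_le_floor ?_)
    exact div_le_div_of_nonneg_right (by linarith) hδ0.le
  have hb0 : ∀ x ∈ S, 0 ≤ (s0 x - Real.log ν) / δ := fun x hx =>
    div_nonneg (by linarith [hs0l x hx]) hδ0.le
  have hbK : ∀ x ∈ S, ⌊(s0 x - Real.log ν) / δ⌋₊ < K + 1 := by
    intro x hx
    refine Nat.lt_succ_of_le (Nat.floor_le_floor ?_)
    exact div_le_div_of_nonneg_right (by linarith [hs0u x hx]) hδ0.le
  -- the polynomial in the coordinates `y`
  have hgu : IsUnit g.det := isUnit_iff_ne_zero.2 hg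
  set κ : (Fin D → Fin (e + 1)) → ℝ := fun σ => ∑ τ : Fin D → Fin (e + 1),
    a τ * ∏ i, g⁻¹ (τ i) (σ i) with hκ
  have hev : ∀ z : Fin (e + 1) → ℝ, eval z (tform a) = eval (g *ᵥ z) (tform κ) := by
    intro z
    rw [← eval_mulVec_tform, mulVec_mulVec, Matrix.nonsing_inv_mul _ hgu, one_mulVec]
  have hκ0 : tform κ ≠ 0 := by
    intro h0
    apply ha
    refine MvPolynomial.funext fun z => ?_
    rw [hev, h0, map_zero, map_zero]
  let sg : (Fin (e + 1) → Bool) → Fin (e + 1) → ℝ := fun β i => if β i then 1 else -1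
  have hsg : ∀ β i, sg β i = 1 ∨ sg β i = -1 := by
    intro β i
    by_cases h : β i = true
    · left; simp [sg, h]
    · right; simp [sg, h]
  let V : (Fin (e + 1) → Bool) → Finset (Fin e → Fin (L' + 1)) := fun β =>
    vis (cs (cf κ (sg β)) (kf e D) Λ) (ks (kf e D) δ) (L' + 1)
  have hV : ∀ β, (V β).card ≤ B * (L' + 1) ^ (e - 1) := by
    intro β
    refine hB _ _ ?_ _
    obtain ⟨u, hu⟩ := exists_ne_zero hκ0 (sg β) (hsg β)
    refine ⟨fun i => (u i + Λ) / δ, ?_⟩
    rwa [expS_scale' _ _ _ hδ0]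
  let sgn : (Fin (e + 1) → ℤ) → Fin (e + 1) → Bool := fun x i => decide (0 < y x i)
  have hysg : ∀ x ∈ S, y x = fun i => sg (sgn x) i *
      Real.exp (s0 x / (e + 1) + ∑ j, Pm i j * s x j) := by
    intro x hx
    funext i
    have h1 := param (t x) i
    rw [hsum x hx] at h1
    have h2 : s0 x / (e + 1) + ∑ j, Pm i j * s x j = t x i := h1.symm
    rw [h2, ht]
    simp only
    rw [Real.exp_log (abs_pos.2 (hyne x hx i))]
    by_cases h : 0 < y x i
    · simp [sg, sgn, h, abs_of_pos h]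
    · have h3 : y x i < 0 := lt_of_le_of_ne (not_lt.1 h) (hyne x hx i)
      simp [sg, sgn, h, abs_of_neg h3]
  have hqV : ∀ x ∈ S, (fun l => Fin.ofNat (L' + 1) ⌊(s x l + Λ) / δ⌋₊) ∈ V (sgn x) := by
    intro x hx
    refine mem_vis.2 ⟨fun l => (s x l + Λ) / δ, fun l => ?_, ?_⟩
    · have h1 : ((Fin.ofNat (L' + 1) ⌊(s x l + Λ) / δ⌋₊ : Fin (L' + 1)) : ℕ) =
          ⌊(s x l + Λ) / δ⌋₊ := Nat.mod_eq_of_lt (huL x hx l)
      rw [h1]
      exact ⟨Nat.floor_le (hu0 x hx l), (Nat.lt_floor_add_one _).le⟩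
    · rw [expS_scale' _ _ _ hδ0]
      have h1 := (hS x hx).2.2.2
      rw [hev] at h1
      have h2 : eval (y x) (tform κ) = 0 := h1
      rw [hysg x hx, eval_orth] at h2
      exact (mul_eq_zero.1 h2).resolve_left (Real.exp_pos _).ne'
  let f : (Fin (e + 1) → ℤ) → Σ _ : (Fin (e + 1) → Bool) × Fin (K + 1), (Fin e → Fin (L' + 1)) :=
    fun x => ⟨(sgn x, Fin.ofNat (K + 1) ⌊(s0 x - Real.log ν) / δ⌋₊),
      fun l => Fin.ofNat (L' + 1) ⌊(s x l + Λ) / δ⌋₊⟩
  have hcard : S.card ≤ ((Finset.univ : Finset ((Fin (e + 1) → Bool) × Fin (K + 1))).sigma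
      fun p => V p.1).card := by
    refine Finset.card_le_card_of_injOn f (fun x hx => ?_) fun x hx x' hx' hxx => ?_
    · exact Finset.mem_sigma.2 ⟨Finset.mem_univ _, hqV x hx⟩
    · have hx := Finset.mem_coe.1 hx
      have hx' := Finset.mem_coe.1 hx'
      have h1 : sgn x = sgn x' := congrArg (fun p => p.1.1) hxx
      have h2 : ⌊(s0 x - Real.log ν) / δ⌋₊ = ⌊(s0 x' - Real.log ν) / δ⌋₊ := by
        have := congrArg (fun p => (p.1.2 : ℕ)) hxx
        simp only [f, Fin.ofNat] at this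
        rwa [Nat.mod_eq_of_lt (hbK x hx), Nat.mod_eq_of_lt (hbK x' hx')] at this
      have h3 : ∀ l, ⌊(s x l + Λ) / δ⌋₊ = ⌊(s x' l + Λ) / δ⌋₊ := by
        intro l
        have h4 : (f x).2 = (f x').2 := by
          have := hxx
          rw [Sigma.mk.injEq] at this
          exact eq_of_heq this.2
        have h5 := congrArg (fun q : Fin e → Fin (L' + 1) => (q l : ℕ)) h4
        simp only [f, Fin.ofNat] at h5
        rwa [Nat.mod_eq_of_lt (huL x hx l), Nat.mod_eq_of_lt (huL x' hx' l)] at h5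
      have h4 : |s0 x' - s0 x| ≤ δ := by
        have h5 := floor_close (hb0 x' hx') (hb0 x hx) h2.symm
        have h6 : (s0 x' - Real.log ν) / δ - (s0 x - Real.log ν) / δ = (s0 x' - s0 x) / δ := by
          ring
        rw [h6, abs_div, abs_of_pos hδ0, div_le_one hδ0] at h5
        exact h5
      have h5 : ∀ l, |s x' l - s x l| ≤ δ := by
        intro l
        have h5 := floor_close (hu0 x' hx' l) (hu0 x hx l) (h3 l).symm
        have h6 : (s x' l + Λ) / δ - (s x l + Λ) / δ = (s x' l - s x l) / δ := by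
          ring
        rw [h6, abs_div, abs_of_pos hδ0, div_le_one hδ0] at h5
        exact h5
      refine same_cell hν hnu (hS x hx).2.2.1.le hρ0.le hρ (fun i => ?_) fun i => ?_
      · have h6 := congrFun h1 i
        simp only [sgn, decide_eq_decide] at h6
        by_cases h : 0 < y x i
        · exact mul_pos h (h6.1 h)
        · have h7 : y x i < 0 := lt_of_le_of_ne (not_lt.1 h) (hyne x hx i)
          have h8 : y x' i < 0 := lt_of_le_of_ne (not_lt.1 fun h9 => h (h6.2 h9)) (hyne x' hx' i)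
          exact mul_pos_of_neg_of_neg h7 h8
      · show |t x' i - t x i| ≤ ρ
        have h6 := param (t x) i
        have h7 := param (t x') i
        rw [hsum x hx] at h6
        rw [hsum x' hx'] at h7
        have h8 : t x' i - t x i = (s0 x' - s0 x) / (e + 1) +
            ∑ j, Pm i j * (s x' j - s x j) := by
          rw [h6, h7]
          simp only [mul_sub, Finset.sum_sub_distrib, hs]
          ring
        rw [h8]
        have h9 : |∑ j, Pm i j * (s x' j - s x j)| ≤ e * δ := by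
          refine (Finset.abs_sum_le_sum_abs _ _).trans ?_
          refine (Finset.sum_le_sum (g := fun _ => δ) fun j _ => ?_).trans (le_of_eq ?_)
          · rw [abs_mul]
            have h10 : |Pm i j| ≤ 1 := by
              unfold Pm
              split_ifs <;> simp
            calc |Pm i j| * |s x' j - s x j| ≤ 1 * δ :=
                  mul_le_mul h10 (h5 j) (abs_nonneg _) zero_le_one
              _ = δ := one_mul _
          · rw [Finset.sum_const, Finset.card_univ, Fintype.card_fin, nsmul_eq_mul]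
        have h10 : |(s0 x' - s0 x) / (e + 1)| ≤ δ := by
          rw [abs_div, abs_of_pos he1]
          refine (div_le_self (abs_nonneg _) ?_).trans h4
          have : (0 : ℝ) ≤ e := Nat.cast_nonneg e
          linarith
        refine (abs_add_le _ _).trans ?_
        have h11 : ρ = δ + e * δ := by
          rw [hδ]
          field_simp
          ring
        linarith
  have hcard2 : S.card ≤ 2 ^ (e + 1) * (K + 1) * (B * (L' + 1) ^ (e - 1)) := by
    refine hcard.trans ?_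
    rw [Finset.card_sigma]
    refine (Finset.sum_le_sum fun p _ => hV p.1).trans (le_of_eq ?_)
    rw [Finset.sum_const, Finset.card_univ, smul_eq_mul]
    congr 1
    simp
  have hcard3 : (S.card : ℝ) ≤ 2 ^ (e + 1) * (K + 1) * (B * ((L' + 1 : ℕ) : ℝ) ^ (e - 1)) := by
    exact_mod_cast hcard2
  refine hcard3.trans ?_
  have h1 : ((L' + 1 : ℕ) : ℝ) ^ (e - 1) ≤ (C1 * (1 + Λ')) ^ (e - 1) :=
    pow_le_pow_left₀ (Nat.cast_nonneg _) hL _
  rw [mul_pow] at h1
  calc (2 : ℝ) ^ (e + 1) * (K + 1) * (B * ((L' + 1 : ℕ) : ℝ) ^ (e - 1))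
      ≤ 2 ^ (e + 1) * (K + 1) * (B * (C1 ^ (e - 1) * (1 + Λ') ^ (e - 1))) := by gcongr
    _ = _ := by ring

end Pool.Agent.T6.H49.CSD
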