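import Mathlib
import Pool.Agent.T6.H49.CSD.Count
import Pool.Agent.TH314.CSD.Cover

/-! # Values in subspaces over the rational numbers, and classes of commensurable values -/

set_option autoImplicit false

open MvPolynomial H715R2 Matrix

namespace Pool.Agent.T6.H49.CSD

variable {d e D : ℕ}

/-- **Few small values lie in a subspace over `ℚ`.** -/
theorem count_subspace (e : ℕ) {ν T : ℝ} (hν : 0 < ν) (hT : 0 < T) : ∃ C : ℝ, 0 ≤ C ∧
    ∀ g : Matrix (Fin (e + 1)) (Fin (e + 1)) ℝ, g.det ≠ 0 → HasNu g ν →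
    ∀ W : Submodule ℚ ℝ, (∃ m, coeff m (polyF g) ∉ W) → ∀ X : ℝ, 0 ≤ X →
    ∀ S : Finset (Fin (e + 1) → ℤ), (∀ x ∈ S, x ≠ 0 ∧ (∀ i, |(x i : ℝ)| ≤ X) ∧
      |FF g (iR x)| < T ∧ FF g (iR x) ∈ W) →
    (S.card : ℝ) ≤ C * (1 + Real.log (1 + (∑ i, ∑ j, |g i j|) * X)) ^ (e - 1) := by
  obtain ⟨C, hC0, hC⟩ := count_hyper e (e + 1) hν hT
  refine ⟨C, hC0, fun g hg hnu W hW X hX S hS => ?_⟩
  obtain ⟨m, hm⟩ := hW
  obtain ⟨φ, hφW, hφ⟩ := exists_functional W hm
  refine hC g hg hnu (fun τ : Fin (e + 1) → Fin (e + 1) => ((φ (∏ i, g i (τ i)) : ℚ) : ℝ))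
    ?_ X hX S fun x hx => ⟨(hS x hx).1, (hS x hx).2.1, (hS x hx).2.2.1, ?_⟩
  · intro h0
    have h1 := coeff_functional g φ m
    rw [h0, coeff_zero] at h1
    exact hφ (by exact_mod_cast h1.symm)
  · rw [eval_functional, hφW _ (hS x hx).2.2.2, Rat.cast_zero]

/-- a form all of whose coefficients are rational multiples of one real number -/
lemma propInt_of_span {g : Matrix (Fin d) (Fin d) ℝ} (hg : g.det ≠ 0) (v : ℝ)
    (hv : ∀ m, coeff m (polyF g) ∈ Submodule.span ℚ {v}) : PropInt g := by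
  classical
  have hpoly : polyF g ≠ 0 := by
    unfold polyF
    refine Finset.prod_ne_zero_iff.2 fun i _ h0 => hg ?_
    refine Matrix.det_eq_zero_of_row_eq_zero i fun j => ?_
    have h1 := congrArg (eval (Pi.single j (1 : ℝ))) h0
    simpa [Pi.single_apply] using h1
  have hv0 : v ≠ 0 := by
    rintro rfl
    apply hpoly
    ext m
    have := hv m
    rw [Submodule.span_singleton_eq_bot.2 rfl, Submodule.mem_bot] at this
    rw [this, coeff_zero]
  choose q hq using fun m => Submodule.mem_span_singleton.1 (hv m)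
  set Q : MvPolynomial (Fin d) ℚ := ∑ m ∈ (polyF g).support, monomial m (q m) with hQ
  have hQc : ∀ m, coeff m Q = q m := by
    intro m
    rw [hQ, coeff_sum]
    simp only [coeff_monomial]
    rw [Finset.sum_ite_eq']
    split_ifs with hm
    · rfl
    · have h1 := hq m
      rw [notMem_support_iff.1 hm, Rat.smul_def] at h1
      rcases mul_eq_zero.1 h1 with h2 | h2
      · exact_mod_cast h2.symm
      · exact absurd h2 hv0
  obtain ⟨n, hn, hz⟩ := exists_common_den Q
  refine ⟨n / v, div_ne_zero (by exact_mod_cast hn) hv0, fun m => ?_⟩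
  obtain ⟨z, hz⟩ := hz m
  refine ⟨z, ?_⟩
  rw [coeff_smul, smul_eq_mul, ← hq m, Rat.smul_def, ← hQc m]
  have h1 : ((n : ℚ) * coeff m Q : ℚ) = (z : ℚ) := hz
  have h2 : (n : ℝ) * ((coeff m Q : ℚ) : ℝ) = z := by exact_mod_cast congrArg (Rat.cast : ℚ → ℝ) h1
  rw [← h2]
  field_simp

lemma exists_coeff_notMem {g : Matrix (Fin d) (Fin d) ℝ} (hg : g.det ≠ 0) (hint : ¬ PropInt g)
    (v : ℝ) : ∃ m, coeff m (polyF g) ∉ Submodule.span ℚ {v} := by
  by_contra hcon
  push Not at hcon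
  exact hint (propInt_of_span hg v hcon)

/-- many points with all coordinates under control -/
theorem many_points (e : ℕ) {V ν : ℝ} (hV : 0 < V) (hν : 0 < ν)
    {Y : Set (Matrix (Fin (e + 1)) (Fin (e + 1)) ℝ)} (hYc : IsClosed Y) (hYinv : H715R2.Inv Y)
    (hYdet : ∀ h ∈ Y, |h.det| = V) (hYnu : ∀ h ∈ Y, HasNu h ν) {U : Set ℝ} (hUo : IsOpen U)
    (hU : ∀ h ∈ Y, ∃ m : Fin (e + 1) → ℤ, m ≠ 0 ∧ FF h (iR m) ∈ U) :
    ∃ r κ : ℝ, 0 < r ∧ 0 < κ ∧ ∀ h ∈ Y, ∀ n : ℕ, ∃ S : Finset (Fin (e + 1) → ℤ),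
      S.card = (n + 1) ^ e ∧ ∀ x ∈ S, x ≠ 0 ∧ |FF h (iR x)| < r ∧ FF h (iR x) ∈ U ∧
        ∀ i, |(x i : ℝ)| ≤ (∑ i, ∑ j, |h⁻¹ i j|) * (r * Real.exp (κ * n)) := by
  classical
  obtain ⟨r, hr0, hr⟩ := TH314.CSD.exists_vec_set (Nat.succ_pos e) hV hν hYc hYinv hYdet hYnu hUo hU
  set c1 : ℝ := ν / r ^ (e + 1 - 1) with hc1
  have hc10 : 0 < c1 := div_pos hν (pow_pos hr0 _)
  set κ : ℝ := |Real.log (r / c1)| + 1 with hκ
  have hκ0 : 0 < κ := by positivity
  have hκr : r ≤ c1 * Real.exp κ := by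
    have h1 : Real.log (r / c1) ≤ κ := by
      have := le_abs_self (Real.log (r / c1))
      rw [hκ]; linarith
    have h2 : r / c1 ≤ Real.exp κ := by
      rw [← Real.exp_log (div_pos hr0 hc10)]
      exact Real.exp_le_exp.2 h1
    rw [div_le_iff₀ hc10] at h2
    linarith
  refine ⟨max (r ^ (e + 1)) r, κ * e + κ, lt_max_of_lt_right hr0, by positivity, fun h hh n => ?_⟩
  have hdet0 : h.det ≠ 0 := by
    intro h0
    have := hYdet _ hh
    rw [h0, abs_zero] at this
    exact hV.ne this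
  have hu : IsUnit h.det := isUnit_iff_ne_zero.2 hdet0
  let w : (Fin e → Fin (n + 1)) → Fin (e + 1) → ℝ := fun u i => ∑ j, Pm i j * ((u j : ℕ) : ℝ)
  have hw : ∀ u, ∑ i, w u i = 0 := by
    intro u
    simp only [w]
    rw [Finset.sum_comm]
    refine Finset.sum_eq_zero fun j _ => ?_
    rw [← Finset.sum_mul, sum_Pm, zero_mul]
  have hwn : ∀ u i, |w u i| ≤ e * n := by
    intro u i
    refine (Finset.abs_sum_le_sum_abs _ _).trans ?_
    refine (Finset.sum_le_sum (g := fun _ => (n : ℝ)) fun j _ => ?_).trans (le_of_eq ?_)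
    · rw [abs_mul]
      have h10 : |Pm i j| ≤ 1 := by
        unfold Pm
        split_ifs <;> simp
      have h11 : |(((u j : Fin (n + 1)) : ℕ) : ℝ)| ≤ n := by
        rw [abs_of_nonneg (Nat.cast_nonneg _)]
        exact_mod_cast Nat.lt_succ_iff.1 (u j).2
      calc |Pm i j| * |(((u j : Fin (n + 1)) : ℕ) : ℝ)| ≤ 1 * n :=
            mul_le_mul h10 h11 (abs_nonneg _) zero_le_one
        _ = n := one_mul _
    · rw [Finset.sum_const, Finset.card_univ, Fintype.card_fin, nsmul_eq_mul]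
  have hex : ∀ u : Fin e → Fin (n + 1), ∃ m : Fin (e + 1) → ℤ,
      (∀ i, Real.exp (κ * w u i) * |(h *ᵥ iR m) i| < r) ∧
      (∀ i, c1 ≤ Real.exp (κ * w u i) * |(h *ᵥ iR m) i|) ∧ FF h (iR m) ∈ U := fun u =>
    hr h hh (fun i => Real.exp (κ * w u i)) (fun i => Real.exp_pos _) (by
      rw [← Real.exp_sum, ← Finset.mul_sum, hw, mul_zero, Real.exp_zero])
  choose x hx1 hx2 hx3 using hex
  have hne : ∀ u, x u ≠ 0 := by
    intro u h0
    have h1 := hx2 u 0
    have h2 : iR (x u) = 0 := by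
      funext i
      simp [iR, h0]
    rw [h2, mulVec_zero, Pi.zero_apply, abs_zero, mul_zero] at h1
    linarith
  have hinj : Function.Injective x := by
    intro u u' huu
    have key : ∀ u u' : Fin e → Fin (n + 1), x u = x u' → ∀ l, ((u l : ℕ) : ℝ) < (u' l : ℕ) + 1 := by
      intro u u' huu l
      have h1 := hx1 u' l.castSucc
      have h2 := hx2 u l.castSucc
      have h1' := hx1 u l.castSucc
      have h2' := hx2 u' l.castSucc
      rw [← huu] at h1 h2'
      have h3 : ∀ v : Fin e → Fin (n + 1), w v l.castSucc = (v l : ℕ) := by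
        intro v
        simp only [w, Pm_castSucc]
        simp
      rw [h3] at h1 h2 h1' h2'
      by_contra hcon
      push Not at hcon
      have h4 : Real.exp (κ * ((u' l : ℕ) : ℝ)) * Real.exp κ ≤ Real.exp (κ * ((u l : ℕ) : ℝ)) := by
        rw [← Real.exp_add]
        refine Real.exp_le_exp.2 ?_
        nlinarith
      have h5 := abs_nonneg ((h *ᵥ iR (x u)) l.castSucc)
      have h6 : c1 * Real.exp κ ≤ Real.exp (κ * ((u' l : ℕ) : ℝ)) * |(h *ᵥ iR (x u)) l.castSucc| *
          Real.exp κ := mul_le_mul_of_nonneg_right h2' (Real.exp_pos _).le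
      have h7 : Real.exp (κ * ((u' l : ℕ) : ℝ)) * |(h *ᵥ iR (x u)) l.castSucc| * Real.exp κ ≤
          Real.exp (κ * ((u l : ℕ) : ℝ)) * |(h *ᵥ iR (x u)) l.castSucc| := by
        have := mul_le_mul_of_nonneg_right h4 h5
        linarith
      linarith
    funext l
    apply Fin.ext
    have h1 := key u u' huu l
    have h2 := key u' u huu.symm l
    have h3 : (u l : ℕ) < (u' l : ℕ) + 1 := by exact_mod_cast h1
    have h4 : (u' l : ℕ) < (u l : ℕ) + 1 := by exact_mod_cast h2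
    omega
  refine ⟨Finset.univ.image x, ?_, ?_⟩
  · rw [Finset.card_image_of_injective _ hinj, Finset.card_univ]
    simp
  · intro m hm
    obtain ⟨u, -, rfl⟩ := Finset.mem_image.1 hm
    refine ⟨hne u, ?_, hx3 u, fun i => ?_⟩
    · refine lt_of_lt_of_le ?_ (le_max_left _ _)
      have h1 : |FF h (iR (x u))| = ∏ i, (Real.exp (κ * w u i) * |(h *ᵥ iR (x u)) i|) := by
        rw [Finset.prod_mul_distrib, ← Real.exp_sum, ← Finset.mul_sum, hw, mul_zero,
          Real.exp_zero, one_mul, FF_eq, Finset.abs_prod]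
      rw [h1]
      calc ∏ i, (Real.exp (κ * w u i) * |(h *ᵥ iR (x u)) i|) < ∏ _i : Fin (e + 1), r := by
            refine Finset.prod_lt_prod_of_nonempty (fun i _ => ?_) (fun i _ => hx1 u i)
              Finset.univ_nonempty
            exact hc10.trans_le (hx2 u i)
        _ = r ^ (e + 1) := by rw [Finset.prod_const, Finset.card_univ, Fintype.card_fin]
    · have h1 : ((x u i : ℤ) : ℝ) = ∑ j, h⁻¹ i j * (h *ᵥ iR (x u)) j := by
        have h2 : h⁻¹ *ᵥ (h *ᵥ iR (x u)) = iR (x u) := by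
          rw [mulVec_mulVec, Matrix.nonsing_inv_mul _ hu, one_mulVec]
        have h3 := congrFun h2 i
        exact h3.symm
      have h2 : ∀ j, |(h *ᵥ iR (x u)) j| ≤ max (r ^ (e + 1)) r * Real.exp ((κ * e + κ) * n) := by
        intro j
        have h3 := (hx1 u j).le
        have h4 : |(h *ᵥ iR (x u)) j| ≤ r * Real.exp (-(κ * w u j)) := by
          rw [Real.exp_neg, ← div_eq_mul_inv, le_div_iff₀ (Real.exp_pos _)]
          linarith
        refine h4.trans (mul_le_mul (le_max_right _ _) (Real.exp_le_exp.2 ?_)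
          (Real.exp_pos _).le (le_max_of_le_right hr0.le))
        have h5 := (abs_le.1 (hwn u j)).1
        have h6 : κ * -(w u j) ≤ κ * (e * n) := mul_le_mul_of_nonneg_left (by linarith) hκ0.le
        have h7 : 0 ≤ κ * (n : ℝ) := by positivity
        nlinarith
      rw [h1]
      refine (Finset.abs_sum_le_sum_abs _ _).trans ?_
      calc ∑ j, |h⁻¹ i j * (h *ᵥ iR (x u)) j|
          ≤ ∑ j, |h⁻¹ i j| * (max (r ^ (e + 1)) r * Real.exp ((κ * e + κ) * n)) := by
            refine Finset.sum_le_sum fun j _ => ?_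
            rw [abs_mul]
            exact mul_le_mul_of_nonneg_left (h2 j) (abs_nonneg _)
        _ = (∑ j, |h⁻¹ i j|) * (max (r ^ (e + 1)) r * Real.exp ((κ * e + κ) * n)) := by
            rw [Finset.sum_mul]
        _ ≤ _ := by
            refine mul_le_mul_of_nonneg_right ?_ (by positivity)
            exact Finset.single_le_sum (f := fun i => ∑ j, |h⁻¹ i j|)
              (fun i _ => Finset.sum_nonneg fun j _ => abs_nonneg _) (Finset.mem_univ i)

end Pool.Agent.T6.H49.CSD
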