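import Mathlib
import Pool.Agent.T6.H49.CSD.Classes

/-! # Incommensurable values, and the multiplicities of the values -/

set_option autoImplicit false

open MvPolynomial H715R2 Matrix

namespace Pool.Agent.T6.H49.CSD

variable {d e : ℕ}

/-- the sum of the absolute values of the entries -/
noncomputable def nrm (g : Matrix (Fin d) (Fin d) ℝ) : ℝ := ∑ i, ∑ j, |g i j|

lemma nrm_nonneg (g : Matrix (Fin d) (Fin d) ℝ) : 0 ≤ nrm g :=
  Finset.sum_nonneg fun _ _ => Finset.sum_nonneg fun _ _ => abs_nonneg _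

lemma nrm_inv_pos {g : Matrix (Fin (e + 1)) (Fin (e + 1)) ℝ} (hg : g.det ≠ 0) : 0 < nrm g⁻¹ := by
  rcases (nrm_nonneg g⁻¹).lt_or_eq with h | h
  · exact h
  · exfalso
    have h1 : ∀ i j, g⁻¹ i j = 0 := by
      intro i j
      have h2 := (Finset.sum_eq_zero_iff_of_nonneg
        (fun i _ => Finset.sum_nonneg fun j _ => abs_nonneg (g⁻¹ i j))).1 h.symm i
        (Finset.mem_univ i)
      have h3 := (Finset.sum_eq_zero_iff_of_nonneg
        (fun j _ => abs_nonneg (g⁻¹ i j))).1 h2 j (Finset.mem_univ j)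
      exact abs_eq_zero.1 h3
    have h2 : g⁻¹ = 0 := by
      ext i j
      exact h1 i j
    have h3 := Matrix.nonsing_inv_mul g (isUnit_iff_ne_zero.2 hg)
    rw [h2, Matrix.zero_mul] at h3
    have h4 := congrFun (congrFun h3 0) 0
    simp at h4

lemma log_bound {G H r κ : ℝ} (hG : 0 ≤ G) (hH : 0 ≤ H) (hr : 0 ≤ r) (hκ : 0 ≤ κ) (n : ℕ) :
    1 + Real.log (1 + G * (H * (r * Real.exp (κ * n)))) ≤
      (1 + Real.log (1 + G * (H * r))) + κ * n := by
  have h0 : 0 ≤ G * (H * r) := by positivity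
  have h1 : 1 + G * (H * (r * Real.exp (κ * n))) ≤ (1 + G * (H * r)) * Real.exp (κ * n) := by
    have : 1 ≤ Real.exp (κ * n) := Real.one_le_exp (by positivity)
    nlinarith
  have h2 : Real.log (1 + G * (H * (r * Real.exp (κ * n)))) ≤
      Real.log ((1 + G * (H * r)) * Real.exp (κ * n)) := by
    refine Real.log_le_log ?_ h1
    have : 0 ≤ G * (H * (r * Real.exp (κ * n))) := by positivity
    linarith
  rw [Real.log_mul (by positivity) (Real.exp_pos _).ne', Real.log_exp] at h2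
  linarith

lemma span_ne {a b : ℝ} (ha : a ≠ 0) (hb : b ≠ 0)
    (h : Submodule.span ℚ {a} ≠ Submodule.span ℚ {b}) : Irrational (a / b) := by
  rintro ⟨q, hq⟩
  apply h
  have hq0 : q ≠ 0 := by
    rintro rfl
    rw [Rat.cast_zero] at hq
    exact div_ne_zero ha hb hq.symm
  have h1 : a = q • b := by
    rw [Rat.smul_def, hq]
    field_simp
  rw [h1]
  exact Submodule.span_singleton_smul_eq (isUnit_iff_ne_zero.2 hq0) b

/-- **Many incommensurable values.** -/
theorem many_classes (he : 0 < e) {V ν : ℝ} (hV : 0 < V) (hν : 0 < ν)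
    {Y : Set (Matrix (Fin (e + 1)) (Fin (e + 1)) ℝ)} (hYc : IsClosed Y) (hYinv : H715R2.Inv Y)
    (hYdet : ∀ h ∈ Y, |h.det| = V) (hYnu : ∀ h ∈ Y, HasNu h ν) {U : Set ℝ} (hUo : IsOpen U)
    (hU : ∀ h ∈ Y, ∃ m : Fin (e + 1) → ℤ, m ≠ 0 ∧ FF h (iR m) ∈ U) :
    ∃ c : ℝ, 0 < c ∧ ∀ h ∈ Y, ¬ PropInt h → ∃ X₀ : ℝ, ∀ X : ℝ, X₀ ≤ X →
      ∃ S : Finset (Fin (e + 1) → ℤ),
        (∀ x ∈ S, x ≠ 0 ∧ (∀ i, |(x i : ℝ)| ≤ X) ∧ FF h (iR x) ∈ U) ∧
        (∀ x ∈ S, ∀ x' ∈ S, x ≠ x' → Irrational (FF h (iR x) / FF h (iR x'))) ∧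
        c * Real.log X ≤ S.card := by
  classical
  obtain ⟨r, κ, hr0, hκ0, hpts⟩ := many_points e hV hν hYc hYinv hYdet hYnu hUo hU
  obtain ⟨C, hC0, hC⟩ := count_subspace e hν hr0
  set C' : ℝ := C * (1 + κ) ^ (e - 1) + 1 with hC'
  have hC'0 : 0 < C' := by positivity
  refine ⟨1 / (2 * κ * C'), by positivity, fun h hh hint => ?_⟩
  have hdet0 : h.det ≠ 0 := by
    intro h0
    have := hYdet _ hh
    rw [h0, abs_zero] at this
    exact hV.ne this
  set G : ℝ := nrm h with hG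
  set H : ℝ := nrm h⁻¹ with hH
  have hG0 : 0 ≤ G := nrm_nonneg h
  have hH0 : 0 < H := nrm_inv_pos hdet0
  set A : ℝ := 1 + Real.log (1 + G * (H * r)) with hA
  have hA1 : 1 ≤ A := by
    have : 0 ≤ Real.log (1 + G * (H * r)) := Real.log_nonneg (by
      have : 0 ≤ G * (H * r) := by positivity
      linarith)
    linarith
  refine ⟨Real.exp (2 * |Real.log (H * r)| + κ * (A + 1) + 1), fun X hX => ?_⟩
  have hX0 : 0 < X := (Real.exp_pos _).trans_le hX
  have hlX : 2 * |Real.log (H * r)| + κ * (A + 1) + 1 ≤ Real.log X := by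
    rw [← Real.log_exp (2 * |Real.log (H * r)| + κ * (A + 1) + 1)]
    exact Real.log_le_log (Real.exp_pos _) hX
  have hHr : 0 < H * r := mul_pos hH0 hr0
  have hab := le_abs_self (Real.log (H * r))
  have habn := abs_nonneg (Real.log (H * r))
  have hκA : 0 ≤ κ * (A + 1) := by positivity
  set n : ℕ := ⌊(Real.log X - Real.log (H * r)) / κ⌋₊ with hn
  have hnn : 0 ≤ (Real.log X - Real.log (H * r)) / κ := div_nonneg (by linarith) hκ0.le
  have hn1 : (n : ℝ) ≤ (Real.log X - Real.log (H * r)) / κ := Nat.floor_le hnn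
  have hn2 : (Real.log X - Real.log (H * r)) / κ < n + 1 := Nat.lt_floor_add_one _
  have hnA : A ≤ n := by
    have h1 : A + 1 ≤ (Real.log X - Real.log (H * r)) / κ := by
      rw [le_div_iff₀ hκ0]
      linarith
    linarith
  have hnX : H * (r * Real.exp (κ * n)) ≤ X := by
    rw [le_div_iff₀ hκ0] at hn1
    have h1 : Real.exp (κ * n) ≤ Real.exp (Real.log X - Real.log (H * r)) :=
      Real.exp_le_exp.2 (by linarith)
    rw [Real.exp_sub, Real.exp_log hX0, Real.exp_log hHr, le_div_iff₀ hHr] at h1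
    linarith
  obtain ⟨S, hScard, hS⟩ := hpts h hh n
  let φ : (Fin (e + 1) → ℤ) → Submodule ℚ ℝ := fun x => Submodule.span ℚ {FF h (iR x)}
  obtain ⟨R, hRS, hRinj, hRim⟩ := Finset.exists_subset_injOn_image_eq_of_surjOn
    (f := φ) (s := (S : Set (Fin (e + 1) → ℤ))) (S.image φ) (by
      intro W hW
      obtain ⟨x, hx, rfl⟩ := Finset.mem_image.1 (Finset.mem_coe.1 hW)
      exact ⟨x, hx, rfl⟩)
  have hne : ∀ x ∈ S, FF h (iR x) ≠ 0 := by
    intro x hx h0
    have h1 := hYnu h hh x (hS x hx).1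
    rw [h0, abs_zero] at h1
    linarith
  refine ⟨R, fun x hx => ?_, fun x hx x' hx' hxx => ?_, ?_⟩
  · have hx := Finset.mem_coe.1 (hRS hx)
    exact ⟨(hS x hx).1, fun i => ((hS x hx).2.2.2 i).trans hnX, (hS x hx).2.2.1⟩
  · refine span_ne (hne x (hRS hx)) (hne x' (hRS hx')) fun h1 => hxx ?_
    exact hRinj hx hx' h1
  · -- every class is small
    have hfib : ∀ W ∈ S.image φ, (({x ∈ S | φ x = W} : Finset _).card : ℝ) ≤
        C * (A + κ * n) ^ (e - 1) := by
      intro W hW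
      obtain ⟨x', hx', rfl⟩ := Finset.mem_image.1 hW
      have h1 := hC h hdet0 (hYnu h hh) (φ x') (exists_coeff_notMem hdet0 hint _)
        (H * (r * Real.exp (κ * n))) (by positivity) {x ∈ S | φ x = φ x'} (fun x hx => by
          obtain ⟨hxS, hxφ⟩ := Finset.mem_filter.1 hx
          refine ⟨(hS x hxS).1, (hS x hxS).2.2.2, (hS x hxS).2.1, ?_⟩
          rw [← hxφ]
          exact Submodule.mem_span_singleton_self _)
      refine h1.trans (mul_le_mul_of_nonneg_left ?_ hC0)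
      refine pow_le_pow_left₀ ?_ (log_bound hG0 hH0.le hr0.le hκ0.le n) _
      have : 0 ≤ Real.log (1 + G * (H * (r * Real.exp (κ * n)))) := Real.log_nonneg (by
        have : 0 ≤ G * (H * (r * Real.exp (κ * n))) := by positivity
        linarith)
      show 0 ≤ 1 + Real.log (1 + G * (H * (r * Real.exp (κ * n))))
      linarith
    have hRcard : R.card = (S.image φ).card := by
      rw [← hRim, Finset.card_image_of_injOn hRinj]
    have h2 : (S.card : ℝ) ≤ R.card * (C * (A + κ * n) ^ (e - 1)) := by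
      rw [Finset.card_eq_sum_card_image φ S, hRcard]
      push_cast
      refine (Finset.sum_le_sum hfib).trans (le_of_eq ?_)
      rw [Finset.sum_const, nsmul_eq_mul]
    rw [hScard] at h2
    have h3 : A + κ * n ≤ (1 + κ) * (n + 1) := by nlinarith
    have h4 : (A + κ * n) ^ (e - 1) ≤ ((1 + κ) * (n + 1)) ^ (e - 1) :=
      pow_le_pow_left₀ (by positivity) h3 _
    have h5 : (((n + 1) ^ e : ℕ) : ℝ) ≤ R.card * (C * ((1 + κ) ^ (e - 1) * (n + 1) ^ (e - 1))) := by
      refine h2.trans (mul_le_mul_of_nonneg_left (mul_le_mul_of_nonneg_left ?_ hC0)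
        (Nat.cast_nonneg _))
      rw [← mul_pow]
      exact h4
    have h6 : (((n + 1) ^ e : ℕ) : ℝ) = ((n : ℝ) + 1) * (n + 1) ^ (e - 1) := by
      push_cast
      rw [← pow_succ']
      congr 1
      omega
    rw [h6] at h5
    have hnp : (0 : ℝ) < (n + 1) ^ (e - 1) := by positivity
    have h7 : ((n : ℝ) + 1) ≤ R.card * (C * (1 + κ) ^ (e - 1)) := by
      have h8 : ((n : ℝ) + 1) * (n + 1) ^ (e - 1) ≤
          (R.card * (C * (1 + κ) ^ (e - 1))) * (n + 1) ^ (e - 1) := by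
        refine h5.trans (le_of_eq ?_)
        ring
      exact le_of_mul_le_mul_right h8 hnp
    have h8 : ((n : ℝ) + 1) ≤ R.card * C' := by
      refine h7.trans (mul_le_mul_of_nonneg_left ?_ (Nat.cast_nonneg _))
      rw [hC']
      linarith
    have h9 : Real.log X / 2 ≤ κ * (n + 1) := by
      rw [div_lt_iff₀ hκ0] at hn2
      linarith
    rw [one_div, inv_mul_le_iff₀ (by positivity)]
    have h10 := mul_le_mul_of_nonneg_left h8 hκ0.le
    linarith

end Pool.Agent.T6.H49.CSD
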