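import Mathlib
import Pool.Agent.T6.H49.CSD.Main

/-! # The multiplicities of the values -/

set_option autoImplicit false

open MvPolynomial H715R2 Matrix

namespace Pool.Agent.T6.H49.CSD

variable {d e : ℕ}

lemma finite_box (X : ℝ) : {x : Fin d → ℤ | ∀ i, |(x i : ℝ)| ≤ X}.Finite := by
  have h1 : (Set.univ.pi fun _ : Fin d => Set.Icc (-⌈X⌉) ⌈X⌉ : Set (Fin d → ℤ)).Finite :=
    Set.Finite.pi fun _ => Set.finite_Icc _ _
  refine h1.subset fun x hx i _ => ?_
  have h2 := hx i
  have h3 := Int.le_ceil X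
  have h4 : |x i| ≤ ⌈X⌉ := by
    have : ((|x i| : ℤ) : ℝ) ≤ (⌈X⌉ : ℝ) := by
      push_cast
      exact h2.trans h3
    exact_mod_cast this
  exact Set.mem_Icc.2 (abs_le.1 h4)

/-- the points of norm at most `X` with value `v` -/
def level (g : Matrix (Fin d) (Fin d) ℝ) (v X : ℝ) : Set (Fin d → ℤ) :=
  {x | (∀ i, |(x i : ℝ)| ≤ X) ∧ FF g (iR x) = v}

lemma finite_level (g : Matrix (Fin d) (Fin d) ℝ) (v X : ℝ) : (level g v X).Finite :=
  (finite_box X).subset fun _ hx => hx.1

lemma FF_zero {e : ℕ} (g : Matrix (Fin (e + 1)) (Fin (e + 1)) ℝ) :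
    FF g (iR (0 : Fin (e + 1) → ℤ)) = 0 := by
  have h2 : iR (0 : Fin (e + 1) → ℤ) = 0 := by
    funext i
    simp [iR]
  rw [FF_eq, h2, mulVec_zero]
  exact Finset.prod_eq_zero (Finset.mem_univ 0) rfl

/-- the values of a form which is not proportional to an integral form -/
lemma level_bound {g : Matrix (Fin (e + 1)) (Fin (e + 1)) ℝ} (hg : g.det ≠ 0) {ν : ℝ}
    (hν : 0 < ν) (hnu : HasNu g ν) (hint : ¬ PropInt g) (v : ℝ) :
    ∃ C : ℝ, ∀ X : ℝ, 2 ≤ X → ((level g v X).ncard : ℝ) ≤ C * Real.log X ^ (e - 1) := by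
  classical
  obtain ⟨C, hC0, hC⟩ := count_subspace e hν (T := |v| + 1) (by positivity)
  set G : ℝ := nrm g with hG
  have hG0 : 0 ≤ G := nrm_nonneg g
  have hl2 : 0 < Real.log 2 := Real.log_pos (by norm_num)
  have hl0 : 0 ≤ Real.log (1 + G) := Real.log_nonneg (by linarith)
  set A : ℝ := (1 + Real.log (1 + G)) / Real.log 2 + 1 with hA
  have hA0 : 0 ≤ A := by positivity
  refine ⟨C * A ^ (e - 1) + 1 / Real.log 2 ^ (e - 1), fun X hX => ?_⟩
  have hX0 : 0 < X := by linarith
  have hlX : Real.log 2 ≤ Real.log X := Real.log_le_log (by norm_num) hX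
  have hlX0 : 0 < Real.log X := hl2.trans_le hlX
  have hcard : (level g v X).ncard = ((finite_level g v X).toFinset).card :=
    Set.ncard_eq_toFinset_card _ _
  have hsplit : ((finite_level g v X).toFinset).card ≤
      ((finite_level g v X).toFinset.erase 0).card + 1 := by
    have := Finset.pred_card_le_card_erase (s := (finite_level g v X).toFinset)
      (a := (0 : Fin (e + 1) → ℤ))
    omega
  have h1 := hC g hg hnu _ (exists_coeff_notMem hg hint v) X hX0.le
    ((finite_level g v X).toFinset.erase 0) (fun x hx => by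
      obtain ⟨hx0, hxS⟩ := Finset.mem_erase.1 hx
      obtain ⟨hxX, hxv⟩ := (Set.Finite.mem_toFinset _).1 hxS
      refine ⟨hx0, hxX, ?_, ?_⟩
      · rw [hxv]; linarith
      · rw [hxv]; exact Submodule.mem_span_singleton_self _)
  have h2 : 1 + Real.log (1 + G * X) ≤ A * Real.log X := by
    have h3 : 1 + G * X ≤ (1 + G) * X := by nlinarith
    have h4 : Real.log (1 + G * X) ≤ Real.log (1 + G) + Real.log X := by
      rw [← Real.log_mul (by positivity) hX0.ne']
      exact Real.log_le_log (by positivity) h3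
    have h5 : 1 + Real.log (1 + G) ≤ (1 + Real.log (1 + G)) / Real.log 2 * Real.log X := by
      rw [div_mul_eq_mul_div, le_div_iff₀ hl2]
      exact mul_le_mul_of_nonneg_left hlX (by positivity)
    rw [hA]
    linarith
  have h3 : 0 ≤ 1 + Real.log (1 + G * X) := by
    have : 0 ≤ Real.log (1 + G * X) := Real.log_nonneg (by
      have : 0 ≤ G * X := by positivity
      linarith)
    linarith
  have h4 : (1 + Real.log (1 + G * X)) ^ (e - 1) ≤ A ^ (e - 1) * Real.log X ^ (e - 1) := by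
    rw [← mul_pow]
    exact pow_le_pow_left₀ h3 h2 _
  have h5 : 1 ≤ 1 / Real.log 2 ^ (e - 1) * Real.log X ^ (e - 1) := by
    rw [one_div, ← div_eq_inv_mul, le_div_iff₀ (pow_pos hl2 _), one_mul]
    exact pow_le_pow_left₀ hl2.le hlX _
  have h6 : ((level g v X).ncard : ℝ) ≤
      (((finite_level g v X).toFinset.erase 0).card : ℝ) + 1 := by
    rw [hcard]
    exact_mod_cast hsplit
  have h7 : C * (1 + Real.log (1 + G * X)) ^ (e - 1) ≤ C * (A ^ (e - 1) * Real.log X ^ (e - 1)) :=
    mul_le_mul_of_nonneg_left h4 hC0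
  have h8 : (((finite_level g v X).toFinset.erase 0).card : ℝ) ≤
      C * (1 + Real.log (1 + G * X)) ^ (e - 1) := h1
  linarith

/-- the values of a form proportional to an integral form are discrete -/
lemma finite_values {g : Matrix (Fin d) (Fin d) ℝ} (hint : PropInt g) (r : ℝ) :
    {v : ℝ | |v| < r ∧ ∃ x : Fin d → ℤ, FF g (iR x) = v}.Finite := by
  obtain ⟨c, hc, hz⟩ := hint
  choose z hz using hz
  have h1 : ∀ x : Fin d → ℤ, ∃ n : ℤ, c * FF g (iR x) = n := by
    intro x
    have h2 : c * FF g (iR x) = eval (iR x) (c • polyF g) := by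
      rw [smul_eval, eval_polyF]
      rfl
    refine ⟨∑ m ∈ (c • polyF g).support, z m * ∏ i, x i ^ m i, ?_⟩
    rw [h2, eval_eq']
    push_cast
    refine Finset.sum_congr rfl fun m _ => ?_
    rw [hz]
    simp [iR]
  have h2 : (Set.Icc (-⌈|c| * r⌉) ⌈|c| * r⌉ : Set ℤ).Finite := Set.finite_Icc _ _
  refine (h2.image fun n : ℤ => (n : ℝ) / c).subset ?_
  rintro v ⟨hv, x, rfl⟩
  obtain ⟨n, hn⟩ := h1 x
  refine ⟨n, ?_, ?_⟩
  · have h3 : |(n : ℝ)| ≤ |c| * r := by
      rw [← hn, abs_mul]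
      exact mul_le_mul_of_nonneg_left hv.le (abs_nonneg _)
    have h4 : |n| ≤ ⌈|c| * r⌉ := by
      have : ((|n| : ℤ) : ℝ) ≤ (⌈|c| * r⌉ : ℝ) := by
        push_cast
        exact h3.trans (Int.le_ceil _)
      exact_mod_cast this
    exact Set.mem_Icc.2 (abs_le.1 h4)
  · simp only
    rw [← hn]
    field_simp

/-- one of the values of a form proportional to an integral form is taken often -/
lemma exists_often (he : 0 < e) {g : Matrix (Fin (e + 1)) (Fin (e + 1)) ℝ} (hg : g.det ≠ 0)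
    {ν : ℝ} (hν : 0 < ν) (hnu : HasNu g ν) (hint : PropInt g) :
    ∃ v : ℝ, ¬ ∃ C : ℝ, ∀ X : ℝ, 2 ≤ X →
      ((level g v X).ncard : ℝ) ≤ C * Real.log X ^ (e - 1) := by
  classical
  by_contra hcon
  push Not at hcon
  set Y : Set (Matrix (Fin (e + 1)) (Fin (e + 1)) ℝ) := {h | |h.det| = |g.det| ∧ HasNu h ν} with hY
  have hYc : IsClosed Y := by
    refine IsClosed.inter ?_ ?_
    · exact isClosed_eq (continuous_abs.comp continuous_det') continuous_const
    · have h1 : {h : Matrix (Fin (e + 1)) (Fin (e + 1)) ℝ | HasNu h ν} =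
          ⋂ (m : Fin (e + 1) → ℤ) (_ : m ≠ 0), {h | ν ≤ |FF h (iR m)|} := by
        ext h
        simp [HasNu]
      show IsClosed {h : Matrix (Fin (e + 1)) (Fin (e + 1)) ℝ | HasNu h ν}
      rw [h1]
      exact isClosed_iInter fun m => isClosed_iInter fun _ =>
        isClosed_le continuous_const (continuous_abs.comp (continuous_FF _))
  have hYinv : H715R2.Inv Y := by
    intro h hh a γ ha0 ha1 hγ
    have hmem : Matrix.diagonal a * h * zR γ ∈ Orb h := ⟨a, γ, ha0, ha1, hγ, rfl⟩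
    exact ⟨by rw [abs_det_orb hmem]; exact hh.1,
      hasNu_closure hh.2 (subset_closure hmem)⟩
  obtain ⟨r, κ, hr0, hκ0, hpts⟩ := many_points e (abs_pos.2 hg) hν hYc hYinv (fun h hh => hh.1)
    (fun h hh => hh.2) (U := Set.univ) isOpen_univ (fun h _ => ⟨Pi.single 0 1, by
      intro h0
      have := congrFun h0 0
      simp at this, Set.mem_univ _⟩)
  choose C hC using hcon
  have hfin := finite_values hint r
  set F := hfin.toFinset with hF
  set K : ℝ := ∑ v ∈ F, |C v| with hK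
  have hK0 : 0 ≤ K := Finset.sum_nonneg fun _ _ => abs_nonneg _
  set H : ℝ := nrm g⁻¹ with hH
  have hH0 : 0 < H := nrm_inv_pos hg
  set A : ℝ := |Real.log (2 + H * r)| with hA
  have hA0 : 0 ≤ A := abs_nonneg _
  have hlog : ∀ n : ℕ, 2 ≤ (2 + H * r) * Real.exp (κ * n) := by
    intro n
    have h1 : 1 ≤ Real.exp (κ * n) := Real.one_le_exp (by positivity)
    have h2 : 0 < H * r := mul_pos hH0 hr0
    nlinarith
  have hbig : ∀ n : ℕ, ((n : ℝ) + 1) ^ e ≤ K * (A + κ * n) ^ (e - 1) := by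
    intro n
    obtain ⟨S, hScard, hS⟩ := hpts g ⟨rfl, hnu⟩ n
    set X : ℝ := (2 + H * r) * Real.exp (κ * n) with hX
    have hX2 : 2 ≤ X := hlog n
    have hlX : Real.log X ≤ A + κ * n := by
      rw [hX, Real.log_mul (by positivity) (Real.exp_pos _).ne', Real.log_exp]
      have := le_abs_self (Real.log (2 + H * r))
      linarith
    have hlX0 : 0 ≤ Real.log X := Real.log_nonneg (by linarith)
    have h1 : S ⊆ F.biUnion fun v => (finite_level g v X).toFinset := by
      intro x hx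
      rw [Finset.mem_biUnion]
      refine ⟨FF g (iR x), ?_, ?_⟩
      · rw [hF, Set.Finite.mem_toFinset]
        exact ⟨(hS x hx).2.1, x, rfl⟩
      · rw [Set.Finite.mem_toFinset]
        refine ⟨fun i => ((hS x hx).2.2.2 i).trans ?_, rfl⟩
        have h3 : 0 < Real.exp (κ * n) := Real.exp_pos _
        have h4 : (∑ i, ∑ j, |g⁻¹ i j|) = H := rfl
        rw [h4, hX]
        nlinarith
    have h2 : (S.card : ℝ) ≤ ∑ v ∈ F, ((level g v X).ncard : ℝ) := by
      have h3 := (Finset.card_le_card h1).trans Finset.card_biUnion_le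
      have h4 : ∀ v, ((finite_level g v X).toFinset).card = (level g v X).ncard := fun v =>
        (Set.ncard_eq_toFinset_card _ _).symm
      simp only [h4] at h3
      exact_mod_cast h3
    rw [hScard] at h2
    push_cast at h2
    refine h2.trans ?_
    rw [hK, Finset.sum_mul]
    refine Finset.sum_le_sum fun v _ => (hC v X hX2).trans ?_
    refine mul_le_mul (le_abs_self _) (pow_le_pow_left₀ hlX0 hlX _) (pow_nonneg hlX0 _)
      (abs_nonneg _)
  obtain ⟨n, hn⟩ := exists_nat_gt (K * (A + κ) ^ (e - 1))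
  have h1 := hbig n
  have h2 : A + κ * n ≤ (A + κ) * (n + 1) := by
    have : 0 ≤ (n : ℝ) := Nat.cast_nonneg n
    nlinarith
  have h3 : (A + κ * n) ^ (e - 1) ≤ ((A + κ) * (n + 1)) ^ (e - 1) :=
    pow_le_pow_left₀ (by positivity) h2 _
  have h4 : ((n : ℝ) + 1) ^ e = (n + 1) * (n + 1) ^ (e - 1) := by
    rw [← pow_succ']
    congr 1
    omega
  rw [mul_pow] at h3
  have h5 : ((n : ℝ) + 1) * (n + 1) ^ (e - 1) ≤
      (K * (A + κ) ^ (e - 1)) * (n + 1) ^ (e - 1) := by
    rw [← h4]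
    refine (h1.trans (mul_le_mul_of_nonneg_left h3 hK0)).trans (le_of_eq ?_)
    ring
  have h6 := le_of_mul_le_mul_right h5 (by positivity)
  linarith

/-- **The multiplicities decide.** -/
theorem propInt_iff_often (he : 0 < e) {g : Matrix (Fin (e + 1)) (Fin (e + 1)) ℝ}
    (hg : g.det ≠ 0) {ν : ℝ} (hν : 0 < ν) (hnu : HasNu g ν) :
    PropInt g ↔ ∃ v : ℝ, ¬ ∃ C : ℝ, ∀ X : ℝ, 2 ≤ X →
      ((level g v X).ncard : ℝ) ≤ C * Real.log X ^ (e - 1) := by
  constructor
  · exact exists_often he hg hν hnu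
  · rintro ⟨v, hv⟩
    by_contra hint
    exact hv (level_bound hg hν hnu hint v)

end Pool.Agent.T6.H49.CSD
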