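import Mathlib
import Pool.Agent.T6.H49.CSD.Mult

/-! # The values of a counterexample do not concentrate -/

set_option autoImplicit false

open MvPolynomial H715R2 Matrix Filter Topology

namespace Pool.Agent.T6.H49.CSD

variable {d e : ℕ}

/-- the number of common values on a compact family: a quantitative form of `count_subspace` -/
lemma local_bound {𝒦 : Set (Matrix (Fin d) (Fin d) ℝ)} (hK : IsCompact 𝒦) {T : ℝ}
    (B : Finset (Fin d → ℤ)) (k : ℕ)
    (hk : ∀ h ∈ 𝒦, ∀ v : ℝ, ∀ S ⊆ B, (∀ x ∈ S, |FF h (iR x)| ≤ T ∧ FF h (iR x) = v) →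
      S.card ≤ k) :
    ∃ δ : ℝ, 0 < δ ∧ ∀ h ∈ 𝒦, ∀ v : ℝ, ∀ S ⊆ B,
      (∀ x ∈ S, |FF h (iR x)| ≤ T ∧ |FF h (iR x) - v| < δ) → S.card ≤ k := by
  classical
  have hloc : ∀ S : Finset (Fin d → ℤ), S ⊆ B → ∃ δ : ℝ, 0 < δ ∧ ∀ h ∈ 𝒦, ∀ v : ℝ,
      (∀ x ∈ S, |FF h (iR x)| ≤ T ∧ |FF h (iR x) - v| < δ) → S.card ≤ k := by
    intro S hSB
    set Z : Set (Matrix (Fin d) (Fin d) ℝ) := 𝒦 ∩ {h | ∀ x ∈ S, |FF h (iR x)| ≤ T} with hZ
    have hZc : IsCompact Z := by
      refine hK.inter_right ?_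
      have h1 : {h : Matrix (Fin d) (Fin d) ℝ | ∀ x ∈ S, |FF h (iR x)| ≤ T} =
          ⋂ x ∈ S, {h | |FF h (iR x)| ≤ T} := by
        ext h
        simp
      rw [h1]
      exact isClosed_biInter fun x _ =>
        isClosed_le (continuous_abs.comp (continuous_FF _)) continuous_const
    by_cases hZe : Z.Nonempty
    · set D : Matrix (Fin d) (Fin d) ℝ → ℝ := fun h =>
        ∑ x ∈ S, ∑ y ∈ S, |FF h (iR x) - FF h (iR y)| with hD
      have hDc : Continuous D := by
        refine continuous_finsetSum _ fun x _ => continuous_finsetSum _ fun y _ => ?_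
        exact continuous_abs.comp ((continuous_FF _).sub (continuous_FF _))
      have hD0 : ∀ h, 0 ≤ D h := fun h =>
        Finset.sum_nonneg fun x _ => Finset.sum_nonneg fun y _ => abs_nonneg _
      obtain ⟨h₀, hh₀, hmin⟩ := hZc.exists_isMinOn hZe hDc.continuousOn
      rcases (hD0 h₀).lt_or_eq with hpos | hzero
      · refine ⟨D h₀ / (2 * (S.card : ℝ) ^ 2 + 1), by positivity, fun h hh v hv => ?_⟩
        exfalso
        have h1 : D h₀ ≤ D h := hmin ⟨hh, fun x hx => (hv x hx).1⟩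
        set δ := D h₀ / (2 * (S.card : ℝ) ^ 2 + 1) with hδ
        have h2 : D h ≤ ∑ x ∈ S, ∑ y ∈ S, 2 * δ := by
          refine Finset.sum_le_sum fun x hx => Finset.sum_le_sum fun y hy => ?_
          have h3 := (hv x hx).2
          have h4 := (hv y hy).2
          have h5 : FF h (iR x) - FF h (iR y) = (FF h (iR x) - v) - (FF h (iR y) - v) := by ring
          rw [h5]
          refine (abs_sub _ _).trans ?_
          linarith
        have h3 : ∑ x ∈ S, ∑ y ∈ S, 2 * δ = 2 * (S.card : ℝ) ^ 2 * δ := by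
          rw [Finset.sum_const, Finset.sum_const, nsmul_eq_mul, nsmul_eq_mul]
          ring
        rw [h3] at h2
        have h4 : (2 * (S.card : ℝ) ^ 2 + 1) * δ = D h₀ := by
          rw [hδ]
          field_simp
        have h5 : 0 < δ := div_pos hpos (by positivity)
        nlinarith
      · refine ⟨1, one_pos, fun h _ v _ => ?_⟩
        by_cases hSe : S.Nonempty
        · obtain ⟨x₀, hx₀⟩ := hSe
          refine hk h₀ hh₀.1 (FF h₀ (iR x₀)) S hSB fun x hx => ⟨hh₀.2 x hx, ?_⟩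
          have h1 := (Finset.sum_eq_zero_iff_of_nonneg (fun x _ =>
            Finset.sum_nonneg fun y _ => abs_nonneg (FF h₀ (iR x) - FF h₀ (iR y)))).1
            hzero.symm x hx
          have h2 := (Finset.sum_eq_zero_iff_of_nonneg (fun y _ =>
            abs_nonneg (FF h₀ (iR x) - FF h₀ (iR y)))).1 h1 x₀ hx₀
          exact sub_eq_zero.1 (abs_eq_zero.1 h2)
        · rw [Finset.not_nonempty_iff_eq_empty.1 hSe]
          simp
    · refine ⟨1, one_pos, fun h hh v hv => ?_⟩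
      exact absurd ⟨h, hh, fun x hx => (hv x hx).1⟩ hZe
  choose! δ hδ0 hδ using hloc
  obtain ⟨S₀, hS₀, hmin⟩ := Finset.exists_min_image B.powerset δ ⟨∅, Finset.empty_mem_powerset B⟩
  refine ⟨δ S₀, hδ0 S₀ (Finset.mem_powerset.1 hS₀), fun h hh v S hS hv => ?_⟩
  exact hδ S hS h hh v fun x hx =>
    ⟨(hv x hx).1, (hv x hx).2.trans_le (hmin S (Finset.mem_powerset.2 hS))⟩

lemma nrm_le {R : ℝ} {h : Matrix (Fin d) (Fin d) ℝ} (hh : ∀ i j, |h i j| ≤ R) :
    nrm h ≤ (d : ℝ) ^ 2 * R := by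
  unfold nrm
  calc ∑ i, ∑ j, |h i j| ≤ ∑ _i : Fin d, ∑ _j : Fin d, R :=
        Finset.sum_le_sum fun i _ => Finset.sum_le_sum fun j _ => hh i j
    _ = _ := by
        rw [Finset.sum_const, Finset.sum_const, Finset.card_univ, Fintype.card_fin, nsmul_eq_mul,
          nsmul_eq_mul]
        ring

/-- bounded inverses on a compact set -/
lemma exists_inv_bound {𝒦 : Set (Matrix (Fin d) (Fin d) ℝ)} (hK : IsCompact 𝒦) {V : ℝ}
    (hdet : ∀ h ∈ 𝒦, |h.det| = V) : ∃ R : ℝ, 0 ≤ R ∧ ∀ h ∈ 𝒦, nrm h⁻¹ ≤ R := by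
  have hc : Continuous fun h : Matrix (Fin d) (Fin d) ℝ => nrm h.adjugate := by
    unfold nrm
    refine continuous_finsetSum _ fun i _ => continuous_finsetSum _ fun j _ => ?_
    exact continuous_abs.comp ((Continuous.matrix_adjugate continuous_id).matrix_elem i j)
  obtain ⟨B, hB⟩ := (hK.image hc).bddAbove
  refine ⟨|V⁻¹| * |B|, by positivity, fun h hh => ?_⟩
  have h1 : nrm h.adjugate ≤ B := hB (Set.mem_image_of_mem _ hh)
  have h2 : nrm h⁻¹ = |h.det|⁻¹ * nrm h.adjugate := by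
    unfold nrm
    rw [Finset.mul_sum]
    refine Finset.sum_congr rfl fun i _ => ?_
    rw [Finset.mul_sum]
    refine Finset.sum_congr rfl fun j _ => ?_
    rw [Matrix.inv_def, Matrix.smul_apply, smul_eq_mul, abs_mul, Ring.inverse_eq_inv', abs_inv]
  rw [h2, hdet h hh]
  exact mul_le_mul (le_abs_self _) (h1.trans (le_abs_self _)) (nrm_nonneg _) (abs_nonneg _)

end Pool.Agent.T6.H49.CSD
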