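import Mathlib
import Pool.Agent.T6.H49.CSD.Atoms

/-! # The values of a counterexample do not concentrate: large scales -/

set_option autoImplicit false

open MvPolynomial H715R2 Matrix Filter Topology

namespace Pool.Agent.T6.H49.CSD

variable {d e : ℕ}

lemma add_pow_le' {A B : ℝ} (hA : 0 ≤ A) (hB : 0 ≤ B) (n : ℕ) :
    (A + B) ^ n ≤ 2 ^ n * (A ^ n + B ^ n) := by
  rcases le_total A B with h | h
  · calc (A + B) ^ n ≤ (2 * B) ^ n := pow_le_pow_left₀ (by linarith) (by linarith) _
      _ = 2 ^ n * B ^ n := mul_pow _ _ _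
      _ ≤ _ := by
        have := pow_nonneg hA n
        have h2 : (0 : ℝ) ≤ 2 ^ n := by positivity
        nlinarith
  · calc (A + B) ^ n ≤ (2 * A) ^ n := pow_le_pow_left₀ (by linarith) (by linarith) _
      _ = 2 ^ n * A ^ n := mul_pow _ _ _
      _ ≤ _ := by
        have := pow_nonneg hB n
        have h2 : (0 : ℝ) ≤ 2 ^ n := by positivity
        nlinarith

/-- **No atoms.** In a closed invariant family of forms which are bounded away from zero and not
proportional to integral forms the values do not concentrate. -/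
theorem no_atoms (he : 0 < e) {V ν T : ℝ} (hV : 0 < V) (hν : 0 < ν) (hT : 0 < T)
    {Y : Set (Matrix (Fin (e + 1)) (Fin (e + 1)) ℝ)} (hYc : IsClosed Y) (hYinv : H715R2.Inv Y)
    (hYdet : ∀ h ∈ Y, |h.det| = V) (hYnu : ∀ h ∈ Y, HasNu h ν) (hYint : ∀ h ∈ Y, ¬ PropInt h)
    {ε : ℝ} (hε : 0 < ε) : ∃ δ C : ℝ, 0 < δ ∧ ∀ g ∈ Y, ∀ X : ℝ, 0 ≤ X → ∀ v : ℝ,
      ∀ S : Finset (Fin (e + 1) → ℤ), (∀ x ∈ S, x ≠ 0 ∧ (∀ i, |(x i : ℝ)| ≤ X) ∧
        |FF g (iR x)| < T ∧ |FF g (iR x) - v| < δ) →
      (S.card : ℝ) ≤ ε * Real.log (1 + nrm g * X) ^ e + C := by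
  classical
  obtain ⟨C, hC0, hC⟩ := count_subspace e hν (T := T + 1) (by linarith)
  obtain ⟨R, hR⟩ := exists_bound (Nat.succ_pos e) V ν hV hν
  set 𝒦 : Set (Matrix (Fin (e + 1)) (Fin (e + 1)) ℝ) := {h | ∀ i j, |h i j| ≤ R} ∩ Y with h𝒦
  have hcpt : IsCompact 𝒦 := (isCompact_box R).inter_right hYc
  obtain ⟨R2, hR20, hR2⟩ := exists_inv_bound hcpt (fun h hh => hYdet h hh.2)
  have hne0 : ∀ h ∈ Y, h.det ≠ 0 := by
    intro h hh h0
    have := hYdet _ hh
    rw [h0, abs_zero] at this
    exact hV.ne this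
  set M : ℝ := |Real.log ν| + |Real.log T| with hM
  have hM0 : 0 ≤ M := by positivity
  set G1 : ℝ := ((e + 1 : ℕ) : ℝ) ^ 2 * |R| with hG1
  have hG10 : 0 ≤ G1 := by positivity
  set C2 : ℝ := 1 + Real.log (1 + G1 * (R2 * Real.exp M)) with hC2
  have hC20 : 0 ≤ C2 := by
    have : 0 ≤ Real.log (1 + G1 * (R2 * Real.exp M)) := Real.log_nonneg (by
      have : 0 ≤ G1 * (R2 * Real.exp M) := by positivity
      linarith)
    linarith
  set C5 : ℝ := 2 ^ e * (2 * (e + 1)) ^ e * C * (C2 + e) ^ (e - 1) with hC5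
  have hC50 : 0 ≤ C5 := by positivity
  -- the side of the cubes
  set lam : ℝ := C5 / ε + 1 with hlam
  have hlam1 : 1 ≤ lam := by
    have : 0 ≤ C5 / ε := by positivity
    linarith
  have hlam0 : 0 < lam := by linarith
  set XL : ℝ := R2 * Real.exp (M + e * lam) with hXL
  have hXL0 : 0 ≤ XL := by positivity
  set KL : ℝ := C * (1 + Real.log (1 + G1 * XL)) ^ (e - 1) with hKL
  have hKL0 : 0 ≤ KL := by
    have : 0 ≤ Real.log (1 + G1 * XL) := Real.log_nonneg (by
      have : 0 ≤ G1 * XL := by positivity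
      linarith)
    positivity
  have hKLle : KL ≤ C * ((C2 + e) * lam) ^ (e - 1) := by
    refine mul_le_mul_of_nonneg_left (pow_le_pow_left₀ ?_ ?_ _) hC0
    · have : 0 ≤ Real.log (1 + G1 * XL) := Real.log_nonneg (by
        have : 0 ≤ G1 * XL := by positivity
        linarith)
      linarith
    · have h1 := log_bound hG10 hR20 (Real.exp_pos M).le hlam0.le e
      have h2 : Real.exp M * Real.exp (lam * e) = Real.exp (M + e * lam) := by
        rw [← Real.exp_add]
        ring_nf
      rw [h2] at h1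
      have h3 : 1 + Real.log (1 + G1 * XL) ≤ C2 + lam * e := h1
      have h4 : C2 ≤ C2 * lam := le_mul_of_one_le_right hC20 hlam1
      linarith
  set Bx : Finset (Fin (e + 1) → ℤ) := (finite_box (d := e + 1) XL).toFinset.erase 0 with hBx
  obtain ⟨δ, hδ0, hδ⟩ := local_bound hcpt (T := T) Bx ⌊KL⌋₊ (by
    intro h hh v S hS hv
    refine Nat.le_floor ?_
    have h1 := hC h (hne0 h hh.2) (hYnu h hh.2) (Submodule.span ℚ {v})
      (exists_coeff_notMem (hne0 h hh.2) (hYint h hh.2) v) XL hXL0 S (fun x hx => by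
        obtain ⟨hx0, hxX⟩ := Finset.mem_erase.1 (hS hx)
        refine ⟨hx0, (Set.Finite.mem_toFinset _).1 hxX, ?_, ?_⟩
        · have := (hv x hx).1
          linarith
        · rw [(hv x hx).2]
          exact Submodule.mem_span_singleton_self _)
    refine h1.trans (mul_le_mul_of_nonneg_left (pow_le_pow_left₀ ?_ ?_ _) hC0)
    · have : 0 ≤ Real.log (1 + (∑ i, ∑ j, |h i j|) * XL) := Real.log_nonneg (by
        have h2 : 0 ≤ nrm h := nrm_nonneg h
        have : 0 ≤ (∑ i, ∑ j, |h i j|) * XL := mul_nonneg h2 hXL0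
        linarith)
      linarith
    · have h2 : nrm h ≤ G1 := nrm_le (d := e + 1) fun i j => (hh.1 i j).trans (le_abs_self R)
      have h3 : nrm h * XL ≤ G1 * XL := mul_le_mul_of_nonneg_right h2 hXL0
      have h4 : Real.log (1 + nrm h * XL) ≤ Real.log (1 + G1 * XL) := by
        refine Real.log_le_log ?_ (by linarith)
        have : 0 ≤ nrm h * XL := mul_nonneg (nrm_nonneg h) hXL0
        linarith
      show 1 + Real.log (1 + nrm h * XL) ≤ 1 + Real.log (1 + G1 * XL)
      linarith)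
  set C6 : ℝ := 2 ^ e * (4 * M / lam + 1) ^ e * KL with hC6
  refine ⟨δ, C6, hδ0, fun g hg X hX v S hS => ?_⟩
  have hnu := hYnu g hg
  have he1 : (0 : ℝ) < (e : ℝ) + 1 := by positivity
  set G : ℝ := nrm g with hG
  have hG0 : 0 ≤ G := nrm_nonneg g
  have hGX : 0 ≤ G * X := mul_nonneg hG0 hX
  set Λ' : ℝ := Real.log (1 + G * X) with hΛ'
  have hΛ'0 : 0 ≤ Λ' := Real.log_nonneg (by linarith)
  set Λ : ℝ := (e + 1) * Λ' + 2 * M with hΛ
  have hΛ0 : 0 ≤ Λ := by positivity
  set L' : ℕ := ⌊2 * Λ / lam⌋₊ with hL'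
  -- the coordinates of a point
  set y : (Fin (e + 1) → ℤ) → Fin (e + 1) → ℝ := fun x => g *ᵥ iR x with hy
  set t : (Fin (e + 1) → ℤ) → Fin (e + 1) → ℝ := fun x i => Real.log |y x i| with ht
  set s0 : (Fin (e + 1) → ℤ) → ℝ := fun x => Real.log |FF g (iR x)| with hs0
  set s : (Fin (e + 1) → ℤ) → Fin e → ℝ := fun x l =>
    t x l.castSucc - s0 x / (e + 1) with hs
  have hyne : ∀ x ∈ S, ∀ i, y x i ≠ 0 := by
    intro x hx i h0
    have h1 := hnu x (hS x hx).1
    rw [FF_eq, Finset.prod_eq_zero (Finset.mem_univ i) h0, abs_zero] at h1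
    linarith
  have hsum : ∀ x ∈ S, ∑ i, t x i = s0 x := by
    intro x hx
    rw [hs0, ht]
    simp only
    rw [FF_eq, Finset.abs_prod, Real.log_prod]
    intro i _
    exact (abs_pos.2 (hyne x hx i)).ne'
  have hs0l : ∀ x ∈ S, Real.log ν ≤ s0 x := fun x hx =>
    Real.log_le_log hν (hnu x (hS x hx).1)
  have hs0u : ∀ x ∈ S, s0 x ≤ Real.log T := fun x hx =>
    Real.log_le_log (hν.trans_le (hnu x (hS x hx).1)) (hS x hx).2.2.1.le
  have hs0M : ∀ x ∈ S, |s0 x| ≤ M := by
    intro x hx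
    rw [abs_le]
    have h1 := neg_abs_le (Real.log ν)
    have h2 := le_abs_self (Real.log T)
    have h3 := abs_nonneg (Real.log ν)
    have h4 := abs_nonneg (Real.log T)
    constructor
    · linarith [hs0l x hx]
    · linarith [hs0u x hx]
  have htu : ∀ x ∈ S, ∀ i, t x i ≤ Λ' := by
    intro x hx i
    refine Real.log_le_log (abs_pos.2 (hyne x hx i)) ?_
    have h1 : |y x i| ≤ ∑ j, |g i j| * X := by
      simp only [hy, mulVec, dotProduct]
      refine (Finset.abs_sum_le_sum_abs _ _).trans (Finset.sum_le_sum fun j _ => ?_)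
      rw [abs_mul]
      exact mul_le_mul_of_nonneg_left ((hS x hx).2.1 j) (abs_nonneg _)
    rw [← Finset.sum_mul] at h1
    have h2 : ∑ j, |g i j| ≤ G := Finset.single_le_sum (f := fun i => ∑ j, |g i j|)
      (fun i _ => Finset.sum_nonneg fun j _ => abs_nonneg _) (Finset.mem_univ i)
    have h3 := mul_le_mul_of_nonneg_right h2 hX
    linarith
  have htl : ∀ x ∈ S, ∀ i, - M - e * Λ' ≤ t x i := by
    intro x hx i
    have h1 := hsum x hx
    rw [← Finset.add_sum_erase _ _ (Finset.mem_univ i)] at h1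
    have h2 : ∑ j ∈ Finset.univ.erase i, t x j ≤ e * Λ' := by
      refine (Finset.sum_le_sum fun j _ => htu x hx j).trans (le_of_eq ?_)
      rw [Finset.sum_const, Finset.card_erase_of_mem (Finset.mem_univ i), Finset.card_univ,
        Fintype.card_fin, nsmul_eq_mul, Nat.add_sub_cancel]
    have h3 := (abs_le.1 (hs0M x hx)).1
    linarith
  have hdiv : ∀ x ∈ S, |s0 x / (e + 1)| ≤ M := by
    intro x hx
    rw [abs_div, abs_of_pos he1]
    refine (div_le_self (abs_nonneg _) ?_).trans (hs0M x hx)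
    have : (0 : ℝ) ≤ e := Nat.cast_nonneg e
    linarith
  have hsΛ : ∀ x ∈ S, ∀ l, |s x l| ≤ Λ := by
    intro x hx l
    have h1 := abs_le.1 (hdiv x hx)
    have h2 := htu x hx l.castSucc
    have h3 := htl x hx l.castSucc
    have h4 : 0 ≤ (e : ℝ) * Λ' := by positivity
    rw [abs_le, hΛ, hs]
    simp only
    constructor <;> nlinarith
  have hu0 : ∀ x ∈ S, ∀ l, 0 ≤ (s x l + Λ) / lam := by
    intro x hx l
    have := (abs_le.1 (hsΛ x hx l)).1
    exact div_nonneg (by linarith) hlam0.le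
  have huL : ∀ x ∈ S, ∀ l, ⌊(s x l + Λ) / lam⌋₊ < L' + 1 := by
    intro x hx l
    have := (abs_le.1 (hsΛ x hx l)).2
    refine Nat.lt_succ_of_le (Nat.floor_le_floor ?_)
    exact div_le_div_of_nonneg_right (by linarith) hlam0.le
  let f : (Fin (e + 1) → ℤ) → (Fin e → Fin (L' + 1)) :=
    fun x l => Fin.ofNat (L' + 1) ⌊(s x l + Λ) / lam⌋₊
  have hf : ∀ x ∈ S, ∀ l, ((f x l : Fin (L' + 1)) : ℕ) = ⌊(s x l + Λ) / lam⌋₊ := fun x hx l =>
    Nat.mod_eq_of_lt (huL x hx l)
  -- every cube contains few points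
  have hcube : ∀ q : Fin e → Fin (L' + 1), ({x ∈ S | f x = q} : Finset _).card ≤ ⌊KL⌋₊ := by
    intro q
    set c : Fin e → ℝ := fun l => lam * ((q l : ℕ) : ℝ) - Λ with hc
    set b : Fin (e + 1) → ℝ := fun i => Real.exp (-(∑ j, Pm i j * c j)) with hb
    have hb0 : ∀ i, 0 < b i := fun i => Real.exp_pos _
    have hb1 : ∏ i, b i = 1 := by
      rw [hb, ← Real.exp_sum, Finset.sum_neg_distrib, Finset.sum_comm]
      have h1 : ∑ j, ∑ i, Pm i j * c j = 0 := by
        refine Finset.sum_eq_zero fun j _ => ?_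
        rw [← Finset.sum_mul, sum_Pm, zero_mul]
      rw [h1, neg_zero, Real.exp_zero]
    have hbg : diagonal b * g ∈ Y := by
      have := hYinv g hg b 1 hb0 hb1 (by simp)
      rwa [zR_one, Matrix.mul_one] at this
    obtain ⟨γ, hγ, hγR⟩ := hR _ (hYdet _ hbg) (hYnu _ hbg)
    set h : Matrix (Fin (e + 1)) (Fin (e + 1)) ℝ := diagonal b * g * zR γ with hh
    have hhK : h ∈ 𝒦 := ⟨hγR, hYinv g hg b γ hb0 hb1 hγ⟩
    have hhu : IsUnit h.det := isUnit_iff_ne_zero.2 (hne0 h hhK.2)
    let ψ : (Fin (e + 1) → ℤ) → (Fin (e + 1) → ℤ) := fun x => γ⁻¹ *ᵥ x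
    have hγψ : ∀ x, γ *ᵥ ψ x = x := by
      intro x
      simp only [ψ]
      rw [mulVec_mulVec, Matrix.mul_nonsing_inv _ hγ, one_mulVec]
    have hψinj : Function.Injective ψ := by
      intro x x' hxx
      rw [← hγψ x, ← hγψ x', hxx]
    have hFψ : ∀ x, FF h (iR (ψ x)) = FF g (iR x) := by
      intro x
      rw [hh, FF_orb hb1, hγψ]
    have hcard : ({x ∈ S | f x = q} : Finset _).card =
        (({x ∈ S | f x = q} : Finset _).image ψ).card :=
      (Finset.card_image_of_injective _ hψinj).symm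
    rw [hcard]
    refine hδ h hhK v _ ?_ ?_
    · intro z hz
      obtain ⟨x, hx, rfl⟩ := Finset.mem_image.1 hz
      obtain ⟨hxS, hxq⟩ := Finset.mem_filter.1 hx
      refine Finset.mem_erase.2 ⟨?_, ?_⟩
      · intro h0
        apply (hS x hxS).1
        rw [← hγψ x, h0, mulVec_zero]
      · rw [Set.Finite.mem_toFinset]
        intro i
        have h1 : h *ᵥ iR (ψ x) = fun i => b i * y x i := by
          rw [hh, ← mulVec_mulVec, zR_mulVec_iR, hγψ, ← mulVec_mulVec]
          funext i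
          rw [mulVec_diagonal]
        have h2 : iR (ψ x) = h⁻¹ *ᵥ (fun i => b i * y x i) := by
          rw [← h1, mulVec_mulVec, Matrix.nonsing_inv_mul _ hhu, one_mulVec]
        have h3 : ∀ j, |b j * y x j| ≤ Real.exp (M + e * lam) := by
          intro j
          rw [abs_mul, abs_of_pos (hb0 j), ← Real.exp_log (abs_pos.2 (hyne x hxS j)), hb]
          simp only
          rw [← Real.exp_add]
          refine Real.exp_le_exp.2 ?_
          have h4 := param (t x) j
          rw [hsum x hxS] at h4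
          have h5 : Real.log |y x j| = s0 x / (e + 1) + ∑ k, Pm j k * s x k := h4
          rw [h5]
          have h6 : -(∑ k, Pm j k * c k) + (s0 x / (e + 1) + ∑ k, Pm j k * s x k) =
              s0 x / (e + 1) + ∑ k, Pm j k * (s x k - c k) := by
            simp only [mul_sub, Finset.sum_sub_distrib]
            ring
          rw [h6]
          have h7 : |∑ k, Pm j k * (s x k - c k)| ≤ e * lam := by
            refine (Finset.abs_sum_le_sum_abs _ _).trans ?_
            refine (Finset.sum_le_sum (g := fun _ => lam) fun k _ => ?_).trans (le_of_eq ?_)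
            · rw [abs_mul]
              have h10 : |Pm j k| ≤ 1 := by
                unfold Pm
                split_ifs <;> simp
              have h11 : |s x k - c k| ≤ lam := by
                have h12 := hf x hxS k
                rw [hxq] at h12
                have h13 := Nat.floor_le (hu0 x hxS k)
                have h14 := Nat.lt_floor_add_one ((s x k + Λ) / lam)
                rw [← h12, le_div_iff₀ hlam0] at h13
                rw [← h12, div_lt_iff₀ hlam0] at h14
                rw [abs_le, hc]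
                simp only
                constructor <;> nlinarith
              calc |Pm j k| * |s x k - c k| ≤ 1 * lam :=
                    mul_le_mul h10 h11 (abs_nonneg _) zero_le_one
                _ = lam := one_mul _
            · rw [Finset.sum_const, Finset.card_univ, Fintype.card_fin, nsmul_eq_mul]
          have h8 := (abs_le.1 h7).2
          have h9 := (abs_le.1 (hdiv x hxS)).2
          linarith
        have h4 : ((ψ x i : ℤ) : ℝ) = ∑ j, h⁻¹ i j * (b j * y x j) := congrFun h2 i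
        rw [h4]
        refine (Finset.abs_sum_le_sum_abs _ _).trans ?_
        calc ∑ j, |h⁻¹ i j * (b j * y x j)| ≤ ∑ j, |h⁻¹ i j| * Real.exp (M + e * lam) := by
              refine Finset.sum_le_sum fun j _ => ?_
              rw [abs_mul]
              exact mul_le_mul_of_nonneg_left (h3 j) (abs_nonneg _)
          _ = (∑ j, |h⁻¹ i j|) * Real.exp (M + e * lam) := by rw [Finset.sum_mul]
          _ ≤ nrm h⁻¹ * Real.exp (M + e * lam) := by
              refine mul_le_mul_of_nonneg_right ?_ (Real.exp_pos _).le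
              exact Finset.single_le_sum (f := fun i => ∑ j, |h⁻¹ i j|)
                (fun i _ => Finset.sum_nonneg fun j _ => abs_nonneg _) (Finset.mem_univ i)
          _ ≤ XL := mul_le_mul_of_nonneg_right (hR2 h hhK) (Real.exp_pos _).le
    · intro z hz
      obtain ⟨x, hx, rfl⟩ := Finset.mem_image.1 hz
      obtain ⟨hxS, hxq⟩ := Finset.mem_filter.1 hx
      rw [hFψ]
      exact ⟨(hS x hxS).2.2.1.le, (hS x hxS).2.2.2⟩
  have htot : S.card ≤ (L' + 1) ^ e * ⌊KL⌋₊ := by
    have h1 := Finset.card_eq_sum_card_fiberwise (f := f) (s := S)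
      (t := (Finset.univ : Finset (Fin e → Fin (L' + 1)))) (fun x _ => Finset.mem_coe.2
        (Finset.mem_univ _))
    rw [h1]
    refine (Finset.sum_le_sum fun q _ => hcube q).trans (le_of_eq ?_)
    rw [Finset.sum_const, Finset.card_univ, smul_eq_mul]
    congr 1
    simp
  have htot2 : (S.card : ℝ) ≤ (2 * Λ / lam + 1) ^ e * KL := by
    have h1 : (S.card : ℝ) ≤ ((L' : ℝ) + 1) ^ e * (⌊KL⌋₊ : ℝ) := by exact_mod_cast htot
    have h2 : (L' : ℝ) ≤ 2 * Λ / lam := Nat.floor_le (by positivity)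
    have h3 : (⌊KL⌋₊ : ℝ) ≤ KL := Nat.floor_le hKL0
    refine h1.trans (mul_le_mul (pow_le_pow_left₀ (by positivity) (by linarith) _) h3
      (Nat.cast_nonneg _) (by positivity))
  have h1 : 2 * Λ / lam + 1 = 2 * (e + 1) * Λ' / lam + (4 * M / lam + 1) := by
    rw [hΛ]; ring
  have h2 : (2 * Λ / lam + 1) ^ e ≤
      2 ^ e * ((2 * (e + 1) * Λ' / lam) ^ e + (4 * M / lam + 1) ^ e) := by
    rw [h1]
    exact add_pow_le' (by positivity) (by positivity) _
  have h3 : 2 ^ e * (2 * (e + 1) * Λ' / lam) ^ e * KL ≤ ε * Λ' ^ e := by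
    have h4 : 2 ^ e * (2 * (e + 1) * Λ' / lam) ^ e * KL ≤
        2 ^ e * (2 * (e + 1) * Λ' / lam) ^ e * (C * ((C2 + e) * lam) ^ (e - 1)) :=
      mul_le_mul_of_nonneg_left hKLle (by positivity)
    refine h4.trans ?_
    have h5 : lam ^ e = lam * lam ^ (e - 1) := by
      rw [← pow_succ']
      congr 1
      omega
    have h6 : (2 : ℝ) ^ e * (2 * (e + 1) * Λ' / lam) ^ e * (C * ((C2 + e) * lam) ^ (e - 1)) =
        C5 / lam * Λ' ^ e := by
      rw [hC5, div_pow, mul_pow (2 * ((e : ℝ) + 1)) Λ', mul_pow (C2 + e) lam, h5]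
      field_simp
    rw [h6]
    refine mul_le_mul_of_nonneg_right ?_ (pow_nonneg hΛ'0 _)
    rw [div_le_iff₀ hlam0, hlam]
    have : ε * (C5 / ε + 1) = C5 + ε := by field_simp
    linarith
  calc (S.card : ℝ) ≤ (2 * Λ / lam + 1) ^ e * KL := htot2
    _ ≤ 2 ^ e * ((2 * (e + 1) * Λ' / lam) ^ e + (4 * M / lam + 1) ^ e) * KL :=
        mul_le_mul_of_nonneg_right h2 hKL0
    _ = 2 ^ e * (2 * (e + 1) * Λ' / lam) ^ e * KL + C6 := by rw [hC6]; ring
    _ ≤ _ := by linarith

end Pool.Agent.T6.H49.CSD
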