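import Mathlib
import Pool.Agent.T6.H49.CSD.Tiling
import Pool.Agent.TH314.CSD.Scales

/-! # Orbit closures of forms which are proportional to integral forms -/

set_option autoImplicit false

open MvPolynomial H715R2 Matrix Filter Topology

namespace Pool.Agent.T6.H49.CSD

variable {d e : ℕ}

lemma propInt_values {g : Matrix (Fin d) (Fin d) ℝ} (hint : PropInt g) :
    ∃ c : ℝ, c ≠ 0 ∧ ∀ x : Fin d → ℤ, ∃ n : ℤ, c * FF g (iR x) = n := by
  obtain ⟨c, hc, hz⟩ := hint
  choose z hz using hz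
  refine ⟨c, hc, fun x => ?_⟩
  have h2 : c * FF g (iR x) = eval (iR x) (c • polyF g) := by
    rw [smul_eval, eval_polyF]
    rfl
  refine ⟨∑ m ∈ (c • polyF g).support, z m * ∏ i, x i ^ m i, ?_⟩
  rw [h2, eval_eq']
  push_cast
  refine Finset.sum_congr rfl fun m _ => ?_
  rw [hz]
  simp [iR]

/-- values in a discrete subgroup -/
lemma propInt_of_values (he : 0 < e) {g : Matrix (Fin (e + 1)) (Fin (e + 1)) ℝ} (hg : g.det ≠ 0)
    {ν : ℝ} (hν : 0 < ν) (hnu : HasNu g ν) {c : ℝ}
    (hc : ∀ x : Fin (e + 1) → ℤ, ∃ n : ℤ, c * FF g (iR x) = n) (hc0 : c ≠ 0) : PropInt g := by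
  by_contra hint
  have hgcl : ∀ h ∈ closure (Orb g), |h.det| = |g.det| := fun h hh => abs_det_closure hh
  obtain ⟨c', hc', hcl⟩ := many_classes he (abs_pos.2 hg) hν (Y := closure (Orb g))
    isClosed_closure (TH314.CSD.inv_closure g) hgcl (fun h hh => hasNu_closure hnu hh)
    (U := Set.univ) isOpen_univ (fun h _ => ⟨Pi.single 0 1, by
      intro h0
      have := congrFun h0 0
      simp at this, Set.mem_univ _⟩)
  obtain ⟨X₀, hX₀⟩ := hcl g (subset_closure (mem_orb_self g)) hint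
  obtain ⟨S, hS1, hS2, hS3⟩ := hX₀ (max X₀ (Real.exp (2 / c'))) (le_max_left _ _)
  have h1 : 2 ≤ (S.card : ℝ) := by
    have h2 : 2 / c' ≤ Real.log (max X₀ (Real.exp (2 / c'))) := by
      have h3 := Real.log_le_log (Real.exp_pos (2 / c')) (le_max_right X₀ (Real.exp (2 / c')))
      rwa [Real.log_exp] at h3
    have h3 := mul_le_mul_of_nonneg_left h2 hc'.le
    have h4 : c' * (2 / c') = 2 := by field_simp
    linarith
  have h2 : 1 < S.card := by
    have : (2 : ℝ) ≤ (S.card : ℝ) := h1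
    have h3 : 2 ≤ S.card := by exact_mod_cast this
    omega
  obtain ⟨x, hx, y, hy, hxy⟩ := Finset.one_lt_card.1 h2
  have h3 := hS2 x hx y hy hxy
  obtain ⟨n, hn⟩ := hc x
  obtain ⟨m, hm⟩ := hc y
  apply h3
  refine ⟨(n : ℚ) / m, ?_⟩
  push_cast
  rw [← hn, ← hm, mul_div_mul_left _ _ hc0]

/-- the orbit closure of a form which is proportional to an integral form -/
lemma propInt_closure (he : 0 < e) {g h : Matrix (Fin (e + 1)) (Fin (e + 1)) ℝ} (hg : g.det ≠ 0)
    {ν : ℝ} (hν : 0 < ν) (hnu : HasNu g ν) (hint : PropInt g) (hh : h ∈ closure (Orb g)) :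
    PropInt h := by
  obtain ⟨c, hc0, hc⟩ := propInt_values hint
  have hdet : h.det ≠ 0 := by
    intro h0
    have := abs_det_closure hh
    rw [h0, abs_zero] at this
    exact hg (abs_eq_zero.1 this.symm)
  refine propInt_of_values he hdet hν (hasNu_closure hnu hh) (c := c) (fun x => ?_) hc0
  have hcl : IsClosed {t : ℝ | ∃ n : ℤ, c * t = n} := by
    have h1 : {t : ℝ | ∃ n : ℤ, c * t = n} = (fun t : ℝ => c * t) ⁻¹' Set.range ((↑) : ℤ → ℝ) := by
      ext t
      simp [eq_comm]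
    rw [h1]
    exact Int.isClosedEmbedding_coe_real.isClosed_range.preimage (by fun_prop)
  have h1 : VV g ⊆ {t : ℝ | ∃ n : ℤ, c * t = n} := by
    refine closure_minimal ?_ hcl
    rintro _ ⟨m, rfl⟩
    exact hc m
  exact h1 (mem_VV_of_mem_closure hh x)

/-- the orbit closure of a counterexample consists of counterexamples -/
theorem not_propInt_closure (he : 2 ≤ e) {g h : Matrix (Fin (e + 1)) (Fin (e + 1)) ℝ}
    (hg : g.det ≠ 0) {ν : ℝ} (hν : 0 < ν) (hnu : HasNu g ν) (hint : ¬ PropInt g)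
    (hh : h ∈ closure (Orb g)) : ¬ PropInt h := by
  intro hp
  have hdet : h.det ≠ 0 := by
    intro h0
    have := abs_det_closure hh
    rw [h0, abs_zero] at this
    exact hg (abs_eq_zero.1 this.symm)
  have hnuh := hasNu_closure hnu hh
  obtain ⟨M, hMh, hMc, ⟨h₂, hh₂⟩, hMinv, hMmin⟩ :=
    H715R2.exists_minimal (Nat.succ_pos e) hν hdet hnuh
  have hrec := TH314.CSD.recurrent_of_minimal hMc hMinv hMmin hh₂
  have h1 := propInt_closure (by omega) hdet hν hnuh hp (hMh hh₂)
  exact (TH314.CSD.recurrent_values (by omega) hg hν hnu hint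
    (TH314.CSD.orb_closure_trans hh (hMh hh₂)) hrec).1 h1

/-- a form which is proportional to an integral form takes some value often -/
theorem exists_level {g : Matrix (Fin (e + 1)) (Fin (e + 1)) ℝ} (hg : g.det ≠ 0)
    {ν : ℝ} (hν : 0 < ν) (hnu : HasNu g ν) (hint : PropInt g) :
    ∃ T c X₀ : ℝ, 0 < T ∧ 0 < c ∧ ∀ X : ℝ, X₀ ≤ X → ∃ v : ℝ, v ≠ 0 ∧ |v| < T ∧
      c * Real.log X ^ e ≤ ((level g v X).ncard : ℝ) := by
  classical
  obtain ⟨r, κ, hr0, hκ0, hpts⟩ := many_points e (abs_pos.2 hg) hν (Y := closure (Orb g))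
    isClosed_closure (TH314.CSD.inv_closure g) (fun h hh => abs_det_closure hh)
    (fun h hh => hasNu_closure hnu hh) (U := Set.univ) isOpen_univ (fun h _ => ⟨Pi.single 0 1, by
      intro h0
      have := congrFun h0 0
      simp at this, Set.mem_univ _⟩)
  have hfin := finite_values hint r
  set F := hfin.toFinset with hF
  set H : ℝ := nrm g⁻¹ with hH
  have hH0 : 0 < H := nrm_inv_pos hg
  have hHr : 0 < H * r := mul_pos hH0 hr0
  set c : ℝ := 1 / ((F.card + 1) * (2 * κ) ^ e) with hc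
  refine ⟨r, c, Real.exp (2 * |Real.log (H * r)| + 1), hr0, by positivity, fun X hX => ?_⟩
  have hX0 : 0 < X := (Real.exp_pos _).trans_le hX
  have hlX : 2 * |Real.log (H * r)| + 1 ≤ Real.log X := by
    rw [← Real.log_exp (2 * |Real.log (H * r)| + 1)]
    exact Real.log_le_log (Real.exp_pos _) hX
  have hab := le_abs_self (Real.log (H * r))
  have habn := abs_nonneg (Real.log (H * r))
  set n : ℕ := ⌊(Real.log X - Real.log (H * r)) / κ⌋₊ with hn
  have hnn : 0 ≤ (Real.log X - Real.log (H * r)) / κ := div_nonneg (by linarith) hκ0.le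
  have hn1 : (n : ℝ) ≤ (Real.log X - Real.log (H * r)) / κ := Nat.floor_le hnn
  have hn2 : (Real.log X - Real.log (H * r)) / κ < n + 1 := Nat.lt_floor_add_one _
  have hnX : H * (r * Real.exp (κ * n)) ≤ X := by
    rw [le_div_iff₀ hκ0] at hn1
    have h1 : Real.exp (κ * n) ≤ Real.exp (Real.log X - Real.log (H * r)) :=
      Real.exp_le_exp.2 (by linarith)
    rw [Real.exp_sub, Real.exp_log hX0, Real.exp_log hHr, le_div_iff₀ hHr] at h1
    linarith
  obtain ⟨S, hScard, hS⟩ := hpts g (subset_closure (mem_orb_self g)) n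
  have hSF : ∀ x ∈ S, FF g (iR x) ∈ F := by
    intro x hx
    rw [hF, Set.Finite.mem_toFinset]
    exact ⟨(hS x hx).2.1, x, rfl⟩
  have hSne : S.Nonempty := by
    rw [← Finset.card_pos, hScard]
    positivity
  have hFne : F.Nonempty := by
    obtain ⟨x, hx⟩ := hSne
    exact ⟨_, hSF x hx⟩
  have hpig : ∃ v ∈ F, (S.card : ℝ) / F.card ≤ (({x ∈ S | FF g (iR x) = v} : Finset _).card : ℝ) := by
    by_contra hcon
    push Not at hcon
    have h1 : (S.card : ℝ) = ∑ v ∈ F, (({x ∈ S | FF g (iR x) = v} : Finset _).card : ℝ) := by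
      exact_mod_cast Finset.card_eq_sum_card_fiberwise (f := fun x => FF g (iR x)) hSF
    have h2 : ∑ v ∈ F, (({x ∈ S | FF g (iR x) = v} : Finset _).card : ℝ) <
        ∑ v ∈ F, (S.card : ℝ) / F.card := Finset.sum_lt_sum_of_nonempty hFne hcon
    rw [Finset.sum_const, nsmul_eq_mul, ← h1] at h2
    have h3 : (F.card : ℝ) ≠ 0 := by
      have := Finset.card_pos.2 hFne
      positivity
    rw [mul_div_cancel₀ _ h3] at h2
    exact lt_irrefl _ h2
  obtain ⟨v, hv, hvS⟩ := hpig
  have hFpos : (0 : ℝ) < F.card := by exact_mod_cast Finset.card_pos.2 hFne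
  have hSpos : (0 : ℝ) < S.card := by exact_mod_cast Finset.card_pos.2 hSne
  have hne : ∃ x ∈ S, FF g (iR x) = v := by
    have h1 : (0 : ℝ) < (({x ∈ S | FF g (iR x) = v} : Finset _).card : ℝ) :=
      (div_pos hSpos hFpos).trans_le hvS
    have h2 : 0 < ({x ∈ S | FF g (iR x) = v} : Finset _).card := by exact_mod_cast h1
    obtain ⟨x, hx⟩ := Finset.card_pos.1 h2
    exact ⟨x, (Finset.mem_filter.1 hx).1, (Finset.mem_filter.1 hx).2⟩
  obtain ⟨x₁, hx₁, hxv⟩ := hne
  refine ⟨v, ?_, ?_, ?_⟩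
  · rw [← hxv]
    intro h0
    have h1 := hnu x₁ (hS x₁ hx₁).1
    rw [h0, abs_zero] at h1
    linarith
  · rw [← hxv]
    exact (hS x₁ hx₁).2.1
  · have h1 : ({x ∈ S | FF g (iR x) = v} : Finset _) ⊆ (finite_level g v X).toFinset := by
      intro x hx
      obtain ⟨hxS, hxv⟩ := Finset.mem_filter.1 hx
      rw [Set.Finite.mem_toFinset]
      exact ⟨fun i => ((hS x hxS).2.2.2 i).trans hnX, hxv⟩
    have h2 := Finset.card_le_card h1
    rw [← Set.ncard_eq_toFinset_card _ (finite_level g v X)] at h2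
    have h3 : (({x ∈ S | FF g (iR x) = v} : Finset _).card : ℝ) ≤ ((level g v X).ncard : ℝ) := by
      exact_mod_cast h2
    refine le_trans ?_ (hvS.trans h3)
    rw [hScard]
    have h4 : Real.log X / (2 * κ) ≤ n + 1 := by
      rw [div_lt_iff₀ hκ0] at hn2
      rw [div_le_iff₀ (by positivity)]
      nlinarith
    have h5 : (Real.log X / (2 * κ)) ^ e ≤ ((n : ℝ) + 1) ^ e :=
      pow_le_pow_left₀ (div_nonneg (by linarith) (by positivity)) h4 _
    rw [div_pow] at h5
    push_cast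
    have hlX0 : 0 ≤ Real.log X := by linarith
    have hk : 0 < (2 * κ) ^ e := by positivity
    calc c * Real.log X ^ e = (Real.log X ^ e / (2 * κ) ^ e) / (F.card + 1) := by
          rw [hc]
          field_simp
      _ ≤ (Real.log X ^ e / (2 * κ) ^ e) / F.card := by
          refine div_le_div_of_nonneg_left (by positivity) hFpos (by linarith)
      _ ≤ ((n : ℝ) + 1) ^ e / F.card := div_le_div_of_nonneg_right h5 hFpos.le

end Pool.Agent.T6.H49.CSD
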