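import Mathlib
import Pool.Agent.T6.H49.CSD.Closure
import Pool.Agent.TH314.CSD.Stab

/-! # Integer matrices which are nearly diagonal in the basis given by a lattice -/

set_option autoImplicit false

open H715R2 Matrix Filter Topology

namespace Pool.Agent.T6.H49.CSD

variable {d e : ℕ}

/-- the integer matrix `γ` seen in the coordinates given by `h` -/
noncomputable def cj (h : Matrix (Fin d) (Fin d) ℝ) (γ : Matrix (Fin d) (Fin d) ℤ) :
    Matrix (Fin d) (Fin d) ℝ := h * zR γ * h⁻¹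

lemma zR_add (γ δ : Matrix (Fin d) (Fin d) ℤ) : zR (γ + δ) = zR γ + zR δ := by
  ext i j
  simp [zR]

lemma zR_sub (γ δ : Matrix (Fin d) (Fin d) ℤ) : zR (γ - δ) = zR γ - zR δ := by
  ext i j
  simp [zR]

lemma zR_smul (t : ℤ) (γ : Matrix (Fin d) (Fin d) ℤ) : zR (t • γ) = (t : ℝ) • zR γ := by
  ext i j
  rw [zR, Matrix.map_apply, Matrix.smul_apply, Matrix.smul_apply, zR, Matrix.map_apply,
    smul_eq_mul, smul_eq_mul]
  push_cast
  rfl

lemma cj_one {h : Matrix (Fin d) (Fin d) ℝ} (hh : h.det ≠ 0) : cj h 1 = 1 := by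
  rw [cj, zR_one, Matrix.mul_one, Matrix.mul_nonsing_inv _ (isUnit_iff_ne_zero.2 hh)]

lemma cj_mul {h : Matrix (Fin d) (Fin d) ℝ} (hh : h.det ≠ 0) (γ δ : Matrix (Fin d) (Fin d) ℤ) :
    cj h (γ * δ) = cj h γ * cj h δ := by
  have hu := isUnit_iff_ne_zero.2 hh
  rw [cj, cj, cj, zR_mul]
  calc h * (zR γ * zR δ) * h⁻¹ = h * zR γ * 1 * zR δ * h⁻¹ := by
        rw [Matrix.mul_one]; simp only [Matrix.mul_assoc]
    _ = h * zR γ * (h⁻¹ * h) * zR δ * h⁻¹ := by rw [Matrix.nonsing_inv_mul _ hu]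
    _ = _ := by simp only [Matrix.mul_assoc]

lemma cj_add (h : Matrix (Fin d) (Fin d) ℝ) (γ δ : Matrix (Fin d) (Fin d) ℤ) :
    cj h (γ + δ) = cj h γ + cj h δ := by
  rw [cj, cj, cj, zR_add, Matrix.mul_add, Matrix.add_mul]

lemma cj_sub (h : Matrix (Fin d) (Fin d) ℝ) (γ δ : Matrix (Fin d) (Fin d) ℤ) :
    cj h (γ - δ) = cj h γ - cj h δ := by
  rw [cj, cj, cj, zR_sub, Matrix.mul_sub, Matrix.sub_mul]

lemma cj_smul (h : Matrix (Fin d) (Fin d) ℝ) (t : ℤ) (γ : Matrix (Fin d) (Fin d) ℤ) :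
    cj h (t • γ) = (t : ℝ) • cj h γ := by
  rw [cj, cj, zR_smul, Matrix.mul_smul, Matrix.smul_mul]

lemma cj_mul_right {h : Matrix (Fin d) (Fin d) ℝ} (hh : h.det ≠ 0)
    (γ : Matrix (Fin d) (Fin d) ℤ) : cj h γ * h = h * zR γ := by
  rw [cj, Matrix.mul_assoc, Matrix.nonsing_inv_mul _ (isUnit_iff_ne_zero.2 hh), Matrix.mul_one]

lemma inv_diagonal_mul {h : Matrix (Fin d) (Fin d) ℝ} (hh : h.det ≠ 0) {a : Fin d → ℝ}
    (ha : ∀ i, a i ≠ 0) : (diagonal a * h)⁻¹ = h⁻¹ * diagonal fun i => (a i)⁻¹ := by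
  have hu := isUnit_iff_ne_zero.2 hh
  refine Matrix.inv_eq_left_inv ?_
  calc h⁻¹ * diagonal (fun i => (a i)⁻¹) * (diagonal a * h) =
        h⁻¹ * (diagonal (fun i => (a i)⁻¹) * diagonal a) * h := by simp only [Matrix.mul_assoc]
    _ = 1 := by
        rw [diagonal_mul_diagonal]
        have h1 : (fun i => (a i)⁻¹ * a i) = fun _ => (1 : ℝ) := by
          funext i
          exact inv_mul_cancel₀ (ha i)
        rw [h1, diagonal_one, Matrix.mul_one, Matrix.nonsing_inv_mul _ hu]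

lemma cj_diagonal {h : Matrix (Fin d) (Fin d) ℝ} (hh : h.det ≠ 0) {a : Fin d → ℝ}
    (ha : ∀ i, a i ≠ 0) (γ : Matrix (Fin d) (Fin d) ℤ) (i j : Fin d) :
    cj (diagonal a * h) γ i j = a i / a j * cj h γ i j := by
  have h1 : cj (diagonal a * h) γ = diagonal a * cj h γ * diagonal fun i => (a i)⁻¹ := by
    rw [cj, cj, inv_diagonal_mul hh ha]
    simp only [Matrix.mul_assoc]
  rw [h1, mul_diagonal, diagonal_mul]
  field_simp

lemma cj_unimod {h : Matrix (Fin d) (Fin d) ℝ} (hh : h.det ≠ 0)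
    {δ : Matrix (Fin d) (Fin d) ℤ} (hδ : IsUnit δ.det) (γ : Matrix (Fin d) (Fin d) ℤ) :
    cj (h * zR δ) (δ⁻¹ * γ * δ) = cj h γ := by
  have hu := isUnit_iff_ne_zero.2 hh
  have h1 : (h * zR δ)⁻¹ = zR δ⁻¹ * h⁻¹ := by
    refine Matrix.inv_eq_left_inv ?_
    calc zR δ⁻¹ * h⁻¹ * (h * zR δ) = zR δ⁻¹ * (h⁻¹ * h) * zR δ := by
          simp only [Matrix.mul_assoc]
      _ = 1 := by
          rw [Matrix.nonsing_inv_mul _ hu, Matrix.mul_one, zR_inv' hδ]
  rw [cj, cj, h1, zR_mul, zR_mul]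
  calc h * zR δ * (zR δ⁻¹ * zR γ * zR δ) * (zR δ⁻¹ * h⁻¹) =
        h * (zR δ * zR δ⁻¹) * zR γ * (zR δ * zR δ⁻¹) * h⁻¹ := by simp only [Matrix.mul_assoc]
    _ = h * zR γ * h⁻¹ := by rw [zR_inv hδ, Matrix.mul_one, Matrix.mul_one]

/-- the lattices are uniformly rigid -/
theorem rigid (hd : 0 < d) {V ν : ℝ} (hV : 0 < V) (hν : 0 < ν) :
    ∃ η : ℝ, 0 < η ∧ ∀ h : Matrix (Fin d) (Fin d) ℝ, |h.det| = V → HasNu h ν →
      ∀ C : Matrix (Fin d) (Fin d) ℤ, (∀ i j, |cj h C i j| ≤ η) → C = 0 := by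
  classical
  obtain ⟨R, hR⟩ := exists_bound hd V ν hV hν
  obtain ⟨R2, hR20, hR2⟩ := exists_inv_bound (V := V)
    (𝒦 := {h : Matrix (Fin d) (Fin d) ℝ | ∀ i j, |h i j| ≤ R} ∩ {h | |h.det| = V})
    ((isCompact_box R).inter_right
      (isClosed_eq (continuous_abs.comp continuous_det') continuous_const)) (fun h hh => hh.2)
  have hd' : (0 : ℝ) < d := by exact_mod_cast hd
  set η : ℝ := 1 / (2 * ((d : ℝ) ^ 2 * R2 * |R| + 1)) with hη
  have hη0 : 0 < η := by positivity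
  refine ⟨η, hη0, fun h hdet hnu C hC => ?_⟩
  have hne : h.det ≠ 0 := by
    intro h0
    rw [h0, abs_zero] at hdet
    exact hV.ne hdet
  obtain ⟨δ, hδ, hδR⟩ := hR h hdet hnu
  set h' := h * zR δ with hh'
  have hdet' : |h'.det| = V := by
    rw [hh', Matrix.det_mul, det_zR, abs_mul, abs_det_of_isUnit hδ, mul_one, hdet]
  have hne' : h'.det ≠ 0 := by
    intro h0
    rw [h0, abs_zero] at hdet'
    exact hV.ne hdet'
  set C' := δ⁻¹ * C * δ with hC'
  have hcj : ∀ i j, |cj h' C' i j| ≤ η := fun i j => by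
    rw [hh', hC', cj_unimod hne hδ]
    exact hC i j
  have hC'0 : C' = 0 := by
    ext i j
    have hz : zR C' = h'⁻¹ * cj h' C' * h' := by
      have hu := isUnit_iff_ne_zero.2 hne'
      rw [cj]
      calc zR C' = 1 * zR C' * 1 := by rw [Matrix.one_mul, Matrix.mul_one]
        _ = (h'⁻¹ * h') * zR C' * (h'⁻¹ * h') := by rw [Matrix.nonsing_inv_mul _ hu]
        _ = _ := by simp only [Matrix.mul_assoc]
    have h1 : |(C' i j : ℝ)| ≤ (d : ℝ) ^ 2 * R2 * |R| * η := by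
      have h2 : (C' i j : ℝ) = ∑ l, (∑ k, h'⁻¹ i k * cj h' C' k l) * h' l j := by
        have := congrFun (congrFun hz i) j
        simp only [zR, Matrix.map_apply, Matrix.mul_apply] at this
        exact this
      rw [h2]
      have hinv : ∀ k, |h'⁻¹ i k| ≤ R2 := fun k => by
        refine le_trans ?_ (hR2 h' ⟨hδR, hdet'⟩)
        unfold nrm
        exact le_trans (Finset.single_le_sum (f := fun j => |h'⁻¹ i j|)
          (fun _ _ => abs_nonneg _) (Finset.mem_univ k)) (Finset.single_le_sum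
          (f := fun i => ∑ j, |h'⁻¹ i j|) (fun _ _ => Finset.sum_nonneg fun _ _ => abs_nonneg _)
          (Finset.mem_univ i))
      calc |∑ l, (∑ k, h'⁻¹ i k * cj h' C' k l) * h' l j| ≤
            ∑ l, |(∑ k, h'⁻¹ i k * cj h' C' k l) * h' l j| := Finset.abs_sum_le_sum_abs _ _
        _ ≤ ∑ _l : Fin d, ((d : ℝ) * (R2 * η)) * |R| := by
            refine Finset.sum_le_sum fun l _ => ?_
            rw [abs_mul]
            refine mul_le_mul ?_ ((hδR l j).trans (le_abs_self R)) (abs_nonneg _) (by positivity)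
            calc |∑ k, h'⁻¹ i k * cj h' C' k l| ≤ ∑ k, |h'⁻¹ i k * cj h' C' k l| :=
                  Finset.abs_sum_le_sum_abs _ _
              _ ≤ ∑ _k : Fin d, R2 * η := by
                  refine Finset.sum_le_sum fun k _ => ?_
                  rw [abs_mul]
                  exact mul_le_mul (hinv k) (hcj k l) (abs_nonneg _) hR20
              _ = _ := by rw [Finset.sum_const, Finset.card_univ, Fintype.card_fin, nsmul_eq_mul]
        _ = _ := by
            rw [Finset.sum_const, Finset.card_univ, Fintype.card_fin, nsmul_eq_mul]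
            ring
    have h2 : (d : ℝ) ^ 2 * R2 * |R| * η < 1 := by
      have h3 : (2 * ((d : ℝ) ^ 2 * R2 * |R| + 1)) * η = 1 := by
        rw [hη]
        field_simp
      have h4 : 0 ≤ (d : ℝ) ^ 2 * R2 * |R| := by positivity
      nlinarith
    have h3 : |(C' i j : ℝ)| < 1 := h1.trans_lt h2
    have h4 : |C' i j| < 1 := by exact_mod_cast h3
    exact Int.abs_lt_one_iff.1 h4
  have h1 : C = δ * C' * δ⁻¹ := by
    rw [hC']
    calc C = 1 * C * 1 := by rw [Matrix.one_mul, Matrix.mul_one]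
      _ = (δ * δ⁻¹) * C * (δ * δ⁻¹) := by rw [Matrix.mul_nonsing_inv _ hδ]
      _ = _ := by simp only [Matrix.mul_assoc]
  rw [h1, hC'0, Matrix.mul_zero, Matrix.zero_mul]

/-- entries of a commutator of nearly diagonal matrices -/
lemma comm_entry (M N : Matrix (Fin d) (Fin d) ℝ) {i j : Fin d} (hij : i ≠ j) :
    (M * N - N * M) i j = (M i i - M j j) * N i j - (N i i - N j j) * M i j +
      ∑ k ∈ (Finset.univ.erase i).erase j, (M i k * N k j - N i k * M k j) := by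
  classical
  rw [Matrix.sub_apply, Matrix.mul_apply, Matrix.mul_apply, ← Finset.sum_sub_distrib,
    ← Finset.add_sum_erase _ _ (Finset.mem_univ i),
    ← Finset.add_sum_erase _ _ (Finset.mem_erase.2 ⟨hij.symm, Finset.mem_univ j⟩)]
  ring

lemma comm_entry' (M N : Matrix (Fin d) (Fin d) ℝ) (i : Fin d) :
    (M * N - N * M) i i = ∑ k ∈ Finset.univ.erase i, (M i k * N k i - N i k * M k i) := by
  classical
  rw [Matrix.sub_apply, Matrix.mul_apply, Matrix.mul_apply, ← Finset.sum_sub_distrib,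
    ← Finset.add_sum_erase _ _ (Finset.mem_univ i)]
  ring

lemma comm_sum_le {M N : Matrix (Fin d) (Fin d) ℝ} {σ τ : ℝ} (hσ0 : 0 ≤ σ) (hτ0 : 0 ≤ τ)
    (hM : ∀ i j, i ≠ j → |M i j| ≤ σ) (hN : ∀ i j, i ≠ j → |N i j| ≤ τ) (i j : Fin d)
    (s : Finset (Fin d)) (hs : ∀ k ∈ s, i ≠ k ∧ k ≠ j) :
    |∑ k ∈ s, (M i k * N k j - N i k * M k j)| ≤ 2 * d * (σ * τ) := by
  calc |∑ k ∈ s, (M i k * N k j - N i k * M k j)| ≤ ∑ k ∈ s, |M i k * N k j - N i k * M k j| :=
        Finset.abs_sum_le_sum_abs _ _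
    _ ≤ ∑ _k ∈ s, 2 * (σ * τ) := by
        refine Finset.sum_le_sum fun k hk => ?_
        obtain ⟨h1, h2⟩ := hs k hk
        refine (abs_sub _ _).trans ?_
        rw [abs_mul, abs_mul]
        have h3 : |M i k| * |N k j| ≤ σ * τ := mul_le_mul (hM i k h1) (hN k j h2) (abs_nonneg _) hσ0
        have h4 : |N i k| * |M k j| ≤ τ * σ := mul_le_mul (hN i k h1) (hM k j h2) (abs_nonneg _) hτ0
        linarith
    _ ≤ ∑ _k : Fin d, 2 * (σ * τ) :=
        Finset.sum_le_sum_of_subset_of_nonneg (Finset.subset_univ _) fun _ _ _ => by positivity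
    _ = _ := by
        rw [Finset.sum_const, Finset.card_univ, Fintype.card_fin, nsmul_eq_mul]
        ring

/-- nearly diagonal integer matrices commute -/
lemma commute_of_near {h : Matrix (Fin d) (Fin d) ℝ} (hh : h.det ≠ 0) {η S σ τ : ℝ}
    (hrig : ∀ C : Matrix (Fin d) (Fin d) ℤ, (∀ i j, |cj h C i j| ≤ η) → C = 0)
    (hS : 0 ≤ S) (hσ0 : 0 ≤ σ) (hτ0 : 0 ≤ τ) {γ δ : Matrix (Fin d) (Fin d) ℤ}
    (hγ1 : ∀ i, |cj h γ i i| ≤ S) (hγ2 : ∀ i j, i ≠ j → |cj h γ i j| ≤ σ)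
    (hδ1 : ∀ i, |cj h δ i i| ≤ S) (hδ2 : ∀ i j, i ≠ j → |cj h δ i j| ≤ τ)
    (hη : 2 * S * σ + 2 * S * τ + 2 * d * (σ * τ) ≤ η) : γ * δ = δ * γ := by
  classical
  have h0 : γ * δ - δ * γ = 0 := by
    apply hrig
    intro i j
    have h1 : cj h (γ * δ - δ * γ) = cj h γ * cj h δ - cj h δ * cj h γ := by
      rw [cj_sub, cj_mul hh, cj_mul hh]
    rw [h1]
    by_cases hij : i = j
    · subst hij
      rw [comm_entry']
      have h2 := comm_sum_le hσ0 hτ0 hγ2 hδ2 i i (Finset.univ.erase i) (fun k hk => by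
        have := Finset.ne_of_mem_erase hk
        exact ⟨this.symm, this⟩)
      have h3 : 0 ≤ 2 * S * σ := by positivity
      have h4 : 0 ≤ 2 * S * τ := by positivity
      linarith
    · rw [comm_entry _ _ hij]
      have h2 := comm_sum_le hσ0 hτ0 hγ2 hδ2 i j ((Finset.univ.erase i).erase j) (fun k hk => by
        have h3 := Finset.mem_erase.1 hk
        have h4 := Finset.mem_erase.1 h3.2
        exact ⟨h4.1.symm, h3.1⟩)
      have h3 : |(cj h γ i i - cj h γ j j) * cj h δ i j| ≤ (2 * S) * τ := by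
        rw [abs_mul]
        refine mul_le_mul ?_ (hδ2 i j hij) (abs_nonneg _) (by positivity)
        refine (abs_sub _ _).trans ?_
        linarith [hγ1 i, hγ1 j]
      have h4 : |(cj h δ i i - cj h δ j j) * cj h γ i j| ≤ (2 * S) * σ := by
        rw [abs_mul]
        refine mul_le_mul ?_ (hγ2 i j hij) (abs_nonneg _) (by positivity)
        refine (abs_sub _ _).trans ?_
        linarith [hδ1 i, hδ1 j]
      have h5 := abs_add_le ((cj h γ i i - cj h γ j j) * cj h δ i j -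
        (cj h δ i i - cj h δ j j) * cj h γ i j) (∑ k ∈ (Finset.univ.erase i).erase j,
          (cj h γ i k * cj h δ k j - cj h δ i k * cj h γ k j))
      have h6 := abs_sub ((cj h γ i i - cj h γ j j) * cj h δ i j)
        ((cj h δ i i - cj h δ j j) * cj h γ i j)
      linarith
  exact sub_eq_zero.1 h0

/-- commuting with a nearly diagonal matrix with separated entries -/
lemma improve {h : Matrix (Fin d) (Fin d) ℝ} (hh : h.det ≠ 0) {S σ τ g : ℝ}
    (hS : 0 ≤ S) (hσ0 : 0 ≤ σ) (hσ1 : σ ≤ 1) (hτ0 : 0 ≤ τ) (hg : 0 < g)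
    {γ δ : Matrix (Fin d) (Fin d) ℤ} (hcomm : γ * δ = δ * γ)
    (hγ1 : ∀ i, |cj h γ i i| ≤ S) (hγ2 : ∀ i j, i ≠ j → |cj h γ i j| ≤ σ)
    (hδ2 : ∀ i j, i ≠ j → |cj h δ i j| ≤ τ)
    (hδ3 : ∀ i j, i ≠ j → g ≤ |cj h δ i i - cj h δ j j|) (i j : Fin d) (hij : i ≠ j) :
    |cj h γ i j| ≤ (2 * S + 2 * d) * τ / g := by
  classical
  have h1 : cj h γ * cj h δ - cj h δ * cj h γ = 0 := by
    rw [← cj_mul hh, ← cj_mul hh, hcomm, sub_self]
  have h2 := comm_entry (cj h γ) (cj h δ) hij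
  rw [h1, Matrix.zero_apply] at h2
  have h3 : |∑ k ∈ (Finset.univ.erase i).erase j,
      (cj h γ i k * cj h δ k j - cj h δ i k * cj h γ k j)| ≤ 2 * d * (σ * τ) :=
    comm_sum_le hσ0 hτ0 hγ2 hδ2 i j ((Finset.univ.erase i).erase j) (fun k hk => by
      have h3 := Finset.mem_erase.1 hk
      have h4 := Finset.mem_erase.1 h3.2
      exact ⟨h4.1.symm, h3.1⟩)
  have h4 : |(cj h γ i i - cj h γ j j) * cj h δ i j| ≤ (2 * S) * τ := by
    rw [abs_mul]
    refine mul_le_mul ?_ (hδ2 i j hij) (abs_nonneg _) (by positivity)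
    refine (abs_sub _ _).trans ?_
    linarith [hγ1 i, hγ1 j]
  have h5 : |(cj h δ i i - cj h δ j j) * cj h γ i j| ≤ (2 * S + 2 * d) * τ := by
    have h6 : (cj h δ i i - cj h δ j j) * cj h γ i j =
        (cj h γ i i - cj h γ j j) * cj h δ i j + ∑ k ∈ (Finset.univ.erase i).erase j,
          (cj h γ i k * cj h δ k j - cj h δ i k * cj h γ k j) := by linarith
    rw [h6]
    refine (abs_add_le _ _).trans ?_
    have h7 : σ * τ ≤ τ := by nlinarith
    have h8 : (2 * (d : ℝ)) * (σ * τ) ≤ 2 * d * τ :=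
      mul_le_mul_of_nonneg_left h7 (by positivity)
    linarith
  rw [abs_mul] at h5
  rw [le_div_iff₀ hg]
  calc |cj h γ i j| * g ≤ |cj h γ i j| * |cj h δ i i - cj h δ j j| :=
        mul_le_mul_of_nonneg_left (hδ3 i j hij) (abs_nonneg _)
    _ = |cj h δ i i - cj h δ j j| * |cj h γ i j| := mul_comm _ _
    _ ≤ _ := h5

end Pool.Agent.T6.H49.CSD
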