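import Mathlib
import Pool.Agent.T6.H49.CSD.NearDiag

/-! # Shadowing along an orbit of the diagonal group -/

set_option autoImplicit false

open H715R2 Matrix Filter Topology

namespace Pool.Agent.T6.H49.CSD

variable {d e : ℕ}

/-- `h` has a nearly diagonal integer matrix with `c` separated diagonal entries -/
def QQ (h : Matrix (Fin d) (Fin d) ℝ) (c : ℕ) (S τ g : ℝ) : Prop :=
  ∃ (γ : Matrix (Fin d) (Fin d) ℤ) (J : Finset (Fin d)), J.card = c ∧
    (∀ i, |cj h γ i i| ≤ S) ∧ (∀ i j, i ≠ j → |cj h γ i j| ≤ τ) ∧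
    ∀ i ∈ J, ∀ j ∈ J, i ≠ j → g ≤ |cj h γ i i - cj h γ j j|

lemma hasNu_diag {g : Matrix (Fin d) (Fin d) ℝ} {ν : ℝ} (hnu : HasNu g ν) {a : Fin d → ℝ}
    (ha : ∏ i, a i = 1) : HasNu (diagonal a * g) ν := by
  intro m hm
  rw [FF_diag_mul, ha, one_mul]
  exact hnu m hm

lemma det_diag {g : Matrix (Fin d) (Fin d) ℝ} {a : Fin d → ℝ}
    (ha : ∏ i, a i = 1) : (diagonal a * g).det = g.det := by
  rw [Matrix.det_mul, det_diagonal, ha, one_mul]

/-- the path in the diagonal group -/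
noncomputable def pth (i j : Fin d) (n : ℕ) (k : Fin d) : ℝ :=
  Real.exp (n * ((if k = i then 1 else 0) - (if k = j then 1 else 0)))

lemma pth_pos (i j : Fin d) (n : ℕ) (k : Fin d) : 0 < pth i j n k := Real.exp_pos _

lemma pth_prod (i j : Fin d) (n : ℕ) : ∏ k, pth i j n k = 1 := by
  simp only [pth]
  rw [← Real.exp_sum, ← Finset.mul_sum, Finset.sum_sub_distrib]
  simp

lemma pth_succ (i j : Fin d) (n : ℕ) (k : Fin d) :
    pth i j (n + 1) k = pth i j 1 k * pth i j n k := by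
  simp only [pth]
  rw [← Real.exp_add]
  congr 1
  push_cast
  ring

lemma pth_ratio (i j : Fin d) (k l : Fin d) : pth i j 1 k / pth i j 1 l ≤ Real.exp 2 := by
  simp only [pth]
  rw [← Real.exp_sub]
  refine Real.exp_le_exp.2 ?_
  split_ifs <;> norm_num

/-- **Shadowing.** -/
theorem exists_fail (hd : 3 ≤ d) {V ν η : ℝ} (hV : 0 < V) (hν : 0 < ν)
    (hrig : ∀ h : Matrix (Fin d) (Fin d) ℝ, |h.det| = V → HasNu h ν →
      ∀ C : Matrix (Fin d) (Fin d) ℤ, (∀ i j, |cj h C i j| ≤ η) → C = 0)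
    {S τ g : ℝ} (hS : 0 ≤ S) (hτ : 0 ≤ τ) (hg : 0 < g)
    (hσ1 : Real.exp 2 * ((2 * S + 2 * d) * τ / g) ≤ 1)
    (hη : 2 * S * (Real.exp 2 * ((2 * S + 2 * d) * τ / g)) + 2 * S * τ +
      2 * d * ((Real.exp 2 * ((2 * S + 2 * d) * τ / g)) * τ) ≤ η)
    {h : Matrix (Fin d) (Fin d) ℝ} (hdet : |h.det| = V) (hnu : HasNu h ν) (hint : ¬ PropInt h) :
    ∃ a : Fin d → ℝ, (∀ i, 0 < a i) ∧ ∏ i, a i = 1 ∧ ¬ QQ (diagonal a * h) d S τ g := by
  classical
  by_contra hcon
  push Not at hcon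
  have hne : h.det ≠ 0 := by
    intro h0
    rw [h0, abs_zero] at hdet
    exact hV.ne hdet
  set τ₁ : ℝ := (2 * S + 2 * d) * τ / g with hτ₁
  have hτ₁0 : 0 ≤ τ₁ := by positivity
  set σ : ℝ := Real.exp 2 * τ₁ with hσ
  have hσ0 : 0 ≤ σ := by positivity
  -- the property with all the gaps
  have hP : ∀ a : Fin d → ℝ, (∀ i, 0 < a i) → ∏ i, a i = 1 →
      ∃ γ : Matrix (Fin d) (Fin d) ℤ, (∀ i, |cj (diagonal a * h) γ i i| ≤ S) ∧
        (∀ i j, i ≠ j → |cj (diagonal a * h) γ i j| ≤ τ) ∧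
        ∀ i j, i ≠ j → g ≤ |cj (diagonal a * h) γ i i - cj (diagonal a * h) γ j j| := by
    intro a ha0 ha1
    obtain ⟨γ, J, hJ, h1, h2, h3⟩ := hcon a ha0 ha1
    have hJu : J = Finset.univ := by
      rw [← Finset.card_eq_iff_eq_univ, hJ, Fintype.card_fin]
    refine ⟨γ, h1, h2, fun i j hij => h3 i ?_ j ?_ hij⟩ <;> rw [hJu] <;> exact Finset.mem_univ _
  obtain ⟨γ, hγ1, hγ2, hγ3⟩ := hP (fun _ => 1) (fun _ => one_pos) (by simp)
  have hone : diagonal (fun _ : Fin d => (1 : ℝ)) * h = h := by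
    rw [diagonal_one, Matrix.one_mul]
  rw [hone] at hγ1 hγ2 hγ3
  have hkey : ∀ i j : Fin d, ∀ n : ℕ, ∀ k l, k ≠ l →
      |cj (diagonal (pth i j n) * h) γ k l| ≤ τ₁ := by
    intro i j n
    induction n with
    | zero =>
      intro k l hkl
      have h0 : pth i j 0 = fun _ => (1 : ℝ) := by
        funext k
        simp [pth]
      rw [h0, hone]
      refine (hγ2 k l hkl).trans ?_
      have h1 := hγ3 k l hkl
      have h2 : |cj h γ k k - cj h γ l l| ≤ 2 * S := by
        refine (abs_sub _ _).trans ?_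
        linarith [hγ1 k, hγ1 l]
      rw [hτ₁, le_div_iff₀ hg]
      have h3 : (0 : ℝ) ≤ d := by positivity
      nlinarith
    | succ n ih =>
      set a := pth i j (n + 1) with ha
      have ha0 : ∀ k, 0 < a k := pth_pos i j (n + 1)
      have ha1 : ∏ k, a k = 1 := pth_prod i j (n + 1)
      obtain ⟨δ, hδ1, hδ2, hδ3⟩ := hP a ha0 ha1
      have hdiag : ∀ k, |cj (diagonal a * h) γ k k| ≤ S := by
        intro k
        rw [cj_diagonal hne (fun i => (ha0 i).ne'), div_self (ha0 k).ne', one_mul]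
        exact hγ1 k
      have hoff : ∀ k l, k ≠ l → |cj (diagonal a * h) γ k l| ≤ σ := by
        intro k l hkl
        rw [cj_diagonal hne (fun i => (ha0 i).ne')]
        have h1 := ih k l hkl
        rw [cj_diagonal hne (fun i => (pth_pos _ _ _ i).ne')] at h1
        have h2 : a k / a l * cj h γ k l =
            (pth i j 1 k / pth i j 1 l) * (pth i j n k / pth i j n l * cj h γ k l) := by
          rw [ha, pth_succ i j n k, pth_succ i j n l, mul_div_mul_comm, mul_assoc]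
        rw [h2, abs_mul, abs_of_pos (div_pos (pth_pos _ _ _ _) (pth_pos _ _ _ _))]
        exact mul_le_mul (pth_ratio _ _ _ _) h1 (abs_nonneg _) (Real.exp_pos _).le
      have hdne : (diagonal a * h).det ≠ 0 := by rwa [det_diag ha1]
      have hcomm := commute_of_near hdne (hrig _ (by rw [det_diag ha1, hdet])
        (hasNu_diag hnu ha1)) hS hσ0 hτ hdiag hoff hδ1 hδ2 hη
      exact improve hdne hS hσ0 hσ1 hτ hg hcomm hdiag hoff hδ2 hδ3
  have hzero : ∀ i j, i ≠ j → cj h γ i j = 0 := by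
    intro i j hij
    by_contra hne0
    have h1 : ∀ n : ℕ, Real.exp (2 * n) * |cj h γ i j| ≤ τ₁ := by
      intro n
      have h2 := hkey i j n i j hij
      rw [cj_diagonal hne (fun i => (pth_pos _ _ _ i).ne'), abs_mul,
        abs_of_pos (div_pos (pth_pos _ _ _ _) (pth_pos _ _ _ _))] at h2
      have h3 : pth i j n i / pth i j n j = Real.exp (2 * n) := by
        simp only [pth]
        rw [← Real.exp_sub]
        congr 1
        simp [hij, hij.symm]
        ring
      rwa [h3] at h2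
    have h4 : 0 < |cj h γ i j| := abs_pos.2 hne0
    obtain ⟨n, hn⟩ := exists_nat_gt (τ₁ / |cj h γ i j|)
    rw [div_lt_iff₀ h4] at hn
    have h5 : (n : ℝ) ≤ Real.exp (2 * n) := by
      have := Real.add_one_le_exp (2 * (n : ℝ))
      have hn0 : (0 : ℝ) ≤ n := Nat.cast_nonneg n
      linarith
    have h6 := mul_le_mul_of_nonneg_right h5 h4.le
    linarith [h1 n]
  set c : Fin d → ℝ := fun i => cj h γ i i with hc
  have hcd : cj h γ = diagonal c := by
    ext i j
    by_cases hij : i = j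
    · subst hij
      rw [diagonal_apply_eq]
    · rw [diagonal_apply_ne _ hij, hzero i j hij]
  have hstab : h * zR γ = diagonal c * h := by
    rw [← hcd, cj_mul_right hne]
  refine TH314.CSD.no_injective_stab hd hne hν hnu hint hstab fun i j hij => ?_
  by_contra hne2
  have h1 := hγ3 i j hne2
  simp only [hc] at hij
  rw [hij, sub_self, abs_zero] at h1
  linarith

/-- the other diagonal entries are close to the separated ones -/
lemma cluster {h : Matrix (Fin d) (Fin d) ℝ} {c : ℕ} {S τ g S₁ τ₁ g₁ : ℝ} (hS : S ≤ S₁)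
    (hτ : τ ≤ τ₁) (hg : g₁ ≤ g) (hg₁ : 0 < g₁) {γ : Matrix (Fin d) (Fin d) ℤ}
    {J : Finset (Fin d)} (hJ : J.card = c) (h1 : ∀ i, |cj h γ i i| ≤ S)
    (h2 : ∀ i j, i ≠ j → |cj h γ i j| ≤ τ)
    (h3 : ∀ i ∈ J, ∀ j ∈ J, i ≠ j → g ≤ |cj h γ i i - cj h γ j j|)
    (hQ : ¬ QQ h (c + 1) S₁ τ₁ g₁) :
    ∃ π : Fin d → Fin d, (∀ i, π i ∈ J) ∧ (∀ i ∈ J, π i = i) ∧
      ∀ i, |cj h γ i i - cj h γ (π i) (π i)| < g₁ := by
  classical
  have hex : ∀ i, ∃ j ∈ J, (i ∈ J → j = i) ∧ |cj h γ i i - cj h γ j j| < g₁ := by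
    intro i
    by_cases hi : i ∈ J
    · exact ⟨i, hi, fun _ => rfl, by rwa [sub_self, abs_zero]⟩
    · by_contra hcon
      push Not at hcon
      apply hQ
      refine ⟨γ, insert i J, by rw [Finset.card_insert_of_notMem hi, hJ],
        fun k => (h1 k).trans hS, fun k l hkl => (h2 k l hkl).trans hτ, fun k hk l hl hkl => ?_⟩
      rcases Finset.mem_insert.1 hk with hk' | hk'
      · rcases Finset.mem_insert.1 hl with hl' | hl'
        · exact absurd (hk'.trans hl'.symm) hkl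
        · rw [hk']
          exact hcon l hl' (fun h => absurd h hi)
      · rcases Finset.mem_insert.1 hl with hl' | hl'
        · rw [abs_sub_comm, hl']
          exact hcon k hk' (fun h => absurd h hi)
        · exact hg.trans (h3 k hk' l hl' hkl)
  choose π hπ1 hπ2 hπ3 using hex
  exact ⟨π, hπ1, fun i hi => hπ2 i hi, hπ3⟩

/-- nearly diagonal integer matrices are nearly constant on the clusters -/
lemma twin {h : Matrix (Fin d) (Fin d) ℝ} {c : ℕ} {S τ g S₁ τ₁ g₁ S' τ' : ℝ}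
    (hS : S' + (d : ℝ) ^ 2 * S ≤ S₁)
    (hτ : τ' + (d : ℝ) ^ 2 * τ ≤ τ₁) (hg : 4 * g₁ ≤ g) (hg₁ : 0 < g₁)
    {γ : Matrix (Fin d) (Fin d) ℤ} {J : Finset (Fin d)} (hJ : J.card = c)
    (h1 : ∀ i, |cj h γ i i| ≤ S) (h2 : ∀ i j, i ≠ j → |cj h γ i j| ≤ τ)
    (h3 : ∀ i ∈ J, ∀ j ∈ J, i ≠ j → g ≤ |cj h γ i i - cj h γ j j|)
    (hQ : ¬ QQ h (c + 1) S₁ τ₁ g₁) {π : Fin d → Fin d} (hπ1 : ∀ i, π i ∈ J)
    (hπ2 : ∀ i ∈ J, π i = i) (hπ3 : ∀ i, |cj h γ i i - cj h γ (π i) (π i)| < g₁)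
    {δ : Matrix (Fin d) (Fin d) ℤ} (hδ1 : ∀ i, |cj h δ i i| ≤ S')
    (hδ2 : ∀ i j, i ≠ j → |cj h δ i j| ≤ τ') (i : Fin d) :
    |cj h δ i i - cj h δ (π i) (π i)| < ((d : ℝ) ^ 2 + 1) * g₁ := by
  classical
  by_contra hcon
  push Not at hcon
  have hd2 : (0 : ℝ) ≤ (d : ℝ) ^ 2 := by positivity
  have hiJ : i ∉ J := by
    intro hi
    rw [hπ2 i hi, sub_self, abs_zero] at hcon
    have : 0 < ((d : ℝ) ^ 2 + 1) * g₁ := by positivity
    linarith
  -- a bad pair for each multiple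
  have hbad : ∀ t ∈ Finset.range (d ^ 2 + 1), ∃ p : Fin d × Fin d,
      2 * g₁ ≤ |cj h γ p.1 p.1 - cj h γ p.2 p.2| ∧
      |(cj h δ p.1 p.1 - cj h δ p.2 p.2) + (t : ℝ) * (cj h γ p.1 p.1 - cj h γ p.2 p.2)| < g₁ := by
    intro t ht
    by_contra hno
    push Not at hno
    have ht' : (t : ℝ) ≤ (d : ℝ) ^ 2 := by
      have := Finset.mem_range.1 ht
      have h4 : t ≤ d ^ 2 := by omega
      exact_mod_cast h4
    have ht0 : (0 : ℝ) ≤ t := Nat.cast_nonneg t
    have hcj : cj h (δ + (t : ℤ) • γ) = cj h δ + (t : ℝ) • cj h γ := by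
      rw [cj_add, cj_smul]
      push_cast
      rfl
    have hent : ∀ k l, cj h (δ + (t : ℤ) • γ) k l = cj h δ k l + (t : ℝ) * cj h γ k l := by
      intro k l
      rw [hcj, Matrix.add_apply, Matrix.smul_apply, smul_eq_mul]
    apply hQ
    refine ⟨δ + (t : ℤ) • γ, insert i J, by rw [Finset.card_insert_of_notMem hiJ, hJ],
      fun k => ?_, fun k l hkl => ?_, ?_⟩
    · rw [hent]
      refine (abs_add_le _ _).trans (le_trans ?_ hS)
      rw [abs_mul, abs_of_nonneg ht0]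
      exact add_le_add (hδ1 k) (mul_le_mul ht' (h1 k) (abs_nonneg _) hd2)
    · rw [hent]
      refine (abs_add_le _ _).trans (le_trans ?_ hτ)
      rw [abs_mul, abs_of_nonneg ht0]
      exact add_le_add (hδ2 k l hkl) (mul_le_mul ht' (h2 k l hkl) (abs_nonneg _) hd2)
    · have hfin : ∀ k l, 2 * g₁ ≤ |cj h γ k k - cj h γ l l| →
          g₁ ≤ |cj h (δ + (t : ℤ) • γ) k k - cj h (δ + (t : ℤ) • γ) l l| := by
        intro k l hkl
        rw [hent, hent]
        have h5 : cj h δ k k + (t : ℝ) * cj h γ k k - (cj h δ l l + (t : ℝ) * cj h γ l l) =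
            (cj h δ k k - cj h δ l l) + (t : ℝ) * (cj h γ k k - cj h γ l l) := by ring
        rw [h5]
        exact hno (k, l) hkl
      -- the pairs which contain `i`
      have hi : ∀ l ∈ J, g₁ ≤ |cj h (δ + (t : ℤ) • γ) i i - cj h (δ + (t : ℤ) • γ) l l| := by
        intro l hl
        by_cases hli : l = π i
        · rw [hli, hent, hent]
          have h5 : cj h δ i i + (t : ℝ) * cj h γ i i -
              (cj h δ (π i) (π i) + (t : ℝ) * cj h γ (π i) (π i)) =
              (cj h δ i i - cj h δ (π i) (π i)) - (-((t : ℝ) * (cj h γ i i -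
                cj h γ (π i) (π i)))) := by ring
          rw [h5]
          refine le_trans ?_ (abs_sub_abs_le_abs_sub _ _)
          rw [abs_neg, abs_mul, abs_of_nonneg ht0]
          have h6 : (t : ℝ) * |cj h γ i i - cj h γ (π i) (π i)| ≤ (d : ℝ) ^ 2 * g₁ :=
            mul_le_mul ht' (hπ3 i).le (abs_nonneg _) hd2
          linarith
        · apply hfin
          have h5 := h3 (π i) (hπ1 i) l hl (fun h => hli h.symm)
          have h6 := hπ3 i
          have h7 := abs_sub_le (cj h γ (π i) (π i)) (cj h γ i i) (cj h γ l l)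
          rw [abs_sub_comm (cj h γ (π i) (π i)) (cj h γ i i)] at h7
          linarith
      intro k hk l hl hkl
      rcases Finset.mem_insert.1 hk with hk' | hk'
      · rcases Finset.mem_insert.1 hl with hl' | hl'
        · exact absurd (hk'.trans hl'.symm) hkl
        · rw [hk']
          exact hi l hl'
      · rcases Finset.mem_insert.1 hl with hl' | hl'
        · rw [abs_sub_comm, hl']
          exact hi k hk'
        · apply hfin
          have h5 := h3 k hk' l hl' hkl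
          linarith
  have hnonempty : Nonempty (Fin d × Fin d) := ⟨(i, i)⟩
  choose! p hp1 hp2 using hbad
  obtain ⟨t, ht, t', ht', htt, hpp⟩ := Finset.exists_ne_map_eq_of_card_lt_of_maps_to
    (s := Finset.range (d ^ 2 + 1)) (t := (Finset.univ : Finset (Fin d × Fin d))) (f := p) (by
      rw [Finset.card_range, Finset.card_univ, Fintype.card_prod, Fintype.card_fin]
      nlinarith) (fun _ _ => Finset.mem_univ _)
  have h4 := hp2 t ht
  have h5 := hp2 t' ht'
  rw [← hpp] at h5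
  have h6 := hp1 t ht
  set x := cj h δ (p t).1 (p t).1 - cj h δ (p t).2 (p t).2
  set y := cj h γ (p t).1 (p t).1 - cj h γ (p t).2 (p t).2
  have h7 : |((t : ℝ) - t') * y| < 2 * g₁ := by
    have h8 : ((t : ℝ) - t') * y = (x + t * y) - (x + t' * y) := by ring
    rw [h8]
    refine (abs_sub _ _).trans_lt ?_
    linarith
  rw [abs_mul] at h7
  have h9 : (1 : ℝ) ≤ |(t : ℝ) - t'| := by
    have h10 : (1 : ℤ) ≤ |(t : ℤ) - t'| := Int.one_le_abs (by
      intro h0
      exact htt (by omega))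
    exact_mod_cast h10
  nlinarith [abs_nonneg y]

end Pool.Agent.T6.H49.CSD
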