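import Mathlib
import Pool.Agent.T6.H49.CSD.Shadow

/-! # The clusters of eigenvalues of a nearly diagonal integer matrix have the same size -/

set_option autoImplicit false

open H715R2 Matrix Filter Topology

namespace Pool.Agent.T6.H49.CSD

variable {d e : ℕ}

/-- a small integer polynomial which is small at a given point -/
lemma dirichlet_poly {c : ℕ} (hc : 2 ≤ c) {Z : ℝ} (hZ : 0 < Z) {X : ℕ} (hX : 1 ≤ X) {w : ℕ → ℝ}
    (hw : ∀ j < c, |w j| ≤ Z) :
    ∃ b : ℕ → ℤ, (∃ j < c, b j ≠ 0) ∧ (∀ j, |(b j : ℝ)| ≤ X) ∧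
      |∑ j ∈ Finset.range c, (b j : ℝ) * w j| ≤ 2 * c * Z / (X : ℝ) ^ (c - 1) := by
  classical
  have hX0 : (0 : ℝ) < X := by exact_mod_cast hX
  have hc0 : (0 : ℝ) < c := by
    have : 0 < c := by omega
    exact_mod_cast this
  set Y : ℝ := c * X * Z with hY
  have hY0 : 0 < Y := by positivity
  have hXc : (0 : ℝ) < (X : ℝ) ^ c := by positivity
  set v : (Fin c → Fin (X + 1)) → ℝ := fun b => ∑ j, ((b j : ℕ) : ℝ) * w j with hv
  have hvY : ∀ b, |v b| ≤ Y := by
    intro b
    calc |v b| ≤ ∑ j : Fin c, |((b j : ℕ) : ℝ) * w j| := Finset.abs_sum_le_sum_abs _ _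
      _ ≤ ∑ _j : Fin c, (X : ℝ) * Z := by
          refine Finset.sum_le_sum fun j _ => ?_
          rw [abs_mul, Nat.abs_cast]
          refine mul_le_mul ?_ (hw j j.2) (abs_nonneg _) hX0.le
          have := (b j).2
          exact_mod_cast (by omega : ((b j : ℕ)) ≤ X)
      _ = Y := by
          rw [Finset.sum_const, Finset.card_univ, Fintype.card_fin, nsmul_eq_mul, hY]
          ring
  set cell : (Fin c → Fin (X + 1)) → ℕ := fun b => ⌊(v b + Y) / (2 * Y / (X : ℝ) ^ c)⌋₊ with hcell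
  have hwid : 0 < 2 * Y / (X : ℝ) ^ c := by positivity
  have hmaps : ∀ b ∈ (Finset.univ : Finset (Fin c → Fin (X + 1))), cell b ∈ Finset.range (X ^ c + 1) := by
    intro b _
    rw [Finset.mem_range]
    refine Nat.lt_succ_of_le (Nat.floor_le_of_le ?_)
    rw [div_le_iff₀ hwid]
    have h1 := (abs_le.1 (hvY b)).2
    have h2 : ((X ^ c : ℕ) : ℝ) * (2 * Y / (X : ℝ) ^ c) = 2 * Y := by
      push_cast
      field_simp
    rw [h2]
    linarith
  have hcard : (Finset.range (X ^ c + 1)).card < (Finset.univ : Finset (Fin c → Fin (X + 1))).card := by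
    rw [Finset.card_range, Finset.card_univ, Fintype.card_fun, Fintype.card_fin, Fintype.card_fin]
    obtain ⟨c', rfl⟩ : ∃ c', c = c' + 1 := ⟨c - 1, by omega⟩
    have h1 : X ^ c' < (X + 1) ^ c' := Nat.pow_lt_pow_left (by omega) (by omega)
    have h2 : (X + 1) * (X ^ c' + 1) ≤ (X + 1) * (X + 1) ^ c' := Nat.mul_le_mul_left _ h1
    have h3 : 0 < X ^ c' := Nat.pow_pos (by omega)
    rw [pow_succ, pow_succ]
    nlinarith
  obtain ⟨b, -, b', -, hbb, hcb⟩ := Finset.exists_ne_map_eq_of_card_lt_of_maps_to hcard hmaps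
  have hdiff : |v b - v b'| ≤ 2 * Y / (X : ℝ) ^ c := by
    have h1 := (abs_le.1 (hvY b)).1
    have h2 := (abs_le.1 (hvY b')).1
    have h3 := floor_close (a := (v b + Y) / (2 * Y / (X : ℝ) ^ c))
      (b := (v b' + Y) / (2 * Y / (X : ℝ) ^ c))
      (div_nonneg (by linarith) hwid.le) (div_nonneg (by linarith) hwid.le) hcb
    have h4 : (v b + Y) / (2 * Y / (X : ℝ) ^ c) - (v b' + Y) / (2 * Y / (X : ℝ) ^ c) =
        (v b - v b') / (2 * Y / (X : ℝ) ^ c) := by ring
    rwa [h4, abs_div, abs_of_pos hwid, div_le_one hwid] at h3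
  refine ⟨fun j => if hj : j < c then ((b ⟨j, hj⟩ : ℕ) : ℤ) - ((b' ⟨j, hj⟩ : ℕ) : ℤ) else 0,
    ?_, fun j => ?_, ?_⟩
  · obtain ⟨j, hj⟩ := Function.ne_iff.1 hbb
    refine ⟨j, j.2, ?_⟩
    beta_reduce
    rw [dif_pos j.2]
    intro h0
    apply hj
    apply Fin.ext
    have h1 : ((b j : ℕ) : ℤ) - ((b' j : ℕ) : ℤ) = 0 := h0
    omega
  · beta_reduce
    by_cases hj : j < c
    · rw [dif_pos hj]
      have h1 := (b ⟨j, hj⟩).2
      have h2 := (b' ⟨j, hj⟩).2
      have h3 : |((b ⟨j, hj⟩ : ℕ) : ℤ) - ((b' ⟨j, hj⟩ : ℕ) : ℤ)| ≤ X := by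
        rw [abs_le]
        constructor <;> omega
      exact_mod_cast h3
    · rw [dif_neg hj]
      simp
  · have h1 : ∑ j ∈ Finset.range c, (((if hj : j < c then ((b ⟨j, hj⟩ : ℕ) : ℤ) -
        ((b' ⟨j, hj⟩ : ℕ) : ℤ) else 0 : ℤ)) : ℝ) * w j = v b - v b' := by
      rw [Finset.sum_range, hv]
      simp only
      rw [← Finset.sum_sub_distrib]
      refine Finset.sum_congr rfl fun j _ => ?_
      rw [dif_pos j.2]
      push_cast
      ring
    rw [h1]
    refine hdiff.trans (le_of_eq ?_)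
    rw [hY]
    obtain ⟨c', rfl⟩ : ∃ c', c = c' + 1 := ⟨c - 1, by omega⟩
    rw [Nat.add_sub_cancel, pow_succ]
    field_simp

/-- the image of a vector under the powers of a nearly diagonal matrix -/
lemma power_vec (hd : 0 < d) {h : Matrix (Fin d) (Fin d) ℝ} (hh : h.det ≠ 0) {R S τ : ℝ}
    (hR0 : 0 ≤ R) (hS : 1 ≤ S) (hτ0 : 0 ≤ τ) (hτ1 : τ ≤ 1) {γ : Matrix (Fin d) (Fin d) ℤ}
    (h1 : ∀ i, |cj h γ i i| ≤ S) (h2 : ∀ i j, i ≠ j → |cj h γ i j| ≤ τ) (m : Fin d → ℤ)
    (hm : ∀ i, |(h *ᵥ iR m) i| ≤ R) (j : ℕ) :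
    (∀ i, |(h *ᵥ iR (γ ^ j *ᵥ m)) i| ≤ (d * S) ^ j * R) ∧
    ∀ i, |(h *ᵥ iR (γ ^ j *ᵥ m)) i - cj h γ i i ^ j * (h *ᵥ iR m) i| ≤
      j * d * (d * S) ^ j * R * τ := by
  classical
  have hd1 : (1 : ℝ) ≤ d := by exact_mod_cast hd
  have hall : ∀ i k, |cj h γ i k| ≤ S := by
    intro i k
    by_cases hik : i = k
    · rw [hik]; exact h1 k
    · exact (h2 i k hik).trans (hτ1.trans hS)
  have hstep : ∀ n, h *ᵥ iR (γ ^ (n + 1) *ᵥ m) = cj h γ *ᵥ (h *ᵥ iR (γ ^ n *ᵥ m)) := by
    intro n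
    rw [mulVec_mulVec, cj_mul_right hh, ← mulVec_mulVec, zR_mulVec_iR, mulVec_mulVec, ← pow_succ']
  have hdS : (1 : ℝ) ≤ d * S := by nlinarith
  induction j with
  | zero =>
    refine ⟨fun i => ?_, fun i => ?_⟩
    · simpa using hm i
    · simp
  | succ n ih =>
    obtain ⟨ih1, ih2⟩ := ih
    have hP0 : 0 ≤ (d * S) ^ n * R := by positivity
    refine ⟨fun i => ?_, fun i => ?_⟩
    · rw [hstep, mulVec, dotProduct]
      calc |∑ k, cj h γ i k * (h *ᵥ iR (γ ^ n *ᵥ m)) k| ≤
            ∑ k, |cj h γ i k * (h *ᵥ iR (γ ^ n *ᵥ m)) k| := Finset.abs_sum_le_sum_abs _ _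
        _ ≤ ∑ _k : Fin d, S * ((d * S) ^ n * R) := by
            refine Finset.sum_le_sum fun k _ => ?_
            rw [abs_mul]
            exact mul_le_mul (hall i k) (ih1 k) (abs_nonneg _) (by linarith)
        _ = _ := by
            rw [Finset.sum_const, Finset.card_univ, Fintype.card_fin, nsmul_eq_mul]
            ring
    · have e1 : (h *ᵥ iR (γ ^ (n + 1) *ᵥ m)) i - cj h γ i i ^ (n + 1) * (h *ᵥ iR m) i =
          cj h γ i i * ((h *ᵥ iR (γ ^ n *ᵥ m)) i - cj h γ i i ^ n * (h *ᵥ iR m) i) +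
          ∑ k ∈ Finset.univ.erase i, cj h γ i k * (h *ᵥ iR (γ ^ n *ᵥ m)) k := by
        have e2 : (h *ᵥ iR (γ ^ (n + 1) *ᵥ m)) i =
            ∑ k, cj h γ i k * (h *ᵥ iR (γ ^ n *ᵥ m)) k := by
          rw [hstep]
          rfl
        rw [e2, ← Finset.add_sum_erase _ _ (Finset.mem_univ i)]
        ring
      rw [e1]
      have e3 : |∑ k ∈ Finset.univ.erase i, cj h γ i k * (h *ᵥ iR (γ ^ n *ᵥ m)) k| ≤
          d * (τ * ((d * S) ^ n * R)) := by
        calc |∑ k ∈ Finset.univ.erase i, cj h γ i k * (h *ᵥ iR (γ ^ n *ᵥ m)) k| ≤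
              ∑ k ∈ Finset.univ.erase i, |cj h γ i k * (h *ᵥ iR (γ ^ n *ᵥ m)) k| :=
              Finset.abs_sum_le_sum_abs _ _
          _ ≤ ∑ _k ∈ Finset.univ.erase i, τ * ((d * S) ^ n * R) := by
              refine Finset.sum_le_sum fun k hk => ?_
              rw [abs_mul]
              exact mul_le_mul (h2 i k (Finset.ne_of_mem_erase hk).symm) (ih1 k) (abs_nonneg _) hτ0
          _ ≤ ∑ _k : Fin d, τ * ((d * S) ^ n * R) :=
              Finset.sum_le_sum_of_subset_of_nonneg (Finset.subset_univ _)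
                fun _ _ _ => by positivity
          _ = _ := by rw [Finset.sum_const, Finset.card_univ, Fintype.card_fin, nsmul_eq_mul]
      refine (abs_add_le _ _).trans ?_
      rw [abs_mul]
      have e4 : |cj h γ i i| * |(h *ᵥ iR (γ ^ n *ᵥ m)) i - cj h γ i i ^ n * (h *ᵥ iR m) i| ≤
          S * (n * d * (d * S) ^ n * R * τ) :=
        mul_le_mul (h1 i) (ih2 i) (abs_nonneg _) (by linarith)
      have e5 : S * (n * d * (d * S) ^ n * R * τ) ≤ (d * S) * (n * d * (d * S) ^ n * R * τ) := by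
        refine mul_le_mul_of_nonneg_right ?_ (by positivity)
        nlinarith
      have e6 : d * (τ * ((d * S) ^ n * R)) ≤ (d * S) * (d * (τ * ((d * S) ^ n * R))) := by
        have : 0 ≤ d * (τ * ((d * S) ^ n * R)) := by positivity
        nlinarith
      calc |cj h γ i i| * |(h *ᵥ iR (γ ^ n *ᵥ m)) i - cj h γ i i ^ n * (h *ᵥ iR m) i| +
            |∑ k ∈ Finset.univ.erase i, cj h γ i k * (h *ᵥ iR (γ ^ n *ᵥ m)) k| ≤
            (d * S) * (n * d * (d * S) ^ n * R * τ) + (d * S) * (d * (τ * ((d * S) ^ n * R))) := by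
              linarith
        _ = _ := by
            push_cast
            ring

lemma adj_le {c : ℕ} {W : Matrix (Fin c) (Fin c) ℝ} {x : ℝ} (hx : 1 ≤ x)
    (hW : ∀ i j, |W i j| ≤ x) (i j : Fin c) : |W.adjugate i j| ≤ c.factorial * x ^ c := by
  classical
  rw [Matrix.adjugate_apply]
  have h1 := Matrix.det_le (abv := AbsoluteValue.abs) (A := W.updateRow j (Pi.single i 1))
    (x := x) (by
      intro k l
      rw [AbsoluteValue.abs_apply, Matrix.updateRow_apply]
      split_ifs with hk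
      · by_cases hl : l = i
        · subst hl
          simpa using hx
        · rw [Pi.single_eq_of_ne hl, abs_zero]
          linarith
      · exact hW k l)
  rw [AbsoluteValue.abs_apply, Fintype.card_fin, nsmul_eq_mul] at h1
  exact h1

/-- **The clusters have the same size.** -/
theorem fibres (hd : 0 < d) {h : Matrix (Fin d) (Fin d) ℝ} (hh : h.det ≠ 0)
    {ν R S τ g ω : ℝ} {X : ℕ} (hν : 0 < ν) (hnu : HasNu h ν) (hR1 : 1 ≤ R)
    (hR : ∀ i j, |h i j| ≤ R) (hS : 1 ≤ S) (hτ0 : 0 ≤ τ) (hτ1 : τ ≤ 1) (hg0 : 0 < g)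
    (hg1 : g ≤ 1) (hω : 0 ≤ ω) (hX : 1 ≤ X) {γ : Matrix (Fin d) (Fin d) ℤ} {c : ℕ}
    {J : Finset (Fin d)} (hJ : J.card = c) (h1 : ∀ i, |cj h γ i i| ≤ S)
    (h2 : ∀ i j, i ≠ j → |cj h γ i j| ≤ τ)
    (h3 : ∀ i ∈ J, ∀ j ∈ J, i ≠ j → g ≤ |cj h γ i i - cj h γ j j|) {π : Fin d → Fin d}
    (hπ3 : ∀ i, |cj h γ i i - cj h γ (π i) (π i)| ≤ ω)
    (hA : (d ^ 3 * (d * S) ^ d * R * τ + d ^ 2 * S ^ d * ω * R) * (X : ℝ) ^ d ≤ 1)
    (hB : (2 * d * S ^ d * R + 1) ^ d < ν * X)
    (hC : d * (d.factorial * (S ^ d) ^ d) * (X * (d ^ 3 * (d * S) ^ d * R * τ) * R ^ d / ν) <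
      g ^ (d ^ 2)) (a : Fin d) :
    c * (Finset.univ.filter fun i => π i = a).card ≤ d := by
  classical
  by_contra hcon
  push Not at hcon
  set s := (Finset.univ.filter fun i => π i = a).card with hs
  have hsd : s ≤ d := by
    refine (Finset.card_le_univ _).trans ?_
    rw [Fintype.card_fin]
  have hcd : c ≤ d := by
    rw [← hJ]
    refine (Finset.card_le_univ _).trans ?_
    rw [Fintype.card_fin]
  have hc2 : 2 ≤ c := by
    by_contra hlt
    have : c ≤ 1 := by omega
    have : c * s ≤ 1 * s := Nat.mul_le_mul_right _ this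
    omega
  have hX1 : (1 : ℝ) ≤ X := by exact_mod_cast hX
  have hX0 : (0 : ℝ) < X := by linarith
  have hd1 : (1 : ℝ) ≤ d := by exact_mod_cast hd
  have hd0 : (0 : ℝ) < d := by linarith
  have hS0 : 0 < S := by linarith
  have hR0 : 0 < R := by linarith
  have hSd : 1 ≤ S ^ d := one_le_pow₀ hS
  have hcdR : (c : ℝ) ≤ d := by exact_mod_cast hcd
  have hdS : (1 : ℝ) ≤ d * S := by nlinarith
  -- the polynomial
  obtain ⟨b, ⟨j₀, hj₀, hbj₀⟩, hbX, hbs⟩ := dirichlet_poly hc2 (Z := S ^ d) (by positivity) hX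
    (w := fun j => cj h γ a a ^ j) (fun j hj => by
      rw [abs_pow]
      exact (pow_le_pow_left₀ (abs_nonneg _) (h1 a) j).trans (pow_le_pow_right₀ hS (by omega)))
  -- the integer point
  set e0 : Fin d → ℤ := Pi.single ⟨0, hd⟩ 1 with he0
  have he0ne : e0 ≠ 0 := by
    intro h0
    have := congrFun h0 ⟨0, hd⟩
    simp [he0] at this
  have hx : ∀ i, (h *ᵥ iR e0) i = h i ⟨0, hd⟩ := by
    intro i
    have h4 : iR e0 = Pi.single ⟨0, hd⟩ 1 := by
      funext k
      simp only [iR, he0]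
      by_cases hk : k = ⟨0, hd⟩
      · subst hk; simp
      · rw [Pi.single_eq_of_ne hk, Pi.single_eq_of_ne hk]; simp
    rw [h4]
    simp
  have hxR : ∀ i, |(h *ᵥ iR e0) i| ≤ R := fun i => by rw [hx]; exact hR _ _
  have hxκ : ∀ i, ν ≤ |(h *ᵥ iR e0) i| * R ^ d := by
    intro i
    have h4 := hnu e0 he0ne
    rw [FF_eq, Finset.abs_prod, ← Finset.mul_prod_erase _ _ (Finset.mem_univ i)] at h4
    refine h4.trans (mul_le_mul_of_nonneg_left ?_ (abs_nonneg _))
    calc ∏ k ∈ Finset.univ.erase i, |(h *ᵥ iR e0) k| ≤ ∏ _k ∈ Finset.univ.erase i, R :=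
          Finset.prod_le_prod (fun _ _ => abs_nonneg _) fun k _ => hxR k
      _ = R ^ (Finset.univ.erase i).card := by rw [Finset.prod_const]
      _ ≤ R ^ d := by
          refine pow_le_pow_right₀ hR1 ?_
          refine (Finset.card_le_univ _).trans ?_
          rw [Fintype.card_fin]
  set y : Fin d → ℤ := ∑ j ∈ Finset.range c, b j • (γ ^ j *ᵥ e0) with hy
  have hhy : ∀ i, (h *ᵥ iR y) i = ∑ j ∈ Finset.range c, (b j : ℝ) * (h *ᵥ iR (γ ^ j *ᵥ e0)) i := by
    intro i
    have h4 : iR y = ∑ j ∈ Finset.range c, (b j : ℝ) • iR (γ ^ j *ᵥ e0) := by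
      funext k
      simp only [iR, hy, Finset.sum_apply, Pi.smul_apply, smul_eq_mul]
      push_cast
      rfl
    rw [h4, Matrix.mulVec_sum, Finset.sum_apply]
    refine Finset.sum_congr rfl fun j _ => ?_
    rw [Matrix.mulVec_smul, Pi.smul_apply, smul_eq_mul]
  set f : ℝ → ℝ := fun t => ∑ j ∈ Finset.range c, (b j : ℝ) * t ^ j with hf
  set θ1 : ℝ := d ^ 3 * (d * S) ^ d * R * τ with hθ1
  set θ2 : ℝ := d ^ 2 * S ^ d * ω * R with hθ2
  have hθ10 : 0 ≤ θ1 := by positivity
  have hθ20 : 0 ≤ θ2 := by positivity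
  have herr : ∀ i, |(h *ᵥ iR y) i - f (cj h γ i i) * (h *ᵥ iR e0) i| ≤ X * θ1 := by
    intro i
    have h4 : (h *ᵥ iR y) i - f (cj h γ i i) * (h *ᵥ iR e0) i = ∑ j ∈ Finset.range c,
        (b j : ℝ) * ((h *ᵥ iR (γ ^ j *ᵥ e0)) i - cj h γ i i ^ j * (h *ᵥ iR e0) i) := by
      rw [hhy, hf]
      simp only
      rw [Finset.sum_mul, ← Finset.sum_sub_distrib]
      refine Finset.sum_congr rfl fun j _ => ?_
      ring
    rw [h4]
    calc |∑ j ∈ Finset.range c, (b j : ℝ) *
          ((h *ᵥ iR (γ ^ j *ᵥ e0)) i - cj h γ i i ^ j * (h *ᵥ iR e0) i)| ≤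
          ∑ j ∈ Finset.range c, |(b j : ℝ) *
          ((h *ᵥ iR (γ ^ j *ᵥ e0)) i - cj h γ i i ^ j * (h *ᵥ iR e0) i)| :=
          Finset.abs_sum_le_sum_abs _ _
      _ ≤ ∑ _j ∈ Finset.range c, (X : ℝ) * (d * d * (d * S) ^ d * R * τ) := by
          refine Finset.sum_le_sum fun j hj => ?_
          have hjd : j ≤ d := by
            have := Finset.mem_range.1 hj
            omega
          rw [abs_mul]
          refine mul_le_mul (hbX j) ?_ (abs_nonneg _) hX0.le
          refine ((power_vec hd hh hR0.le hS hτ0 hτ1 h1 h2 e0 hxR j).2 i).trans ?_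
          have h5 : (j : ℝ) ≤ d := by exact_mod_cast hjd
          have h6 : (d * S) ^ j ≤ (d * S) ^ d := pow_le_pow_right₀ hdS hjd
          have h7 : (j : ℝ) * d * (d * S) ^ j ≤ d * d * (d * S) ^ d :=
            mul_le_mul (mul_le_mul_of_nonneg_right h5 hd0.le) h6 (by positivity) (by positivity)
          have h8 : (j : ℝ) * d * (d * S) ^ j * (R * τ) ≤ d * d * (d * S) ^ d * (R * τ) :=
            mul_le_mul_of_nonneg_right h7 (by positivity)
          linarith
      _ = c * ((X : ℝ) * (d * d * (d * S) ^ d * R * τ)) := by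
          rw [Finset.sum_const, Finset.card_range, nsmul_eq_mul]
      _ ≤ d * ((X : ℝ) * (d * d * (d * S) ^ d * R * τ)) :=
          mul_le_mul_of_nonneg_right hcdR (by positivity)
      _ = X * θ1 := by
          rw [hθ1]
          ring
  have hfdiff : ∀ i, |f (cj h γ i i) - f (cj h γ (π i) (π i))| * R ≤ X * θ2 := by
    intro i
    have h4 : f (cj h γ i i) - f (cj h γ (π i) (π i)) = ∑ j ∈ Finset.range c,
        (b j : ℝ) * (cj h γ i i ^ j - cj h γ (π i) (π i) ^ j) := by
      rw [hf]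
      simp only
      rw [← Finset.sum_sub_distrib]
      refine Finset.sum_congr rfl fun j _ => ?_
      ring
    have h5 : |f (cj h γ i i) - f (cj h γ (π i) (π i))| ≤ d * (X * (ω * d * S ^ d)) := by
      rw [h4]
      calc |∑ j ∈ Finset.range c, (b j : ℝ) * (cj h γ i i ^ j - cj h γ (π i) (π i) ^ j)| ≤
            ∑ j ∈ Finset.range c, |(b j : ℝ) * (cj h γ i i ^ j - cj h γ (π i) (π i) ^ j)| :=
            Finset.abs_sum_le_sum_abs _ _
        _ ≤ ∑ _j ∈ Finset.range c, (X : ℝ) * (ω * d * S ^ d) := by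
            refine Finset.sum_le_sum fun j hj => ?_
            have hjd : j ≤ d := by
              have := Finset.mem_range.1 hj
              omega
            rw [abs_mul]
            refine mul_le_mul (hbX j) ?_ (abs_nonneg _) hX0.le
            refine (abs_pow_sub_pow_le _ _ _).trans ?_
            have h6 : (j : ℝ) ≤ d := by exact_mod_cast hjd
            refine mul_le_mul (mul_le_mul (hπ3 i) h6 (by positivity) hω) ?_ (by positivity)
              (by positivity)
            exact (pow_le_pow_left₀ (by positivity) (max_le (h1 i) (h1 _)) _).trans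
              (pow_le_pow_right₀ hS (by omega))
        _ = c * ((X : ℝ) * (ω * d * S ^ d)) := by
            rw [Finset.sum_const, Finset.card_range, nsmul_eq_mul]
        _ ≤ _ := mul_le_mul_of_nonneg_right hcdR (by positivity)
    calc |f (cj h γ i i) - f (cj h γ (π i) (π i))| * R ≤ d * (X * (ω * d * S ^ d)) * R :=
          mul_le_mul_of_nonneg_right h5 hR0.le
      _ = X * θ2 := by
          rw [hθ2]
          ring
  have hcoord : ∀ i, |(h *ᵥ iR y) i| ≤ |f (cj h γ (π i) (π i))| * R + X * (θ1 + θ2) := by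
    intro i
    have h4 := herr i
    have h5 := hfdiff i
    have h6 : |f (cj h γ i i)| ≤ |f (cj h γ (π i) (π i))| +
        |f (cj h γ i i) - f (cj h γ (π i) (π i))| := by
      have := abs_add_le (f (cj h γ (π i) (π i))) (f (cj h γ i i) - f (cj h γ (π i) (π i)))
      rwa [add_sub_cancel] at this
    have h7 : |f (cj h γ i i) * (h *ᵥ iR e0) i| ≤ |f (cj h γ (π i) (π i))| * R + X * θ2 := by
      rw [abs_mul]
      calc |f (cj h γ i i)| * |(h *ᵥ iR e0) i| ≤ |f (cj h γ i i)| * R :=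
            mul_le_mul_of_nonneg_left (hxR i) (abs_nonneg _)
        _ ≤ (|f (cj h γ (π i) (π i))| + |f (cj h γ i i) - f (cj h γ (π i) (π i))|) * R :=
            mul_le_mul_of_nonneg_right h6 hR0.le
        _ ≤ _ := by linarith
    have h8 := abs_add_le ((h *ᵥ iR y) i - f (cj h γ i i) * (h *ᵥ iR e0) i)
      (f (cj h γ i i) * (h *ᵥ iR e0) i)
    rw [sub_add_cancel] at h8
    linarith
  set Y : ℝ := 2 * d * S ^ d * R + 1 with hY
  have hY1 : 1 ≤ Y := by
    have : 0 < 2 * d * S ^ d * R := by positivity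
    linarith
  have hXθ : X * (θ1 + θ2) ≤ 1 / (X : ℝ) ^ (c - 1) := by
    rw [le_div_iff₀ (by positivity)]
    refine le_trans ?_ hA
    have h4 : (X : ℝ) * (X : ℝ) ^ (c - 1) = (X : ℝ) ^ c := by
      rw [← pow_succ']
      congr 1
      omega
    calc (X : ℝ) * (θ1 + θ2) * (X : ℝ) ^ (c - 1) = (θ1 + θ2) * (X : ℝ) ^ c := by
          rw [← h4]; ring
      _ ≤ (θ1 + θ2) * (X : ℝ) ^ d :=
          mul_le_mul_of_nonneg_left (pow_le_pow_right₀ hX1 hcd) (by positivity)
  have hXθ1 : X * (θ1 + θ2) ≤ X := by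
    refine hXθ.trans ?_
    have : 1 / (X : ℝ) ^ (c - 1) ≤ 1 := by
      rw [div_le_one (by positivity)]
      exact one_le_pow₀ hX1
    linarith
  have hin : ∀ i, π i = a → |(h *ᵥ iR y) i| ≤ Y / (X : ℝ) ^ (c - 1) := by
    intro i hi
    have h4 := hcoord i
    rw [hi] at h4
    have h5 : |f (cj h γ a a)| * R ≤ (2 * c * S ^ d / (X : ℝ) ^ (c - 1)) * R :=
      mul_le_mul_of_nonneg_right hbs hR0.le
    have h6 : (2 * c * S ^ d / (X : ℝ) ^ (c - 1)) * R ≤ (2 * d * S ^ d * R) / (X : ℝ) ^ (c - 1) := by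
      rw [div_mul_eq_mul_div]
      refine div_le_div_of_nonneg_right ?_ (by positivity)
      have : (c : ℝ) * (2 * S ^ d * R) ≤ d * (2 * S ^ d * R) :=
        mul_le_mul_of_nonneg_right hcdR (by positivity)
      linarith
    rw [hY, add_div]
    linarith
  have hout : ∀ i, |(h *ᵥ iR y) i| ≤ Y * X := by
    intro i
    have h4 := hcoord i
    have h5 : |f (cj h γ (π i) (π i))| ≤ d * (X * S ^ d) := by
      rw [hf]
      simp only
      calc |∑ j ∈ Finset.range c, (b j : ℝ) * cj h γ (π i) (π i) ^ j| ≤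
            ∑ j ∈ Finset.range c, |(b j : ℝ) * cj h γ (π i) (π i) ^ j| :=
            Finset.abs_sum_le_sum_abs _ _
        _ ≤ ∑ _j ∈ Finset.range c, (X : ℝ) * S ^ d := by
            refine Finset.sum_le_sum fun j hj => ?_
            have hjd : j ≤ d := by
              have := Finset.mem_range.1 hj
              omega
            rw [abs_mul, abs_pow]
            exact mul_le_mul (hbX j) ((pow_le_pow_left₀ (abs_nonneg _) (h1 _) j).trans
              (pow_le_pow_right₀ hS hjd)) (by positivity) hX0.le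
        _ = c * ((X : ℝ) * S ^ d) := by rw [Finset.sum_const, Finset.card_range, nsmul_eq_mul]
        _ ≤ _ := mul_le_mul_of_nonneg_right hcdR (by positivity)
    have h6 : |f (cj h γ (π i) (π i))| * R ≤ d * (X * S ^ d) * R :=
      mul_le_mul_of_nonneg_right h5 hR0.le
    have h7 : Y * X = 2 * (d * (X * S ^ d) * R) + X := by
      rw [hY]
      ring
    have h8 : 0 ≤ d * (X * S ^ d) * R := by positivity
    linarith
  have hprod : |FF h (iR y)| < ν := by
    rw [FF_eq, Finset.abs_prod, ← Finset.prod_filter_mul_prod_filter_not Finset.univ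
      (fun i => π i = a)]
    have h4 : ∏ i ∈ Finset.univ.filter (fun i => π i = a), |(h *ᵥ iR y) i| ≤
        (Y / (X : ℝ) ^ (c - 1)) ^ s := by
      rw [hs, ← Finset.prod_const]
      exact Finset.prod_le_prod (fun _ _ => abs_nonneg _)
        fun i hi => hin i (Finset.mem_filter.1 hi).2
    have hcard2 : (Finset.univ.filter fun i => ¬ π i = a).card = d - s := by
      have h5 := Finset.card_filter_add_card_filter_not (s := (Finset.univ : Finset (Fin d)))
        (fun i => π i = a)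
      rw [Finset.card_univ, Fintype.card_fin] at h5
      omega
    have h5 : ∏ i ∈ Finset.univ.filter (fun i => ¬ π i = a), |(h *ᵥ iR y) i| ≤
        (Y * X) ^ (d - s) := by
      rw [← hcard2, ← Finset.prod_const]
      exact Finset.prod_le_prod (fun _ _ => abs_nonneg _) fun i _ => hout i
    refine lt_of_le_of_lt (mul_le_mul h4 h5 (Finset.prod_nonneg fun _ _ => abs_nonneg _)
      (by positivity)) ?_
    have h6 : (Y / (X : ℝ) ^ (c - 1)) ^ s * (Y * X) ^ (d - s) =
        Y ^ d * ((X : ℝ) ^ (d - s) / (X : ℝ) ^ ((c - 1) * s)) := by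
      rw [div_pow, mul_pow, ← pow_mul]
      have h7 : Y ^ d = Y ^ s * Y ^ (d - s) := by
        rw [← pow_add]
        congr 1
        omega
      rw [h7]
      ring
    rw [h6]
    have h7 : (X : ℝ) ^ (d - s) / (X : ℝ) ^ ((c - 1) * s) ≤ 1 / X := by
      rw [div_le_div_iff₀ (by positivity) hX0, one_mul, ← pow_succ]
      refine pow_le_pow_right₀ hX1 ?_
      obtain ⟨c', rfl⟩ : ∃ c', c = c' + 1 := ⟨c - 1, by omega⟩
      rw [Nat.add_sub_cancel]
      have : (c' + 1) * s = c' * s + s := by ring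
      omega
    calc Y ^ d * ((X : ℝ) ^ (d - s) / (X : ℝ) ^ ((c - 1) * s)) ≤ Y ^ d * (1 / X) :=
          mul_le_mul_of_nonneg_left h7 (by positivity)
      _ < ν := by
          rw [mul_one_div, div_lt_iff₀ hX0]
          exact hB
  have hy0 : y = 0 := by
    by_contra hne
    exact absurd (hnu y hne) (not_le.2 hprod)
  -- the polynomial is small at all the separated entries
  set ζ : ℝ := X * θ1 * R ^ d / ν with hζ
  have hζ0 : 0 ≤ ζ := by positivity
  have hsmall : ∀ i, |f (cj h γ i i)| ≤ ζ := by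
    intro i
    have h4 := herr i
    have h5 : (h *ᵥ iR y) i = 0 := by
      rw [hy0]
      have : iR (0 : Fin d → ℤ) = 0 := by
        funext k
        simp [iR]
      rw [this, mulVec_zero, Pi.zero_apply]
    rw [h5, zero_sub, abs_neg, abs_mul] at h4
    rw [hζ, le_div_iff₀ hν]
    calc |f (cj h γ i i)| * ν ≤ |f (cj h γ i i)| * (|(h *ᵥ iR e0) i| * R ^ d) :=
          mul_le_mul_of_nonneg_left (hxκ i) (abs_nonneg _)
      _ = |f (cj h γ i i)| * |(h *ᵥ iR e0) i| * R ^ d := by ring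
      _ ≤ X * θ1 * R ^ d := mul_le_mul_of_nonneg_right h4 (by positivity)
  -- the Vandermonde matrix
  let t : Fin c ≃ J := (Fintype.equivFinOfCardEq (by rw [Fintype.card_coe, hJ])).symm
  set W : Matrix (Fin c) (Fin c) ℝ := vandermonde fun p => cj h γ (t p) (t p) with hW
  have hWe : ∀ p j, |W p j| ≤ S ^ d := by
    intro p j
    rw [hW, vandermonde_apply, abs_pow]
    exact (pow_le_pow_left₀ (abs_nonneg _) (h1 _) _).trans
      (pow_le_pow_right₀ hS (by have := j.2; omega))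
  have hWb : W *ᵥ (fun j : Fin c => (b j : ℝ)) = fun p => f (cj h γ (t p) (t p)) := by
    funext p
    rw [mulVec, dotProduct, hf]
    simp only
    rw [Finset.sum_range]
    refine Finset.sum_congr rfl fun j _ => ?_
    rw [hW, vandermonde_apply]
    ring
  have hadj : W.det * (b j₀ : ℝ) = ∑ p, W.adjugate ⟨j₀, hj₀⟩ p * f (cj h γ (t p) (t p)) := by
    have h4 : W.adjugate *ᵥ (W *ᵥ (fun j : Fin c => (b j : ℝ))) =
        W.det • (fun j : Fin c => (b j : ℝ)) := by
      rw [mulVec_mulVec, Matrix.adjugate_mul, Matrix.smul_mulVec, Matrix.one_mulVec]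
    rw [hWb] at h4
    have h5 := congrFun h4 ⟨j₀, hj₀⟩
    rw [Pi.smul_apply, smul_eq_mul] at h5
    rw [← h5]
    rfl
  have hdet1 : |W.det| ≤ d * (d.factorial * (S ^ d) ^ d) * ζ := by
    have h4 : |W.det| ≤ |W.det * (b j₀ : ℝ)| := by
      rw [abs_mul]
      have h5 : (1 : ℝ) ≤ |(b j₀ : ℝ)| := by
        have := Int.one_le_abs hbj₀
        exact_mod_cast this
      exact le_mul_of_one_le_right (abs_nonneg _) h5
    refine h4.trans ?_
    rw [hadj]
    calc |∑ p, W.adjugate ⟨j₀, hj₀⟩ p * f (cj h γ (t p) (t p))| ≤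
          ∑ p, |W.adjugate ⟨j₀, hj₀⟩ p * f (cj h γ (t p) (t p))| := Finset.abs_sum_le_sum_abs _ _
      _ ≤ ∑ _p : Fin c, (d.factorial * (S ^ d) ^ d) * ζ := by
          refine Finset.sum_le_sum fun p _ => ?_
          rw [abs_mul]
          refine mul_le_mul ?_ (hsmall _) (abs_nonneg _) (by positivity)
          refine (adj_le hSd hWe _ _).trans ?_
          refine mul_le_mul ?_ (pow_le_pow_right₀ hSd hcd) (by positivity) (by positivity)
          exact_mod_cast Nat.factorial_le hcd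
      _ = c * ((d.factorial * (S ^ d) ^ d) * ζ) := by
          rw [Finset.sum_const, Finset.card_univ, Fintype.card_fin, nsmul_eq_mul]
      _ ≤ d * ((d.factorial * (S ^ d) ^ d) * ζ) := mul_le_mul_of_nonneg_right hcdR (by positivity)
      _ = _ := by ring
  have hdet2 : g ^ (d ^ 2) ≤ |W.det| := by
    rw [hW, det_vandermonde, Finset.abs_prod]
    have h4 : ∀ p : Fin c, g ^ d ≤ |∏ j ∈ Finset.Ioi p, (cj h γ (t j) (t j) - cj h γ (t p) (t p))| := by
      intro p
      rw [Finset.abs_prod]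
      calc g ^ d ≤ g ^ (Finset.Ioi p).card := by
            refine pow_le_pow_of_le_one hg0.le hg1 ?_
            refine (Finset.card_le_univ _).trans ?_
            rw [Fintype.card_fin]
            exact hcd
        _ = ∏ _j ∈ Finset.Ioi p, g := by rw [Finset.prod_const]
        _ ≤ _ := by
            refine Finset.prod_le_prod (fun _ _ => hg0.le) fun j hj => ?_
            have hne : (t j : Fin d) ≠ t p := by
              intro h5
              have h6 := t.injective (Subtype.ext h5)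
              rw [Finset.mem_Ioi, h6] at hj
              exact lt_irrefl _ hj
            exact h3 _ (t j).2 _ (t p).2 hne
    calc g ^ (d ^ 2) = (g ^ d) ^ d := by rw [← pow_mul]; ring_nf
      _ ≤ (g ^ d) ^ c := pow_le_pow_of_le_one (by positivity) (pow_le_one₀ hg0.le hg1) hcd
      _ = ∏ _p : Fin c, g ^ d := by rw [Finset.prod_const, Finset.card_univ, Fintype.card_fin]
      _ ≤ _ := Finset.prod_le_prod (fun _ _ => by positivity) fun p _ => h4 p
  exact absurd (hdet2.trans hdet1) (not_le.2 hC)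

/-- the number of clusters -/
lemma card_le_div {π : Fin d → Fin d} {J : Finset (Fin d)} {c : ℕ} (hJ : J.card = c)
    (hc : 0 < c) (hcd : c < d) (hπ : ∀ i, π i ∈ J)
    (hfib : ∀ a ∈ J, c * (Finset.univ.filter fun i => π i = a).card ≤ d) : c ≤ d / d.minFac := by
  classical
  have h1 : ∑ a ∈ J, (Finset.univ.filter fun i => π i = a).card = d := by
    have := Finset.card_eq_sum_card_fiberwise (s := (Finset.univ : Finset (Fin d))) (t := J)
      (f := π) (fun i _ => hπ i)
    rw [Finset.card_univ, Fintype.card_fin] at this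
    exact this.symm
  have h2 : ∑ a ∈ J, c * (Finset.univ.filter fun i => π i = a).card = ∑ _a ∈ J, d := by
    rw [← Finset.mul_sum, h1, Finset.sum_const, hJ, smul_eq_mul]
  obtain ⟨a, ha⟩ : J.Nonempty := by
    rw [← Finset.card_pos, hJ]
    exact hc
  have h3 : c * (Finset.univ.filter fun i => π i = a).card = d := by
    by_contra hne
    have h4 : c * (Finset.univ.filter fun i => π i = a).card < d := lt_of_le_of_ne (hfib a ha) hne
    have h5 := Finset.sum_lt_sum hfib ⟨a, ha, h4⟩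
    rw [h2] at h5
    exact lt_irrefl _ h5
  set s := (Finset.univ.filter fun i => π i = a).card with hs
  have hs1 : s ≠ 1 := by
    intro h4
    rw [h4, mul_one] at h3
    omega
  have hs0 : s ≠ 0 := by
    intro h4
    rw [h4, mul_zero] at h3
    omega
  have h4 : d.minFac ≤ s := Nat.minFac_le_of_dvd (by omega) ⟨c, by rw [mul_comm]; exact h3.symm⟩
  rw [Nat.le_div_iff_mul_le (Nat.minFac_pos d)]
  calc c * d.minFac ≤ c * s := Nat.mul_le_mul_left _ h4
    _ = d := h3

end Pool.Agent.T6.H49.CSD
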