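import Mathlib
import Pool.Agent.T6.H49.CSD.Fibres
import Pool.Agent.TH314.CSD.Count

/-! # The complexity of the orbit of a counterexample -/

set_option autoImplicit false

open H715R2 Matrix Filter Topology

namespace Pool.Agent.T6.H49.CSD

open TH314.CSD (plc plc_sum plc_inj plc_le pla pla_pos pla_prod)

variable {d e : ℕ}

/-- `x` and `y` agree up to `ε`, up to a bounded diagonal matrix and an integral change of
variables -/
def Cl (K ε : ℝ) (x y : Matrix (Fin d) (Fin d) ℝ) : Prop :=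
  ∃ (b : Fin d → ℝ) (E : Matrix (Fin d) (Fin d) ℝ) (γ : Matrix (Fin d) (Fin d) ℤ),
    (∀ i, 1 / K ≤ b i ∧ b i ≤ K) ∧ (∀ i j, |E i j| ≤ ε) ∧ IsUnit γ.det ∧
    x = diagonal b * (1 + E) * y * zR γ

lemma qz {q z C : ℝ} (hz : 0 < z) (hz1 : z ≤ 1) (hqz : q * z = 1) (hC : C ≤ q)
    {a b : ℕ} (hab : a + 1 ≤ b) : C * q ^ a * z ^ b ≤ 1 := by
  obtain ⟨k, rfl⟩ := Nat.exists_eq_add_of_le hab
  have h1 : q ^ a * z ^ (a + 1 + k) = z * z ^ k := by
    rw [pow_add, pow_add, pow_one, ← mul_assoc, ← mul_assoc, ← mul_pow, hqz, one_pow, one_mul]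
  have h2 : z ^ k ≤ 1 := pow_le_one₀ hz.le hz1
  rw [mul_assoc, h1]
  calc C * (z * z ^ k) ≤ q * (z * z ^ k) := mul_le_mul_of_nonneg_right hC (by positivity)
    _ = z ^ k := by rw [← mul_assoc, hqz, one_mul]
    _ ≤ 1 := h2

/-- the number of places in a class -/
lemma class_card {n L c : ℕ} (𝓕 : Finset (Fin e → Fin (n + 1))) {J : Finset (Fin (e + 1))}
    (hJ : J.card = c) {π : Fin (e + 1) → Fin (e + 1)} (hπ1 : ∀ i, π i ∈ J)
    (hπ2 : ∀ i ∈ J, π i = i) (u₀ : Fin e → Fin (n + 1))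
    (hF : ∀ u ∈ 𝓕, ∀ i, |(plc u i - plc u (π i)) - (plc u₀ i - plc u₀ (π i))| ≤ (L : ℤ)) :
    𝓕.card ≤ (2 * L + 1) ^ (e + 1) * (n + 1) ^ (c - 1) := by
  classical
  set Φ : (Fin e → Fin (n + 1)) → Fin (e + 1) → ℤ := fun u i =>
    (plc u i - plc u (π i)) - (plc u₀ i - plc u₀ (π i)) with hΦ
  set T : Finset (Fin (e + 1) → ℤ) := Fintype.piFinset fun _ => Finset.Icc (-(L : ℤ)) L with hT
  have hTcard : T.card = (2 * L + 1) ^ (e + 1) := by
    rw [hT, Fintype.card_piFinset, Finset.prod_const, Finset.card_univ, Fintype.card_fin,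
      Int.card_Icc]
    congr 1
    omega
  have hmaps : ∀ u ∈ 𝓕, Φ u ∈ T := by
    intro u hu
    rw [hT, Fintype.mem_piFinset]
    intro i
    rw [Finset.mem_Icc, ← abs_le]
    exact hF u hu i
  have h1 := Finset.card_le_mul_card_image_of_maps_to (f := Φ) (s := 𝓕) (t := T) hmaps
    ((n + 1) ^ (c - 1)) (fun τ _ => ?_)
  · rw [hTcard] at h1
    rw [mul_comm]
    exact h1
  set R : Finset (Fin (e + 1)) := J.erase (π 0) with hR
  have hRcard : R.card = c - 1 := by
    rw [hR, Finset.card_erase_of_mem (hπ1 0), hJ]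
  set P : Finset (R → ℤ) := Fintype.piFinset fun _ => Finset.Icc (0 : ℤ) n with hP
  have hPcard : P.card = (n + 1) ^ (c - 1) := by
    rw [hP, Fintype.card_piFinset, Finset.prod_const, Finset.card_univ, Fintype.card_coe,
      Int.card_Icc, hRcard]
    rfl
  rw [← hPcard]
  refine Finset.card_le_card_of_injOn (fun u => fun r : R => plc u r.1) ?_ ?_
  · intro u hu
    rw [Finset.mem_coe, Finset.mem_filter] at hu
    rw [Finset.mem_coe, hP, Fintype.mem_piFinset]
    intro r
    have hr0 : r.1 ≠ 0 := by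
      intro h0
      have h2 := Finset.mem_erase.1 r.2
      rw [h0] at h2
      exact h2.1 (hπ2 0 h2.2).symm
    obtain ⟨j, hj⟩ := Fin.exists_succ_eq.2 hr0
    beta_reduce
    rw [← hj]
    simp only [plc, Fin.cons_succ, Finset.mem_Icc]
    have := (u j).is_lt
    constructor <;> omega
  · intro u hu u' hu' heq
    rw [Finset.mem_coe, Finset.mem_filter] at hu hu'
    apply plc_inj
    set v : Fin (e + 1) → ℤ := fun i => plc u i - plc u' i with hv
    have hvπ : ∀ i, v i = v (π i) := by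
      intro i
      have h2 := congrFun (hu.2.trans hu'.2.symm) i
      simp only [hΦ] at h2
      simp only [hv]
      linarith
    have hv0 : ∀ a ∈ J, a ≠ π 0 → v a = 0 := by
      intro a ha ha0
      have h2 := congrFun heq ⟨a, Finset.mem_erase.2 ⟨ha0, ha⟩⟩
      simp only at h2
      simp only [hv]
      linarith
    have hsum : ∑ i, v i = 0 := by
      simp only [hv]
      rw [Finset.sum_sub_distrib, plc_sum, plc_sum, sub_zero]
    have h3 : ∑ i, v i = ((Finset.univ.filter fun i => π i = π 0).card : ℤ) * v (π 0) := by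
      rw [← Finset.sum_filter_add_sum_filter_not Finset.univ (fun i => π i = π 0)]
      have h4 : ∑ i ∈ Finset.univ.filter (fun i => ¬ π i = π 0), v i = 0 := by
        refine Finset.sum_eq_zero fun i hi => ?_
        rw [hvπ]
        exact hv0 _ (hπ1 i) (Finset.mem_filter.1 hi).2
      rw [h4, add_zero, ← nsmul_eq_mul, ← Finset.sum_const]
      refine Finset.sum_congr rfl fun i hi => ?_
      rw [hvπ, (Finset.mem_filter.1 hi).2]
    rw [hsum] at h3
    have h4 : ((Finset.univ.filter fun i => π i = π 0).card : ℤ) ≠ 0 := by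
      have : 0 < (Finset.univ.filter fun i => π i = π 0).card :=
        Finset.card_pos.2 ⟨0, Finset.mem_filter.2 ⟨Finset.mem_univ _, rfl⟩⟩
      exact_mod_cast this.ne'
    have h5 : v (π 0) = 0 := by
      rcases mul_eq_zero.1 h3.symm with h | h
      · exact absurd h h4
      · exact h
    funext i
    have h6 : v i = 0 := by
      rw [hvπ]
      by_cases hi : π i = π 0
      · rw [hi]; exact h5
      · exact hv0 _ (hπ1 i) hi
    simp only [hv] at h6
    linarith

/-- the scales -/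
structure Scale (d : ℕ) (q z η R ν : ℝ) (β T x : ℕ) : Prop where
  hq : 4 ≤ q
  hqd : 1 + (d : ℝ) ^ 2 ≤ q
  hz : 0 < z
  hqz : q * z = 1
  hx : x = d ^ 3 + 1
  hβ : β = d ^ 2 + d * x + 2
  hT : T = (β + d) * d ^ 2 + d ^ 3 + x + d ^ 2 + 3 * d + β + 1
  hq1 : Real.exp 2 * (2 + 2 * d) ≤ q
  hq2 : ((4 + 2 * d) * (Real.exp 2 * (2 + 2 * d))) / η ≤ q
  hq3 : ((d : ℝ) ^ (d + 3) + d ^ 2) * R ≤ q
  hq4 : (2 * d * R + 1) ^ d / ν < q
  hq5 : d * d.factorial * (d ^ 3 * d ^ d * R * R ^ d / ν) < q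

lemma Scale.z_le {q z η R ν : ℝ} {β T x : ℕ} (h : Scale d q z η R ν β T x) : z ≤ 1 / 4 := by
  have h1 := h.hq
  have h2 := h.hqz
  have h3 := h.hz
  nlinarith

/-- at some point of the orbit the number of separated eigenvalues drops -/
theorem exists_level_drop (hd : 3 ≤ d) {V ν η R q z : ℝ} {β T x : ℕ} (hV : 0 < V) (hν : 0 < ν)
    (hη : 0 < η) (hR1 : 1 ≤ R)
    (hrig : ∀ h : Matrix (Fin d) (Fin d) ℝ, |h.det| = V → HasNu h ν →
      ∀ C : Matrix (Fin d) (Fin d) ℤ, (∀ i j, |cj h C i j| ≤ η) → C = 0)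
    (hbd : ∀ h : Matrix (Fin d) (Fin d) ℝ, |h.det| = V → HasNu h ν →
      ∃ γ : Matrix (Fin d) (Fin d) ℤ, IsUnit γ.det ∧ ∀ i j, |(h * zR γ) i j| ≤ R)
    (hs : Scale d q z η R ν β T x) {X : ℕ} (hX : (X : ℝ) = q ^ x)
    {g : Matrix (Fin d) (Fin d) ℝ} (hdet : |g.det| = V) (hnu : HasNu g ν) (hint : ¬ PropInt g) :
    ∃ a : Fin d → ℝ, (∀ i, 0 < a i) ∧ ∏ i, a i = 1 ∧
      ∃ (c : ℕ) (J : Finset (Fin d)) (π : Fin d → Fin d), 1 ≤ c ∧ c ≤ d / d.minFac ∧
        J.card = c ∧ (∀ i, π i ∈ J) ∧ (∀ i ∈ J, π i = i) ∧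
        ∀ δ : Matrix (Fin d) (Fin d) ℤ, (∀ i, |cj (diagonal a * g) δ i i| ≤ q) →
          (∀ i j, i ≠ j → |cj (diagonal a * g) δ i j| ≤ z ^ (T + d)) →
          ∀ i, |cj (diagonal a * g) δ i i - cj (diagonal a * g) δ (π i) (π i)| < z / 2 := by
  classical
  have hd0 : 0 < d := by omega
  have hz := hs.hz
  have hz4 := hs.z_le
  have hz1 : z ≤ 1 := by linarith
  have hqz := hs.hqz
  have hq := hs.hq
  have hq0 : 0 < q := by linarith
  have hq1 : 1 ≤ q := by linarith
  have hdR : (3 : ℝ) ≤ d := by exact_mod_cast hd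
  have hpowz : ∀ n : ℕ, z ^ n ≤ 1 := fun n => pow_le_one₀ hz.le hz1
  have hcancel : ∀ n : ℕ, q ^ n * z ^ n = 1 := fun n => by rw [← mul_pow, hqz, one_pow]
  -- the failure at the last level
  obtain ⟨a, ha0, ha1, hfail⟩ := exists_fail hd hV hν hrig (S := q ^ d) (τ := z ^ T)
    (g := z ^ (β + d)) (by positivity) (by positivity) (by positivity) (by
      have h1 : z ^ T / z ^ (β + d) = z ^ (T - (β + d)) := by
        rw [div_eq_iff (by positivity), ← pow_add]
        congr 1
        have := hs.hT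
        omega
      have h2 : 2 * q ^ d + 2 * d ≤ (2 + 2 * d) * q ^ d := by
        have : 1 ≤ q ^ d := one_le_pow₀ hq1
        nlinarith
      rw [mul_div_assoc, h1]
      calc Real.exp 2 * ((2 * q ^ d + 2 * d) * z ^ (T - (β + d))) ≤
            Real.exp 2 * (((2 + 2 * d) * q ^ d) * z ^ (T - (β + d))) := by
              refine mul_le_mul_of_nonneg_left ?_ (Real.exp_pos _).le
              exact mul_le_mul_of_nonneg_right h2 (by positivity)
        _ = Real.exp 2 * (2 + 2 * d) * q ^ d * z ^ (T - (β + d)) := by ring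
        _ ≤ 1 := qz hz hz1 hqz hs.hq1 (by have := hs.hT; omega)) (by
      have h1 : z ^ T / z ^ (β + d) = z ^ (T - (β + d)) := by
        rw [div_eq_iff (by positivity), ← pow_add]
        congr 1
        have := hs.hT
        omega
      have h3 : 1 ≤ q ^ d := one_le_pow₀ hq1
      have h2 : 2 * q ^ d + 2 * d ≤ (2 + 2 * d) * q ^ d := by nlinarith
      set σ : ℝ := Real.exp 2 * ((2 * q ^ d + 2 * d) * z ^ T / z ^ (β + d)) with hσ
      have hσle : σ ≤ Real.exp 2 * (2 + 2 * d) * q ^ d * z ^ (T - (β + d)) := by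
        rw [hσ, mul_div_assoc, h1]
        calc Real.exp 2 * ((2 * q ^ d + 2 * d) * z ^ (T - (β + d))) ≤
              Real.exp 2 * (((2 + 2 * d) * q ^ d) * z ^ (T - (β + d))) := by
                refine mul_le_mul_of_nonneg_left ?_ (Real.exp_pos _).le
                exact mul_le_mul_of_nonneg_right h2 (by positivity)
          _ = _ := by ring
      have hσ0 : 0 ≤ σ := by positivity
      have hτσ : z ^ T ≤ σ := by
        rw [hσ, mul_div_assoc, h1]
        have h4 : z ^ T ≤ z ^ (T - (β + d)) := pow_le_pow_of_le_one hz.le hz1 (by omega)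
        have h5 : 1 ≤ Real.exp 2 := Real.one_le_exp (by norm_num)
        have h6 : 1 ≤ 2 * q ^ d + 2 * d := by linarith
        have h7 : 0 < z ^ (T - (β + d)) := by positivity
        calc z ^ T ≤ 1 * (1 * z ^ (T - (β + d))) := by rw [one_mul, one_mul]; exact h4
          _ ≤ Real.exp 2 * ((2 * q ^ d + 2 * d) * z ^ (T - (β + d))) :=
              mul_le_mul h5 (mul_le_mul_of_nonneg_right h6 h7.le) (by positivity)
                (Real.exp_pos _).le
      have hτ1 : z ^ T ≤ 1 := hpowz T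
      have h4 : 2 * q ^ d * σ + 2 * q ^ d * z ^ T + 2 * d * (σ * z ^ T) ≤
          ((4 + 2 * d) * q ^ d) * σ := by
        have h5 : 2 * q ^ d * z ^ T ≤ 2 * q ^ d * σ :=
          mul_le_mul_of_nonneg_left hτσ (by positivity)
        have h6 : 2 * (d : ℝ) * (σ * z ^ T) ≤ 2 * d * q ^ d * σ := by
          have h7 : σ * z ^ T ≤ σ * q ^ d := mul_le_mul_of_nonneg_left (hτ1.trans h3) hσ0
          have h8 := mul_le_mul_of_nonneg_left h7 (by positivity : (0 : ℝ) ≤ 2 * d)
          linarith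
        linarith
      refine h4.trans ?_
      have h5 : ((4 + 2 * d) * q ^ d) * σ ≤ ((4 + 2 * d) * q ^ d) *
          (Real.exp 2 * (2 + 2 * d) * q ^ d * z ^ (T - (β + d))) :=
        mul_le_mul_of_nonneg_left hσle (by positivity)
      refine h5.trans ?_
      have h6 := qz hz hz1 hqz hs.hq2 (a := 2 * d) (b := T - (β + d)) (by have := hs.hT; omega)
      have h7 : ((4 + 2 * d) * q ^ d) * (Real.exp 2 * (2 + 2 * d) * q ^ d * z ^ (T - (β + d))) =
          η * (((4 + 2 * d) * (Real.exp 2 * (2 + 2 * d))) / η * q ^ (2 * d) *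
            z ^ (T - (β + d))) := by
        rw [two_mul d, pow_add]
        field_simp
      rw [h7]
      calc η * (((4 + 2 * d) * (Real.exp 2 * (2 + 2 * d))) / η * q ^ (2 * d) *
            z ^ (T - (β + d))) ≤ η * 1 := mul_le_mul_of_nonneg_left h6 hη.le
        _ = η := mul_one η) hdet hnu hint
  refine ⟨a, ha0, ha1, ?_⟩
  set h := diagonal a * g with hh
  have hdeth : |h.det| = V := by rw [hh, det_diag ha1, hdet]
  have hnuh : HasNu h ν := hasNu_diag hnu ha1
  have hne : h.det ≠ 0 := by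
    intro h0
    rw [h0, abs_zero] at hdeth
    exact hV.ne hdeth
  -- the level where the number of eigenvalues drops
  obtain ⟨c, hc1, hcd, hQ, hQ'⟩ : ∃ c : ℕ, 1 ≤ c ∧ c < d ∧
      QQ h c (q ^ c) (z ^ (T + d - c)) (z ^ (β + c)) ∧
      ¬ QQ h (c + 1) (q ^ (c + 1)) (z ^ (T + d - (c + 1))) (z ^ (β + (c + 1))) := by
    by_contra hcon
    push Not at hcon
    have hall : ∀ c : ℕ, 1 ≤ c → c ≤ d → QQ h c (q ^ c) (z ^ (T + d - c)) (z ^ (β + c)) := by
      intro c hc
      induction c, hc using Nat.le_induction with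
      | base =>
        intro _
        refine ⟨1, {⟨0, hd0⟩}, Finset.card_singleton _, fun i => ?_, fun i j hij => ?_,
          fun i hi j hj hij => ?_⟩
        · rw [cj_one hne, Matrix.one_apply_eq, abs_one]
          exact one_le_pow₀ hq1
        · rw [cj_one hne, Matrix.one_apply_ne hij, abs_zero]
          positivity
        · rw [Finset.mem_singleton] at hi hj
          exact absurd (hi.trans hj.symm) hij
      | succ c hc ih =>
        intro hcd
        exact hcon c hc (by omega) (ih (by omega))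
    apply hfail
    have h1 := hall d (by omega) le_rfl
    rwa [Nat.add_sub_cancel] at h1
  obtain ⟨γ, J, hJ, h1, h2, h3⟩ := hQ
  have hzc : z ^ (β + (c + 1)) = z * z ^ (β + c) := by
    rw [← pow_succ']
    rfl
  have hg₁ : 0 < z ^ (β + (c + 1)) := by positivity
  obtain ⟨π, hπ1, hπ2, hπ3⟩ := cluster (S₁ := q ^ (c + 1)) (τ₁ := z ^ (T + d - (c + 1)))
    (g₁ := z ^ (β + (c + 1))) (pow_le_pow_right₀ hq1 (by omega))
    (pow_le_pow_of_le_one hz.le hz1 (by omega)) (pow_le_pow_of_le_one hz.le hz1 (by omega)) hg₁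
    hJ h1 h2 h3 hQ'
  have hRc := hbd h hdeth hnuh
  obtain ⟨δ₀, hδ₀, hδR⟩ := hRc
  -- equal size of the clusters
  have hSd : (q ^ c) ^ d ≤ q ^ (d ^ 2) := by
    rw [← pow_mul]
    refine pow_le_pow_right₀ hq1 ?_
    rw [pow_two]
    exact Nat.mul_le_mul_right _ hcd.le
  have hτT : z ^ (T + d - c) ≤ z ^ T := pow_le_pow_of_le_one hz.le hz1 (by omega)
  have hfib : ∀ b : Fin d, c * (Finset.univ.filter fun i => π i = b).card ≤ d := by
    have hne' : (h * zR δ₀).det ≠ 0 := by
      rw [Matrix.det_mul, det_zR]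
      refine mul_ne_zero hne ?_
      intro h0
      have := abs_det_of_isUnit hδ₀
      rw [h0, abs_zero] at this
      exact zero_ne_one this
    have hnu' : HasNu (h * zR δ₀) ν := by
      have h4 : h * zR δ₀ ∈ closure (Orb h) := by
        refine subset_closure ⟨fun _ => 1, δ₀, fun _ => one_pos, by simp, hδ₀, ?_⟩
        rw [diagonal_one, Matrix.one_mul]
      exact hasNu_closure hnuh h4
    have hν0 : 0 < ν := hν
    intro b
    refine fibres hd0 hne' (X := X) (R := R) (S := q ^ c) (τ := z ^ (T + d - c))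
      (g := z ^ (β + c)) (ω := z ^ (β + (c + 1))) (γ := δ₀⁻¹ * γ * δ₀) (J := J) (π := π) hν hnu' hR1
      hδR (one_le_pow₀ hq1) (by positivity) (hpowz _) (by positivity) (hpowz _) (by positivity)
      ?_ hJ ?_ ?_ ?_ ?_ ?_ ?_ ?_ b
    · have : (1 : ℝ) ≤ X := by rw [hX]; exact one_le_pow₀ hq1
      exact_mod_cast this
    · intro i; rw [cj_unimod hne hδ₀]; exact h1 i
    · intro i j hij; rw [cj_unimod hne hδ₀]; exact h2 i j hij
    · intro i hi j hj hij; rw [cj_unimod hne hδ₀]; exact h3 i hi j hj hij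
    · intro i; rw [cj_unimod hne hδ₀]; exact (hπ3 i).le
    · -- the first condition
      have e1 : (d : ℝ) ^ 3 * (d * q ^ c) ^ d * R * z ^ (T + d - c) ≤
          (d ^ (d + 3) * R) * (q ^ (d ^ 2) * z ^ β) := by
        have e2 : z ^ (T + d - c) ≤ z ^ β := pow_le_pow_of_le_one hz.le hz1 (by
          have := hs.hT
          omega)
        calc (d : ℝ) ^ 3 * (d * q ^ c) ^ d * R * z ^ (T + d - c) =
              (d ^ (d + 3) * R) * ((q ^ c) ^ d * z ^ (T + d - c)) := by
                rw [mul_pow, pow_add]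
                ring
          _ ≤ (d ^ (d + 3) * R) * (q ^ (d ^ 2) * z ^ β) := by
              refine mul_le_mul_of_nonneg_left ?_ (by positivity)
              exact mul_le_mul hSd e2 (by positivity) (by positivity)
      have e3 : (d : ℝ) ^ 2 * (q ^ c) ^ d * z ^ (β + (c + 1)) * R ≤
          (d ^ 2 * R) * (q ^ (d ^ 2) * z ^ β) := by
        have e2 : z ^ (β + (c + 1)) ≤ z ^ β := pow_le_pow_of_le_one hz.le hz1 (by omega)
        calc (d : ℝ) ^ 2 * (q ^ c) ^ d * z ^ (β + (c + 1)) * R =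
              (d ^ 2 * R) * ((q ^ c) ^ d * z ^ (β + (c + 1))) := by ring
          _ ≤ _ := by
              refine mul_le_mul_of_nonneg_left ?_ (by positivity)
              exact mul_le_mul hSd e2 (by positivity) (by positivity)
      have hXd : (X : ℝ) ^ d = q ^ (x * d) := by rw [hX, ← pow_mul]
      calc ((d : ℝ) ^ 3 * (d * q ^ c) ^ d * R * z ^ (T + d - c) +
            d ^ 2 * (q ^ c) ^ d * z ^ (β + (c + 1)) * R) * (X : ℝ) ^ d ≤
            ((d ^ (d + 3) * R) * (q ^ (d ^ 2) * z ^ β) + (d ^ 2 * R) * (q ^ (d ^ 2) * z ^ β)) *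
              (X : ℝ) ^ d := mul_le_mul_of_nonneg_right (add_le_add e1 e3) (by positivity)
        _ = ((d : ℝ) ^ (d + 3) + d ^ 2) * R * q ^ (d ^ 2 + x * d) * z ^ β := by
            rw [hXd, pow_add q (d ^ 2) (x * d)]
            ring
        _ ≤ 1 := qz hz hz1 hqz hs.hq3 (by
            have := hs.hβ
            have h4 : d * x = x * d := mul_comm _ _
            omega)
    · -- the second condition
      have e1 : 2 * (d : ℝ) * (q ^ c) ^ d * R + 1 ≤ (2 * d * R + 1) * q ^ (d ^ 2) := by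
        have e2 : 2 * (d : ℝ) * (q ^ c) ^ d * R ≤ 2 * d * q ^ (d ^ 2) * R := by
          refine mul_le_mul_of_nonneg_right ?_ (by linarith)
          exact mul_le_mul_of_nonneg_left hSd (by positivity)
        have e3 : 1 ≤ q ^ (d ^ 2) := one_le_pow₀ hq1
        linarith
      calc (2 * (d : ℝ) * (q ^ c) ^ d * R + 1) ^ d ≤ ((2 * d * R + 1) * q ^ (d ^ 2)) ^ d :=
            pow_le_pow_left₀ (by positivity) e1 d
        _ = (2 * d * R + 1) ^ d * q ^ (d ^ 3) := by
            rw [mul_pow, ← pow_mul]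
            congr 2
        _ < ν * q * q ^ (d ^ 3) := by
            refine mul_lt_mul_of_pos_right ?_ (by positivity)
            have := hs.hq4
            rw [div_lt_iff₀ hν] at this
            linarith
        _ = ν * X := by
            rw [hX, hs.hx, pow_succ]
            ring
    · -- the third condition
      have e1 : ((q ^ c) ^ d) ^ d ≤ q ^ (d ^ 3) := by
        calc ((q ^ c) ^ d) ^ d ≤ (q ^ (d ^ 2)) ^ d := pow_le_pow_left₀ (by positivity) hSd d
          _ = q ^ (d ^ 3) := by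
              rw [← pow_mul]
              congr 1
      have e2 : (d : ℝ) ^ 3 * (d * q ^ c) ^ d * R * z ^ (T + d - c) ≤
          d ^ 3 * d ^ d * R * (q ^ (d ^ 2) * z ^ T) := by
        calc (d : ℝ) ^ 3 * (d * q ^ c) ^ d * R * z ^ (T + d - c) =
              d ^ 3 * d ^ d * R * ((q ^ c) ^ d * z ^ (T + d - c)) := by
                rw [mul_pow]
                ring
          _ ≤ _ := by
              refine mul_le_mul_of_nonneg_left ?_ (by positivity)
              exact mul_le_mul hSd hτT (by positivity) (by positivity)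
      set B : ℕ := (β + c) * d ^ 2 with hBdef
      have e5 : d ^ 3 + x + d ^ 2 + 1 + B ≤ T := by
        have h4 := hs.hT
        have h5 : (β + c) * d ^ 2 ≤ (β + d) * d ^ 2 := Nat.mul_le_mul_right _ (by omega)
        omega
      obtain ⟨k, hk⟩ := Nat.exists_eq_add_of_le e5
      have e6 : q ^ (d ^ 3) * q ^ x * q ^ (d ^ 2) * q * z ^ T ≤ z ^ B := by
        have h6 : q ^ (d ^ 3) * q ^ x * q ^ (d ^ 2) * q = q ^ (d ^ 3 + x + d ^ 2 + 1) := by
          rw [pow_add, pow_add, pow_add, pow_one]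
        have h7 : z ^ T = z ^ (d ^ 3 + x + d ^ 2 + 1) * (z ^ B * z ^ k) := by
          rw [hk, pow_add, pow_add, mul_assoc]
        rw [h6, h7, ← mul_assoc, hcancel, one_mul]
        exact mul_le_of_le_one_right (by positivity) (hpowz k)
      have e7 : (z ^ (β + c)) ^ (d ^ 2) = z ^ B := by rw [← pow_mul]
      rw [e7]
      refine lt_of_lt_of_le ?_ e6
      calc (d : ℝ) * (d.factorial * ((q ^ c) ^ d) ^ d) *
            (X * (d ^ 3 * (d * q ^ c) ^ d * R * z ^ (T + d - c)) * R ^ d / ν) ≤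
            (d : ℝ) * (d.factorial * q ^ (d ^ 3)) *
            (X * (d ^ 3 * d ^ d * R * (q ^ (d ^ 2) * z ^ T)) * R ^ d / ν) := by
              refine mul_le_mul ?_ ?_ (by positivity) (by positivity)
              · refine mul_le_mul_of_nonneg_left ?_ (by positivity)
                exact mul_le_mul_of_nonneg_left e1 (by positivity)
              · refine div_le_div_of_nonneg_right ?_ hν.le
                refine mul_le_mul_of_nonneg_right ?_ (by positivity)
                exact mul_le_mul_of_nonneg_left e2 (by positivity)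
        _ = (d * d.factorial * (d ^ 3 * d ^ d * R * R ^ d / ν)) *
            (q ^ (d ^ 3) * q ^ x * q ^ (d ^ 2) * z ^ T) := by
              rw [hX]
              ring
        _ < q * (q ^ (d ^ 3) * q ^ x * q ^ (d ^ 2) * z ^ T) :=
              mul_lt_mul_of_pos_right hs.hq5 (by positivity)
        _ = _ := by ring
  refine ⟨c, J, π, hc1, card_le_div hJ (by omega) hcd hπ1 (fun b _ => hfib b), hJ, hπ1, hπ2,
    fun δ hδ1 hδ2 i => ?_⟩
  have h4 := twin (S' := q) (τ' := z ^ (T + d)) (S₁ := q ^ (c + 1))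
    (τ₁ := z ^ (T + d - (c + 1))) (g₁ := z ^ (β + (c + 1))) (by
      have h5 : q ≤ q ^ c := by
        calc q = q ^ 1 := (pow_one q).symm
          _ ≤ q ^ c := pow_le_pow_right₀ hq1 hc1
      calc q + (d : ℝ) ^ 2 * q ^ c ≤ (1 + (d : ℝ) ^ 2) * q ^ c := by linarith
        _ ≤ q * q ^ c := mul_le_mul_of_nonneg_right hs.hqd (by positivity)
        _ = q ^ (c + 1) := by rw [pow_succ']) (by
      have h5 : z ^ (T + d) ≤ z ^ (T + d - c) := pow_le_pow_of_le_one hz.le hz1 (by omega)
      have h6 : z ^ (T + d - c) = z * z ^ (T + d - (c + 1)) := by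
        rw [← pow_succ']
        congr 1
        omega
      calc z ^ (T + d) + (d : ℝ) ^ 2 * z ^ (T + d - c) ≤
            (1 + (d : ℝ) ^ 2) * z ^ (T + d - c) := by linarith
        _ ≤ q * z ^ (T + d - c) := mul_le_mul_of_nonneg_right hs.hqd (by positivity)
        _ = z ^ (T + d - (c + 1)) := by rw [h6, ← mul_assoc, hqz, one_mul]) (by
      rw [hzc]
      have h5 : 0 < z ^ (β + c) := by positivity
      nlinarith) hg₁ hJ h1 h2 h3 hQ' hπ1 hπ2 hπ3 hδ1 hδ2 i
  refine h4.trans_le ?_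
  -- the gap is small
  obtain ⟨k, hk⟩ : ∃ k, β + (c + 1) = 3 + k := ⟨β + (c + 1) - 3, by
    have := hs.hβ
    omega⟩
  rw [hk, pow_add]
  calc ((d : ℝ) ^ 2 + 1) * (z ^ 3 * z ^ k) ≤ q * (z ^ 3 * 1) := by
        refine mul_le_mul (by linarith [hs.hqd]) ?_ (by positivity) (by positivity)
        exact mul_le_mul_of_nonneg_left (hpowz k) (by positivity)
    _ = (q * z) * z ^ 2 := by ring
    _ = z ^ 2 := by rw [hqz, one_mul]
    _ ≤ z / 2 := by nlinarith

end Pool.Agent.T6.H49.CSD
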