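import Mathlib
import Pool.Agent.T6.H49.CSD.Complex

/-! # The complexity of the orbit of a counterexample: the main theorem -/

set_option autoImplicit false

open H715R2 Matrix Filter Topology

namespace Pool.Agent.T6.H49.CSD

open TH314.CSD (plc plc_sum plc_inj plc_le pla pla_pos pla_prod)

variable {d e : ℕ}

lemma cl_entry {h : Matrix (Fin d) (Fin d) ℝ} (hh : h.det ≠ 0) {p p' b : Fin d → ℝ}
    (hp : ∀ i, p i ≠ 0) {E : Matrix (Fin d) (Fin d) ℝ} {γ : Matrix (Fin d) (Fin d) ℤ}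
    (hγ : IsUnit γ.det)
    (heq : diagonal p * h = diagonal b * (1 + E) * (diagonal p' * h) * zR γ) (i j : Fin d) :
    cj h γ⁻¹ i j = (p i)⁻¹ * b i * (1 + E) i j * p' j := by
  have hu := isUnit_iff_ne_zero.2 hh
  have h0 : diagonal (fun i => (p i)⁻¹) * diagonal p = 1 := by
    rw [diagonal_mul_diagonal, ← diagonal_one]
    congr 1
    funext i
    exact inv_mul_cancel₀ (hp i)
  have h1 : h * zR γ⁻¹ = diagonal (fun i => (p i)⁻¹) * diagonal b * (1 + E) * diagonal p' * h := by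
    calc h * zR γ⁻¹ = (diagonal (fun i => (p i)⁻¹) * diagonal p) * h * zR γ⁻¹ := by
          rw [h0, Matrix.one_mul]
      _ = diagonal (fun i => (p i)⁻¹) * (diagonal p * h) * zR γ⁻¹ := by
          simp only [Matrix.mul_assoc]
      _ = diagonal (fun i => (p i)⁻¹) * (diagonal b * (1 + E) * (diagonal p' * h)) *
          (zR γ * zR γ⁻¹) := by
          rw [heq]
          simp only [Matrix.mul_assoc]
      _ = _ := by
          rw [zR_inv hγ, Matrix.mul_one]
          simp only [Matrix.mul_assoc]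
  have h2 : cj h γ⁻¹ = diagonal (fun i => (p i)⁻¹ * b i) * (1 + E) * diagonal p' := by
    rw [cj, h1, diagonal_mul_diagonal]
    calc diagonal (fun i => (p i)⁻¹ * b i) * (1 + E) * diagonal p' * h * h⁻¹ =
          diagonal (fun i => (p i)⁻¹ * b i) * (1 + E) * diagonal p' * (h * h⁻¹) := by
            simp only [Matrix.mul_assoc]
      _ = _ := by rw [Matrix.mul_nonsing_inv _ hu, Matrix.mul_one]
  rw [h2, mul_diagonal, diagonal_mul]

/-- two places in the same class -/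
lemma class_close {h : Matrix (Fin (e + 1)) (Fin (e + 1)) ℝ} (hh : h.det ≠ 0) (he : 1 ≤ e)
    {q z K ε : ℝ} {N L n : ℕ} (hz : 0 < z) (hqz : q * z = 1) (hK : 1 ≤ K)
    (hL : Real.log (6 * K ^ 2) ≤ L) (hn : 2 * K * Real.exp (4 * (e * n)) ≤ q)
    (hε0 : 0 ≤ ε) (hε : ε ≤ 1 / 2) (hεz : ε ≤ z ^ (N + 1))
    {π : Fin (e + 1) → Fin (e + 1)}
    (hπ : ∀ δ : Matrix (Fin (e + 1)) (Fin (e + 1)) ℤ, (∀ i, |cj h δ i i| ≤ q) →
      (∀ i j, i ≠ j → |cj h δ i j| ≤ z ^ N) →
      ∀ i, |cj h δ i i - cj h δ (π i) (π i)| < z / 2)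
    {u u' : Fin e → Fin (n + 1)} (hcl : Cl K ε (diagonal (pla u) * h) (diagonal (pla u') * h))
    (i : Fin (e + 1)) :
    |(plc u i - plc u (π i)) - (plc u' i - plc u' (π i))| ≤ (L : ℤ) := by
  obtain ⟨b, E, γ, hb, hE, hγ, heq⟩ := hcl
  have hent := cl_entry hh (fun i => (pla_pos u i).ne') hγ heq
  have hK0 : 0 < K := by linarith
  have hq0 : 0 < q := by
    by_contra hneg
    have : q * z ≤ 0 := mul_nonpos_of_nonpos_of_nonneg (not_lt.1 hneg) hz.le
    linarith
  -- the ratio of the places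
  have hrat : ∀ i j, (pla u i)⁻¹ * pla u' j = Real.exp (2 * ((plc u' j : ℝ) - plc u i)) := by
    intro i j
    rw [pla, pla, ← Real.exp_neg, ← Real.exp_add]
    congr 1
    ring
  have hplc : ∀ (w : Fin e → Fin (n + 1)) i, |(plc w i : ℝ)| ≤ e * n := by
    intro w i
    have := plc_le he w i
    exact_mod_cast this
  have hrle : ∀ i j, Real.exp (2 * ((plc u' j : ℝ) - plc u i)) ≤ Real.exp (4 * (e * n)) := by
    intro i j
    refine Real.exp_le_exp.2 ?_
    have h1 := (abs_le.1 (hplc u' j)).2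
    have h2 := (abs_le.1 (hplc u i)).1
    linarith
  have hrge : ∀ i j, Real.exp (-(4 * (e * n))) ≤ Real.exp (2 * ((plc u' j : ℝ) - plc u i)) := by
    intro i j
    refine Real.exp_le_exp.2 ?_
    have h1 := (abs_le.1 (hplc u' j)).1
    have h2 := (abs_le.1 (hplc u i)).2
    linarith
  have hb0 : ∀ i, 0 < b i := fun i => lt_of_lt_of_le (by positivity) (hb i).1
  -- the diagonal entries
  have hdiag : ∀ i, cj h γ⁻¹ i i = b i * (1 + E i i) * Real.exp (2 * ((plc u' i : ℝ) - plc u i)) := by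
    intro i
    rw [hent, Matrix.add_apply, Matrix.one_apply_eq, ← hrat]
    ring
  have hE1 : ∀ i, 1 / 2 ≤ 1 + E i i ∧ 1 + E i i ≤ 3 / 2 := by
    intro i
    have h1 := abs_le.1 ((hE i i).trans hε)
    constructor <;> linarith [h1.1, h1.2]
  have hpos : ∀ i, 0 < cj h γ⁻¹ i i := by
    intro i
    rw [hdiag]
    have := (hE1 i).1
    have h2 := hb0 i
    have h3 : 0 < 1 + E i i := by linarith
    positivity
  have hEN : Real.exp (4 * (e * n)) * Real.exp (-(4 * (e * n))) = 1 := by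
    rw [← Real.exp_add]
    simp
  have hlow : ∀ i, z ≤ cj h γ⁻¹ i i := by
    intro i
    rw [hdiag]
    have h1 : 1 / K * (1 / 2) * Real.exp (-(4 * (e * n))) ≤
        b i * (1 + E i i) * Real.exp (2 * ((plc u' i : ℝ) - plc u i)) := by
      refine mul_le_mul (mul_le_mul (hb i).1 (hE1 i).1 (by norm_num) (hb0 i).le) (hrge i i)
        (Real.exp_pos _).le ?_
      have := (hE1 i).1
      have h2 := hb0 i
      have h3 : 0 < 1 + E i i := by linarith
      positivity
    refine le_trans ?_ h1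
    have h2 : z * (2 * K * Real.exp (4 * (e * n))) ≤ 1 := by
      calc z * (2 * K * Real.exp (4 * (e * n))) ≤ z * q := mul_le_mul_of_nonneg_left hn hz.le
        _ = 1 := by rw [mul_comm]; exact hqz
    calc z = z * (2 * K * Real.exp (4 * (e * n))) *
          (1 / K * (1 / 2) * Real.exp (-(4 * (e * n)))) := by
            have h3 : z * (2 * K * Real.exp (4 * (e * n))) *
              (1 / K * (1 / 2) * Real.exp (-(4 * (e * n)))) =
              z * (K * (1 / K)) * (Real.exp (4 * (e * n)) * Real.exp (-(4 * (e * n)))) := by ring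
            rw [h3, hEN, mul_one_div_cancel hK0.ne']
            ring
      _ ≤ 1 * (1 / K * (1 / 2) * Real.exp (-(4 * (e * n)))) :=
          mul_le_mul_of_nonneg_right h2 (by positivity)
      _ = _ := one_mul _
  have hhigh : ∀ i, |cj h γ⁻¹ i i| ≤ q := by
    intro i
    rw [abs_of_pos (hpos i), hdiag]
    refine le_trans ?_ hn
    have h1 : b i * (1 + E i i) ≤ K * 2 :=
      mul_le_mul (hb i).2 (by linarith [(hE1 i).2]) (by linarith [(hE1 i).1]) hK0.le
    calc b i * (1 + E i i) * Real.exp (2 * ((plc u' i : ℝ) - plc u i)) ≤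
          K * 2 * Real.exp (4 * (e * n)) :=
          mul_le_mul h1 (hrle i i) (Real.exp_pos _).le (by positivity)
      _ = _ := by ring
  have hoff : ∀ i j, i ≠ j → |cj h γ⁻¹ i j| ≤ z ^ N := by
    intro i j hij
    have h1 : cj h γ⁻¹ i j = b i * E i j * Real.exp (2 * ((plc u' j : ℝ) - plc u i)) := by
      rw [hent, Matrix.add_apply, Matrix.one_apply_ne hij, zero_add, ← hrat]
      ring
    rw [h1, abs_mul, abs_mul, abs_of_pos (hb0 i), abs_of_pos (Real.exp_pos _)]
    calc b i * |E i j| * Real.exp (2 * ((plc u' j : ℝ) - plc u i)) ≤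
          K * ε * Real.exp (4 * (e * n)) :=
          mul_le_mul (mul_le_mul (hb i).2 (hE i j) (abs_nonneg _) hK0.le) (hrle i j)
            (Real.exp_pos _).le (by positivity)
      _ = ε * (K * Real.exp (4 * (e * n))) := by ring
      _ ≤ ε * q := by
          refine mul_le_mul_of_nonneg_left (le_trans ?_ hn) hε0
          have : 0 < K * Real.exp (4 * (e * n)) := by positivity
          linarith
      _ ≤ z ^ (N + 1) * q := mul_le_mul_of_nonneg_right hεz hq0.le
      _ = z ^ N * (q * z) := by rw [pow_succ]; ring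
      _ = z ^ N := by rw [hqz, mul_one]
  have hclose := hπ γ⁻¹ hhigh hoff i
  set D := cj h γ⁻¹ i i with hD
  set D' := cj h γ⁻¹ (π i) (π i) with hD'
  have h1 := abs_lt.1 hclose
  have hD2 : D ≤ 2 * D' := by linarith [hlow (π i), h1.2]
  have hD2' : D' ≤ 2 * D := by linarith [hlow i, h1.1]
  -- the exponents
  set v : ℝ := (plc u' i : ℝ) - plc u i with hv
  set v' : ℝ := (plc u' (π i) : ℝ) - plc u (π i) with hv'
  have hDe : D = b i * (1 + E i i) * Real.exp (2 * v) := hdiag i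
  have hDe' : D' = b (π i) * (1 + E (π i) (π i)) * Real.exp (2 * v') := hdiag (π i)
  have hgen : ∀ (β β' ρ ρ' s s' : ℝ), 1 / K ≤ β → β' ≤ K → 1 / 2 ≤ ρ → ρ' ≤ 3 / 2 → 0 < β' →
      0 < ρ' → β * ρ * Real.exp (2 * s) ≤ 2 * (β' * ρ' * Real.exp (2 * s')) →
      2 * (s - s') ≤ L := by
    intro β β' ρ ρ' s s' hβ hβ' hρ hρ' hβ0 hρ0 hle
    have e1 : 1 / K * (1 / 2) * Real.exp (2 * s) ≤ β * ρ * Real.exp (2 * s) := by
      refine mul_le_mul_of_nonneg_right ?_ (Real.exp_pos _).le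
      exact mul_le_mul hβ hρ (by norm_num) (le_trans (by positivity) hβ)
    have e2 : 2 * (β' * ρ' * Real.exp (2 * s')) ≤ 2 * (K * (3 / 2) * Real.exp (2 * s')) := by
      refine mul_le_mul_of_nonneg_left ?_ (by norm_num)
      refine mul_le_mul_of_nonneg_right ?_ (Real.exp_pos _).le
      exact mul_le_mul hβ' hρ' hρ0.le hK0.le
    have e3 : Real.exp (2 * s) ≤ 6 * K ^ 2 * Real.exp (2 * s') := by
      have e4 := (e1.trans hle).trans e2
      have e5 : Real.exp (2 * s) = 2 * K * (1 / K * (1 / 2) * Real.exp (2 * s)) := by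
        field_simp
      rw [e5]
      calc 2 * K * (1 / K * (1 / 2) * Real.exp (2 * s)) ≤
            2 * K * (2 * (K * (3 / 2) * Real.exp (2 * s'))) :=
            mul_le_mul_of_nonneg_left e4 (by positivity)
        _ = _ := by ring
    have e6 := Real.log_le_log (Real.exp_pos _) e3
    rw [Real.log_exp, Real.log_mul (by positivity) (Real.exp_pos _).ne', Real.log_exp] at e6
    linarith
  have hr1 := hgen (b i) (b (π i)) (1 + E i i) (1 + E (π i) (π i)) v v' (hb i).1 (hb _).2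
    (hE1 i).1 (hE1 _).2 (hb0 _) (by linarith [(hE1 (π i)).1]) (by rw [← hDe, ← hDe']; exact hD2)
  have hr2 := hgen (b (π i)) (b i) (1 + E (π i) (π i)) (1 + E i i) v' v (hb _).1 (hb _).2
    (hE1 _).1 (hE1 _).2 (hb0 _) (by linarith [(hE1 i).1]) (by rw [← hDe, ← hDe']; exact hD2')
  have hL0 : (0 : ℝ) ≤ L := Nat.cast_nonneg L
  have hfin : |((plc u i : ℝ) - plc u (π i)) - (plc u' i - plc u' (π i))| ≤ (L : ℝ) := by
    have e1 : ((plc u i : ℝ) - plc u (π i)) - (plc u' i - plc u' (π i)) = v' - v := by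
      rw [hv, hv']
      ring
    rw [e1, abs_le]
    constructor <;> linarith
  exact_mod_cast hfin

/-- **The complexity of the orbit of a counterexample**, for a finite set of places. -/
theorem complexity_fin (he : 2 ≤ e) {V ν K : ℝ} (hV : 0 < V) (hν : 0 < ν) (hK : 1 ≤ K) :
    ∃ c₀ ε₀ : ℝ, 0 < c₀ ∧ 0 < ε₀ ∧ ∀ g : Matrix (Fin (e + 1)) (Fin (e + 1)) ℝ, |g.det| = V →
      HasNu g ν → ¬ PropInt g → ∀ ε : ℝ, 0 < ε → ε < ε₀ →
      ∃ P : Finset (Fin (e + 1) → ℝ), (∀ a ∈ P, (∀ i, 0 < a i) ∧ ∏ i, a i = 1) ∧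
      ∀ (k : ℕ) (col : (Fin (e + 1) → ℝ) → Fin k),
      (∀ a ∈ P, ∀ a' ∈ P, col a = col a' → Cl K ε (diagonal a * g) (diagonal a' * g)) →
      c₀ * Real.log (1 / ε) ^ ((e + 1) - (e + 1) / (e + 1).minFac) ≤ k := by
  classical
  obtain ⟨η, hη, hrig⟩ := rigid (d := e + 1) (by omega) hV hν
  obtain ⟨R₀, hR₀⟩ := exists_bound (d := e + 1) (by omega) V ν hV hν
  set R : ℝ := max R₀ 1 with hR
  have hR1 : 1 ≤ R := le_max_right _ _
  set x : ℕ := (e + 1) ^ 3 + 1 with hx
  set β : ℕ := (e + 1) ^ 2 + (e + 1) * x + 2 with hβ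
  set T : ℕ := (β + (e + 1)) * (e + 1) ^ 2 + (e + 1) ^ 3 + x + (e + 1) ^ 2 + 3 * (e + 1) + β + 1
    with hT
  set M : ℕ := T + (e + 1) + 1 with hM
  set D : ℝ := ((e + 1 : ℕ) : ℝ) with hD
  -- the lower bound for `q`
  set q₀ : ℝ := 4 + (1 + D ^ 2) + Real.exp 2 * (2 + 2 * D) +
    ((4 + 2 * D) * (Real.exp 2 * (2 + 2 * D))) / η + (D ^ (e + 1 + 3) + D ^ 2) * R +
    ((2 * D * R + 1) ^ (e + 1) / ν + 1) +
    (D * (e + 1).factorial * (D ^ 3 * D ^ (e + 1) * R * R ^ (e + 1) / ν) + 1) + 2 * K with hq₀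
  obtain ⟨L, hL⟩ := exists_nat_ge (Real.log (6 * K ^ 2))
  have he0 : (0 : ℝ) < e := by
    have : 0 < e := by omega
    exact_mod_cast this
  have hM0 : (0 : ℝ) < M := by
    have : 0 < M := by omega
    exact_mod_cast this
  set c₁ : ℝ := 1 / (8 * e * M) with hc₁
  have hc₁0 : 0 < c₁ := by positivity
  set ℓ₀ : ℝ := 2 * M * (Real.log (2 * q₀) + Real.log 2 + Real.log (2 * K)) + 1 with hℓ₀
  have hp1 : 0 ≤ Real.exp 2 * (2 + 2 * D) := by positivity
  have hp2 : 0 ≤ ((4 + 2 * D) * (Real.exp 2 * (2 + 2 * D))) / η := by positivity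
  have hp3 : 0 ≤ (D ^ (e + 1 + 3) + D ^ 2) * R := by positivity
  have hp4 : 0 ≤ (2 * D * R + 1) ^ (e + 1) / ν := by positivity
  have hp5 : 0 ≤ D * (e + 1).factorial * (D ^ 3 * D ^ (e + 1) * R * R ^ (e + 1) / ν) := by
    positivity
  have hp6 : 0 ≤ D ^ 2 := by positivity
  have hq₀4 : 4 ≤ q₀ := by
    rw [hq₀]
    linarith
  have hl1 : 0 ≤ Real.log (2 * q₀) := Real.log_nonneg (by linarith)
  have hl2 : 0 ≤ Real.log 2 := Real.log_nonneg (by norm_num)
  have hl3 : 0 ≤ Real.log (2 * K) := Real.log_nonneg (by linarith)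
  have hℓ₀1 : 1 ≤ ℓ₀ := by
    rw [hℓ₀]
    have : 0 ≤ 2 * M * (Real.log (2 * q₀) + Real.log 2 + Real.log (2 * K)) := by positivity
    linarith
  refine ⟨c₁ ^ ((e + 1) - (e + 1) / (e + 1).minFac) / (2 * L + 1) ^ (e + 1), Real.exp (-ℓ₀),
    by positivity, Real.exp_pos _, fun g hdet hnu hint ε hε0 hε => ?_⟩
  set ℓ : ℝ := Real.log (1 / ε) with hℓ
  have hεℓ : ε = Real.exp (-ℓ) := by
    rw [hℓ, one_div, Real.log_inv, neg_neg, Real.exp_log hε0]
  have hℓℓ : ℓ₀ < ℓ := by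
    rw [hεℓ, Real.exp_lt_exp] at hε
    linarith
  have hℓ0 : 0 < ℓ := by linarith
  -- the scale
  set q' : ℝ := Real.exp (ℓ / M) with hq'
  set Q : ℕ := ⌊q'⌋₊ with hQ
  have hq'0 : 0 ≤ q' := (Real.exp_pos _).le
  have hq'big : 2 * q₀ ≤ q' := by
    rw [hq', ← Real.exp_log (by linarith : 0 < 2 * q₀)]
    refine Real.exp_le_exp.2 ?_
    rw [le_div_iff₀ hM0]
    have h1 : Real.log (2 * q₀) * M ≤ 2 * M * (Real.log (2 * q₀) + Real.log 2 + Real.log (2 * K)) := by
      have h2 : 0 ≤ M * Real.log (2 * q₀) := by positivity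
      have h3 : 0 ≤ 2 * (M : ℝ) * (Real.log 2 + Real.log (2 * K)) := by positivity
      nlinarith
    linarith
  have hQle : (Q : ℝ) ≤ q' := Nat.floor_le hq'0
  have hQge : q' / 2 ≤ Q := by
    have h1 : q' < Q + 1 := Nat.lt_floor_add_one _
    linarith
  have hQq₀ : q₀ ≤ Q := by linarith
  have hQ0 : (0 : ℝ) < Q := by linarith
  set z : ℝ := 1 / (Q : ℝ) with hz
  have hz0 : 0 < z := by positivity
  have hqz : (Q : ℝ) * z = 1 := by rw [hz]; field_simp
  have hsc : Scale (e + 1) (Q : ℝ) z η R ν β T x := by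
    refine ⟨by linarith, ?_, hz0, hqz, hx, hβ, hT, ?_, ?_, ?_, ?_, ?_⟩
    all_goals rw [hq₀] at hQq₀
    · linarith
    · linarith
    · linarith
    · linarith
    · linarith
    · linarith
  obtain ⟨a, ha0, ha1, c, J, π, hc1, hcd, hJ, hπ1, hπ2, hπ⟩ := exists_level_drop
    (d := e + 1) (by omega) (X := Q ^ x) hV hν hη hR1 hrig
    (fun h h1 h2 => by
      obtain ⟨γ, hγ, hγR⟩ := hR₀ h h1 h2
      exact ⟨γ, hγ, fun i j => (hγR i j).trans (le_max_left _ _)⟩) hsc (by push_cast; rfl)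
    hdet hnu hint
  set h := diagonal a * g with hh
  have hne : h.det ≠ 0 := by
    intro h0
    rw [hh, det_diag ha1] at h0
    rw [h0, abs_zero] at hdet
    exact hV.ne hdet
  -- the number of places
  set n : ℕ := ⌊Real.log ((Q : ℝ) / (2 * K)) / (4 * e)⌋₊ with hn
  have hQK : 1 ≤ (Q : ℝ) / (2 * K) := by
    rw [le_div_iff₀ (by linarith)]
    rw [hq₀] at hQq₀
    linarith
  have hlogQK : 0 ≤ Real.log ((Q : ℝ) / (2 * K)) := Real.log_nonneg hQK
  have hnexp : 2 * K * Real.exp (4 * (e * n)) ≤ Q := by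
    have h1 : (n : ℝ) ≤ Real.log ((Q : ℝ) / (2 * K)) / (4 * e) :=
      Nat.floor_le (by positivity)
    rw [le_div_iff₀ (by positivity)] at h1
    have h2 : Real.exp (4 * (e * n)) ≤ (Q : ℝ) / (2 * K) := by
      rw [← Real.exp_log (by linarith : 0 < (Q : ℝ) / (2 * K))]
      refine Real.exp_le_exp.2 ?_
      linarith
    rw [le_div_iff₀ (by linarith)] at h2
    linarith
  have hεhalf : ε ≤ 1 / 2 := by
    have h1 : ε ≤ Real.exp (-1) := by
      rw [hεℓ]
      exact Real.exp_le_exp.2 (by linarith)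
    have h2 : Real.exp (-1) ≤ 1 / 2 := by
      rw [Real.exp_neg, inv_eq_one_div]
      refine div_le_div_of_nonneg_left (by norm_num) (by norm_num) ?_
      have := Real.add_one_le_exp (1 : ℝ)
      linarith
    linarith
  have hεz : ε ≤ z ^ (T + (e + 1) + 1) := by
    have h1 : (Q : ℝ) ^ M ≤ Real.exp ℓ := by
      calc (Q : ℝ) ^ M ≤ q' ^ M := pow_le_pow_left₀ hQ0.le hQle M
        _ = Real.exp ℓ := by
            rw [hq', ← Real.exp_nat_mul]
            congr 1
            field_simp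
    rw [← hM, hz, div_pow, one_pow, hεℓ, Real.exp_neg, inv_eq_one_div]
    exact div_le_div_of_nonneg_left zero_le_one (by positivity) h1
  refine ⟨Finset.univ.image fun (u : Fin e → Fin (n + 1)) i => pla u i * a i, fun a' ha' => ?_,
    fun k col hcol => ?_⟩
  · obtain ⟨u, -, rfl⟩ := Finset.mem_image.1 ha'
    exact ⟨fun i => mul_pos (pla_pos u i) (ha0 i), by
      rw [Finset.prod_mul_distrib, pla_prod, ha1, mul_one]⟩
  -- the pigeonhole principle
  have hk : (n + 1) ^ e ≤ k * ((2 * L + 1) ^ (e + 1) * (n + 1) ^ (c - 1)) := by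
    have h1 : Fintype.card (Fin e → Fin (n + 1)) = (n + 1) ^ e := by
      rw [Fintype.card_fun, Fintype.card_fin, Fintype.card_fin]
    rw [← h1, ← Finset.card_univ]
    have h2 := Finset.card_le_mul_card_image_of_maps_to
      (s := (Finset.univ : Finset (Fin e → Fin (n + 1)))) (t := (Finset.univ : Finset (Fin k)))
      (f := fun u => col fun i => pla u i * a i) (fun _ _ => Finset.mem_univ _)
      ((2 * L + 1) ^ (e + 1) * (n + 1) ^ (c - 1)) (fun j _ => ?_)
    · rw [Finset.card_univ (α := Fin k), Fintype.card_fin] at h2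
      rw [mul_comm]
      exact h2
    by_cases hne2 : (Finset.univ.filter fun u : Fin e → Fin (n + 1) =>
        col (fun i => pla u i * a i) = j).Nonempty
    swap
    · rw [Finset.not_nonempty_iff_eq_empty.1 hne2]
      simp
    obtain ⟨u₀, hu₀⟩ := hne2
    rw [Finset.mem_filter] at hu₀
    refine class_card _ hJ hπ1 hπ2 u₀ fun u hu i => ?_
    rw [Finset.mem_filter] at hu
    have hcl := hcol (fun i => pla u i * a i) (Finset.mem_image_of_mem _ (Finset.mem_univ u))
      (fun i => pla u₀ i * a i) (Finset.mem_image_of_mem _ (Finset.mem_univ u₀))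
      (hu.2.trans hu₀.2.symm)
    have e1 : ∀ u : Fin e → Fin (n + 1), diagonal (fun i => pla u i * a i) * g =
        diagonal (pla u) * h := by
      intro u
      rw [hh, ← Matrix.mul_assoc, diagonal_mul_diagonal]
    rw [e1, e1] at hcl
    exact class_close hne (by omega) (N := T + (e + 1)) hz0 hqz hK hL hnexp
      hε0.le hεhalf hεz hπ hcl i
  -- conclusion
  have hck : (n + 1) ^ ((e + 1) - (e + 1) / (e + 1).minFac) ≤ k * (2 * L + 1) ^ (e + 1) := by
    have h1 : (n + 1) ^ e = (n + 1) ^ (e + 1 - c) * (n + 1) ^ (c - 1) := by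
      rw [← pow_add]
      congr 1
      have h2 : (e + 1) / (e + 1).minFac ≤ e + 1 := Nat.div_le_self _ _
      omega
    rw [h1] at hk
    have h2 : (n + 1) ^ (e + 1 - c) ≤ k * (2 * L + 1) ^ (e + 1) := by
      refine Nat.le_of_mul_le_mul_right ?_ (Nat.pow_pos (Nat.succ_pos n) : 0 < (n + 1) ^ (c - 1))
      calc (n + 1) ^ (e + 1 - c) * (n + 1) ^ (c - 1) ≤
            k * ((2 * L + 1) ^ (e + 1) * (n + 1) ^ (c - 1)) := hk
        _ = _ := by ring
    exact (Nat.pow_le_pow_right (Nat.succ_pos n) (by omega)).trans h2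
  have hnℓ : c₁ * ℓ ≤ n + 1 := by
    have h1 : Real.log ((Q : ℝ) / (2 * K)) / (4 * e) < n + 1 := Nat.lt_floor_add_one _
    have h2 : ℓ / M - Real.log 2 ≤ Real.log Q := by
      have h3 := Real.log_le_log (by positivity) hQge
      rw [Real.log_div (by positivity) (by norm_num), hq', Real.log_exp] at h3
      exact h3
    have h4 : Real.log ((Q : ℝ) / (2 * K)) = Real.log Q - Real.log (2 * K) :=
      Real.log_div hQ0.ne' (by linarith)
    have h5 : 2 * (Real.log 2 + Real.log (2 * K)) ≤ ℓ / M := by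
      rw [le_div_iff₀ hM0]
      have h6 : 0 ≤ 2 * (M : ℝ) * Real.log (2 * q₀) := by positivity
      have h7 : 2 * (Real.log 2 + Real.log (2 * K)) * M ≤
          2 * M * (Real.log (2 * q₀) + Real.log 2 + Real.log (2 * K)) := by linarith
      linarith
    have h6 : ℓ / M / 2 ≤ Real.log ((Q : ℝ) / (2 * K)) := by linarith
    have h7 : ℓ / M / 2 / (4 * e) ≤ Real.log ((Q : ℝ) / (2 * K)) / (4 * e) :=
      div_le_div_of_nonneg_right h6 (by positivity)
    have h8 : c₁ * ℓ = ℓ / M / 2 / (4 * e) := by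
      rw [hc₁]
      field_simp
      ring
    rw [h8]
    linarith
  have h9 : (c₁ * ℓ) ^ ((e + 1) - (e + 1) / (e + 1).minFac) ≤ k * (2 * L + 1) ^ (e + 1) := by
    refine (pow_le_pow_left₀ (by positivity) hnℓ _).trans ?_
    exact_mod_cast hck
  rw [mul_pow] at h9
  rw [div_mul_eq_mul_div, div_le_iff₀ (by positivity)]
  exact h9

/-- **The complexity of the orbit of a counterexample.** -/
theorem complexity (he : 2 ≤ e) {V ν K : ℝ} (hV : 0 < V) (hν : 0 < ν) (hK : 1 ≤ K) :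
    ∃ c₀ ε₀ : ℝ, 0 < c₀ ∧ 0 < ε₀ ∧ ∀ g : Matrix (Fin (e + 1)) (Fin (e + 1)) ℝ, |g.det| = V →
      HasNu g ν → ¬ PropInt g → ∀ ε : ℝ, 0 < ε → ε < ε₀ →
      ∀ (k : ℕ) (col : (Fin (e + 1) → ℝ) → Fin k),
      (∀ a a' : Fin (e + 1) → ℝ, (∀ i, 0 < a i) → ∏ i, a i = 1 → (∀ i, 0 < a' i) →
        ∏ i, a' i = 1 → col a = col a' → Cl K ε (diagonal a * g) (diagonal a' * g)) →
      c₀ * Real.log (1 / ε) ^ ((e + 1) - (e + 1) / (e + 1).minFac) ≤ k := by
  obtain ⟨c₀, ε₀, hc₀, hε₀, h⟩ := complexity_fin he hV hν hK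
  refine ⟨c₀, ε₀, hc₀, hε₀, fun g hdet hnu hint ε hε hεε k col hcol => ?_⟩
  obtain ⟨P, hP, hmain⟩ := h g hdet hnu hint ε hε hεε
  exact hmain k col fun a ha a' ha' heq =>
    hcol a a' (hP a ha).1 (hP a ha).2 (hP a' ha').1 (hP a' ha').2 heq

end Pool.Agent.T6.H49.CSD
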