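import Mathlib
import Pool.Agent.T6.H49.CSD.ComplexMain

/-! # Forms proportional to integral forms have orbits of bounded complexity -/

set_option autoImplicit false

open H715R2 Matrix Filter Topology

namespace Pool.Agent.T6.H49.CSD

variable {d e : ℕ}

/-- the orbit of a form which is proportional to an integral form consists of finitely many
pieces -/
theorem propInt_pieces (hd : 0 < d) {g : Matrix (Fin d) (Fin d) ℝ} {ν : ℝ} (hg : g.det ≠ 0)
    (hν : 0 < ν) (hnu : HasNu g ν) (hint : PropInt g) :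
    ∃ (k : ℕ) (col : (Fin d → ℝ) → Fin k), ∀ a a' : Fin d → ℝ, (∀ i, 0 < a i) →
      ∏ i, a i = 1 → (∀ i, 0 < a' i) → ∏ i, a' i = 1 → col a = col a' →
      Cl 2 0 (diagonal a * g) (diagonal a' * g) := by
  classical
  have hV : 0 < |g.det| := abs_pos.2 hg
  set T : ℝ := d.factorial * |g.det| + 1 with hT
  have hY : ∀ h ∈ closure (Orb g), |h.det| = |g.det| := fun h hh => abs_det_closure hh
  obtain ⟨R, B, ι, hι, m, W, hB0, hm0, hmB, hWS, hWt, hcov⟩ :=
    TH314.CSD.exists_cover hd hV hν (Y := closure (Orb g)) isClosed_closure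
      (TH314.CSD.inv_closure g) hY (fun h hh => hasNu_closure hnu hh) (S := Set.Ioo (-T) T)
      isOpen_Ioo (fun h hh => by
        obtain ⟨x, hx, hxT⟩ := mink_prod hd |g.det| T hV (by
          have h1 : (1 : ℝ) ≤ (d : ℝ) ^ d := one_le_pow₀ (by exact_mod_cast hd)
          have h2 : 0 < T := by positivity
          calc (d.factorial : ℝ) * |g.det| < T := by rw [hT]; linarith
            _ = 1 * T := (one_mul T).symm
            _ ≤ (d : ℝ) ^ d * T := mul_le_mul_of_nonneg_right h1 h2.le) h (hY h hh)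
        exact ⟨x, hx, abs_lt.1 hxT⟩)
  have hfin := finite_values hint T
  set F := hfin.toFinset with hF
  let C : Type := ι × ((Fin d × Fin d) → F)
  have hP : ∀ a : Fin d → ℝ, (∀ i, 0 < a i) → ∏ i, a i = 1 → ∃ x : C,
      ∃ γ : Matrix (Fin d) (Fin d) ℤ, IsUnit γ.det ∧ diagonal a * g * zR γ ∈ W x.1 ∧
        ∀ p, FF (diagonal a * g * zR γ) (iR (m x.1 p)) = x.2 p := by
    intro a ha0 ha1
    have hmem : diagonal a * g ∈ closure (Orb g) := by
      refine subset_closure ⟨a, 1, ha0, ha1, by simp, ?_⟩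
      rw [zR_one, Matrix.mul_one]
    obtain ⟨γ, hγ, -, k, hk⟩ := hcov _ hmem
    refine ⟨(k, fun p => ⟨FF (diagonal a * g * zR γ) (iR (m k p)), ?_⟩), γ, hγ, hk, fun p => rfl⟩
    rw [hF, Set.Finite.mem_toFinset]
    refine ⟨abs_lt.2 (hWS k _ hk p), γ *ᵥ m k p, ?_⟩
    exact (FF_orb ha1 g γ (m k p)).symm
  obtain ⟨x₀, -⟩ := hP (fun _ => 1) (fun _ => one_pos) (by simp)
  have hP' : ∀ a : Fin d → ℝ, ∃ x : C, (∀ i, 0 < a i) → ∏ i, a i = 1 →
      ∃ γ : Matrix (Fin d) (Fin d) ℤ, IsUnit γ.det ∧ diagonal a * g * zR γ ∈ W x.1 ∧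
        ∀ p, FF (diagonal a * g * zR γ) (iR (m x.1 p)) = x.2 p := by
    intro a
    by_cases ha : (∀ i, 0 < a i) ∧ ∏ i, a i = 1
    · obtain ⟨x, hx⟩ := hP a ha.1 ha.2
      exact ⟨x, fun _ _ => hx⟩
    · exact ⟨x₀, fun h1 h2 => absurd ⟨h1, h2⟩ ha⟩
  choose cl hcl using hP'
  refine ⟨Fintype.card C, fun a => Fintype.equivFin C (cl a), fun a a' ha0 ha1 ha0' ha1' heq => ?_⟩
  have hcc : cl a = cl a' := (Fintype.equivFin C).injective heq
  obtain ⟨γ, hγ, hγW, hγv⟩ := hcl a ha0 ha1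
  obtain ⟨γ', hγ', hγW', hγv'⟩ := hcl a' ha0' ha1'
  rw [← hcc] at hγW' hγv'
  have hdet : ∀ (a : Fin d → ℝ) (γ : Matrix (Fin d) (Fin d) ℤ), ∏ i, a i = 1 → IsUnit γ.det →
      |(diagonal a * g * zR γ).det| = |g.det| := by
    intro a γ ha hγ
    rw [Matrix.det_mul, det_diag ha, det_zR, abs_mul, abs_det_of_isUnit hγ, mul_one]
  obtain ⟨s, hs1, hs2, hs⟩ := hWt (cl a).1 _ hγW' _ hγW
    (by rw [hdet a γ ha1 hγ, hdet a' γ' ha1' hγ']) (fun p _ => by rw [hγv', hγv])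
  refine ⟨s, 0, γ' * γ⁻¹, fun i => ⟨(hs1 i).le, (hs2 i).le⟩, fun i j => by simp, ?_, ?_⟩
  · rw [Matrix.det_mul]
    exact hγ'.mul ((Matrix.isUnit_nonsing_inv_det_iff).2 hγ)
  · calc diagonal a * g = diagonal a * g * (zR γ * zR γ⁻¹) := by rw [zR_inv hγ, Matrix.mul_one]
      _ = (diagonal a * g * zR γ) * zR γ⁻¹ := by simp only [Matrix.mul_assoc]
      _ = diagonal s * (diagonal a' * g * zR γ') * zR γ⁻¹ := by rw [hs]
      _ = diagonal s * (1 + 0) * (diagonal a' * g) * zR (γ' * γ⁻¹) := by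
          rw [zR_mul, add_zero, Matrix.mul_one]
          simp only [Matrix.mul_assoc]

end Pool.Agent.T6.H49.CSD
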