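import Mathlib
import Pool.Agent.T6.H49.CSD.Closure
import Pool.Agent.H715R2.Littlewood

/-! # The values of `q ⟨qα⟩ ⟨qβ⟩`: preparations -/

set_option autoImplicit false

open MvPolynomial H715R2 Matrix Filter Topology

namespace Pool.Agent.T6.H49.CSD

/-- the limit set of a counterexample to Littlewood contains no form proportional to an integral
form -/
theorem not_propInt_YY {α β ν : ℝ} (hν0 : 0 < ν)
    (hν : ∀ q p r : ℤ, q ≠ 0 → ν ≤ |(q : ℝ) * (α * q - p) * (β * q - r)|)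
    {h : Matrix (Fin 3) (Fin 3) ℝ} (hh : h ∈ YY (LLm α β)) : ¬ PropInt h := by
  intro hp
  have hdetY : ∀ h ∈ YY (LLm α β), |h.det| = 1 := fun h hh => by
    rw [abs_det_closure (YY_subset _ hh), LLm_det]
  have hnuY : ∀ h ∈ YY (LLm α β), HasNu h ν := fun h hh => YY_nu hν hh
  have hdet : h.det ≠ 0 := by
    intro h0
    have := hdetY h hh
    rw [h0, abs_zero] at this
    exact zero_ne_one this
  have hsub : closure (Orb h) ⊆ YY (LLm α β) := by
    refine closure_minimal ?_ (YY_closed _)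
    rintro _ ⟨a, γ, ha0, ha1, hγ, rfl⟩
    exact YY_inv _ h hh a γ ha0 ha1 hγ
  obtain ⟨M, hMh, hMc, hMne, hMinv, hMmin⟩ :=
    H715R2.exists_minimal (by norm_num : 0 < 3) hν0 hdet (hnuY h hh)
  obtain ⟨c, hc0, hc⟩ := propInt_values hp
  set C : Set ℝ := {t : ℝ | ∃ n : ℤ, c * t = n} with hC
  have hCc : C.Countable := by
    have h1 : C ⊆ Set.range (fun n : ℤ => (n : ℝ) / c) := by
      rintro t ⟨n, hn⟩
      refine ⟨n, ?_⟩
      simp only
      rw [← hn]
      field_simp
    exact (Set.countable_range _).mono h1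
  have hCcl : IsClosed C := by
    have h1 : C = (fun t : ℝ => c * t) ⁻¹' Set.range ((↑) : ℤ → ℝ) := by
      ext t
      simp [hC, eq_comm]
    rw [h1]
    exact Int.isClosedEmbedding_coe_real.isClosed_range.preimage (by fun_prop)
  have hVV : VV h ⊆ C := by
    refine closure_minimal ?_ hCcl
    rintro _ ⟨m, rfl⟩
    exact hc m
  obtain ⟨h₀, hh₀, hrows⟩ := exists_alg_point (by norm_num : 2 ≤ 3) one_pos hν0
    (T := 1) (fun h hh => by
      refine mink_prod (by norm_num) 1 1 one_pos ?_ h hh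
      have : ((Nat.factorial 3 : ℕ) : ℝ) = 6 := by norm_num [Nat.factorial]
      rw [this]
      norm_num)
    (fun h' hh' => hdetY h' (hsub (hMh hh')))
    (fun h' hh' => hnuY h' (hsub (hMh hh'))) hMc hMne hMinv hMmin C hCc (by
      intro h' hh' m _
      exact hVV (mem_VV_of_mem_closure (hMh hh') m))
  obtain ⟨K, hfin, hK, s, hs, hmem⟩ := hrows 0
  exact no_alg_point hν0 hν (hsub (hMh hh₀)) 0 s hs K hK hmem

/-- deep in the cone reduced forms are close to the limit set -/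
theorem near_YY {α β : ℝ} (R : ℝ) (B : Finset (Fin 3 → ℤ)) {η : ℝ} (hη : 0 < η) :
    ∃ N : ℕ, ∀ h' ∈ OrbN (LLm α β) N, (∀ i j, |h' i j| ≤ R) →
      ∃ h ∈ YY (LLm α β), (∀ i j, |h i j| ≤ R) ∧
        ∀ x ∈ B, |FF h' (iR x) - FF h (iR x)| < η := by
  by_contra hcon
  push Not at hcon
  choose x hx hxR hbad using hcon
  obtain ⟨h, hhR, φ, hφ, hlim⟩ := (isCompact_box (d := 3) R).tendsto_subseq hxR
  have hhY : h ∈ YY (LLm α β) := by
    refine Set.mem_iInter.2 fun N => mem_closure_of_tendsto hlim ?_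
    filter_upwards [eventually_ge_atTop N] with n hn
    exact OrbN_anti _ (hn.trans (hφ.le_apply)) (hx (φ n))
  have hev : ∀ᶠ n in atTop, ∀ m ∈ B, |FF (x (φ n)) (iR m) - FF h (iR m)| < η := by
    refine (Finset.eventually_all B).2 fun m _ => ?_
    have h1 : Tendsto (fun n => FF (x (φ n)) (iR m)) atTop (𝓝 (FF h (iR m))) :=
      ((continuous_FF (iR m)).tendsto h).comp hlim
    have h2 : Tendsto (fun n => |FF (x (φ n)) (iR m) - FF h (iR m)|) atTop (𝓝 0) := by
      have := (h1.sub_const (FF h (iR m))).abs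
      rwa [sub_self, abs_zero] at this
    exact h2.eventually (gt_mem_nhds hη)
  obtain ⟨n, hn⟩ := hev.exists
  obtain ⟨m, hm, hbadm⟩ := hbad (φ n) h hhY hhR
  exact absurd (hn m hm) (not_lt.2 hbadm)

/-- the integer point of `q` -/
noncomputable def xq (α β : ℝ) (q : ℕ) : Fin 3 → ℤ :=
  ![(q : ℤ), round ((q : ℝ) * α), round ((q : ℝ) * β)]

lemma fL_eq (α β : ℝ) (q : ℕ) : fL α β q = |FF (LLm α β) (iR (xq α β q))| := by
  rw [FF_LLm]
  simp only [xq, fL, Matrix.cons_val_zero, Matrix.cons_val_one, Matrix.cons_val]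
  rw [abs_mul, abs_mul]
  push_cast
  rw [Nat.abs_cast, mul_comm α, mul_comm β]

lemma LLm_xq (α β : ℝ) (q : ℕ) : (LLm α β *ᵥ iR (xq α β q)) 0 = q ∧
    (LLm α β *ᵥ iR (xq α β q)) 1 = q * α - round ((q : ℝ) * α) ∧
    (LLm α β *ᵥ iR (xq α β q)) 2 = q * β - round ((q : ℝ) * β) := by
  obtain ⟨h0, h1, h2⟩ := LLm_mulVec α β (iR (xq α β q))
  rw [h0, h1, h2]
  simp only [xq, iR, Matrix.cons_val_zero, Matrix.cons_val_one, Matrix.cons_val]
  push_cast
  refine ⟨rfl, ?_, ?_⟩ <;> ring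

/-- few `q` in a box -/
theorem box_count {α β ν : ℝ} (hν0 : 0 < ν)
    (hν : ∀ q p r : ℤ, q ≠ 0 → ν ≤ |(q : ℝ) * (α * q - p) * (β * q - r)|) (P : ℝ) (hP : 0 < P) :
    ∃ K : ℕ, ∀ A B C : ℝ, 0 < A → 0 < B → 0 < C → A * B * C ≤ P → ∀ S : Finset ℕ,
      (∀ q ∈ S, (q : ℝ) ≤ A ∧ |(q : ℝ) * α - round ((q : ℝ) * α)| ≤ B ∧
        |(q : ℝ) * β - round ((q : ℝ) * β)| ≤ C) → S.card ≤ K := by
  classical
  obtain ⟨m, hm⟩ := exists_nat_gt (8 * P / ν + 1)
  have hPν : 0 < 8 * P / ν := by positivity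
  have hm1 : 1 < (m : ℝ) := by linarith
  have hm0 : 0 < (m : ℝ) := by linarith
  have hmP : 8 * P < ν * (m : ℝ) ^ 3 := by
    have h1 : 8 * P / ν < m := by linarith
    rw [div_lt_iff₀ hν0] at h1
    have h2 : (m : ℝ) ≤ (m : ℝ) ^ 3 := by
      calc (m : ℝ) = (m : ℝ) ^ 1 := (pow_one _).symm
        _ ≤ (m : ℝ) ^ 3 := pow_le_pow_right₀ hm1.le (by norm_num)
    nlinarith
  refine ⟨(m + 1) * ((m + 1) * (m + 1)), fun A B C hA hB hC hABC S hS => ?_⟩
  -- the cells
  let cell : ℝ → ℝ → ℕ := fun E t => ⌊(t + E) / (2 * E / m)⌋₊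
  have hcell : ∀ E t : ℝ, 0 < E → |t| ≤ E → cell E t < m + 1 := by
    intro E t hE ht
    refine Nat.lt_succ_of_le (Nat.floor_le_of_le ?_)
    rw [div_le_iff₀ (by positivity)]
    have h1 := (abs_le.1 ht).2
    have h2 : (m : ℝ) * (2 * E / m) = 2 * E := by field_simp
    rw [h2]
    linarith
  have hclose : ∀ E t t' : ℝ, 0 < E → |t| ≤ E → |t'| ≤ E → cell E t = cell E t' →
      |t - t'| ≤ 2 * E / m := by
    intro E t t' hE ht ht' hc
    have h0 : 0 < 2 * E / m := by positivity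
    have h1 := (abs_le.1 ht).1
    have h2 := (abs_le.1 ht').1
    have h3 := floor_close (a := (t + E) / (2 * E / m)) (b := (t' + E) / (2 * E / m))
      (div_nonneg (by linarith) h0.le) (div_nonneg (by linarith) h0.le) hc
    have h4 : (t + E) / (2 * E / m) - (t' + E) / (2 * E / m) = (t - t') / (2 * E / m) := by ring
    rwa [h4, abs_div, abs_of_pos h0, div_le_one h0] at h3
  have hq : ∀ q ∈ S, |(q : ℝ)| ≤ A := fun q hq => by
    rw [abs_of_nonneg (Nat.cast_nonneg q)]
    exact (hS q hq).1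
  let f : ℕ → ℕ × ℕ × ℕ := fun q => (cell A q, cell B (q * α - round ((q : ℝ) * α)),
    cell C (q * β - round ((q : ℝ) * β)))
  have hcard : S.card ≤ (Finset.range (m + 1) ×ˢ Finset.range (m + 1) ×ˢ
      Finset.range (m + 1)).card := by
    refine Finset.card_le_card_of_injOn f (fun q hqS => ?_) fun q hqS q' hqS' hqq => ?_
    · have hqS := Finset.mem_coe.1 hqS
      simp only [f, Finset.coe_product, Set.mem_prod, Finset.coe_range, Set.mem_Iio]
      exact ⟨hcell A _ hA (hq q hqS), hcell B _ hB (hS q hqS).2.1, hcell C _ hC (hS q hqS).2.2⟩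
    · have hqS := Finset.mem_coe.1 hqS
      have hqS' := Finset.mem_coe.1 hqS'
      by_contra hne
      have e1 : cell A q = cell A q' := congrArg (fun p => p.1) hqq
      have e2 : cell B (q * α - round ((q : ℝ) * α)) = cell B (q' * α - round ((q' : ℝ) * α)) :=
        congrArg (fun p => p.2.1) hqq
      have e3 : cell C (q * β - round ((q : ℝ) * β)) = cell C (q' * β - round ((q' : ℝ) * β)) :=
        congrArg (fun p => p.2.2) hqq
      have d1 := hclose A _ _ hA (hq q hqS) (hq q' hqS') e1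
      have d2 := hclose B _ _ hB (hS q hqS).2.1 (hS q' hqS').2.1 e2
      have d3 := hclose C _ _ hC (hS q hqS).2.2 (hS q' hqS').2.2 e3
      have h1 := hν ((q : ℤ) - q') (round ((q : ℝ) * α) - round ((q' : ℝ) * α))
        (round ((q : ℝ) * β) - round ((q' : ℝ) * β)) (by
          intro h0
          apply hne
          omega)
      have h2 : ((((q : ℤ) - (q' : ℤ) : ℤ)) : ℝ) *
          (α * (((q : ℤ) - (q' : ℤ) : ℤ) : ℝ) -
            ((round ((q : ℝ) * α) - round ((q' : ℝ) * α) : ℤ) : ℝ)) *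
          (β * (((q : ℤ) - (q' : ℤ) : ℤ) : ℝ) -
            ((round ((q : ℝ) * β) - round ((q' : ℝ) * β) : ℤ) : ℝ)) =
          ((q : ℝ) - q') * ((q * α - round ((q : ℝ) * α)) - (q' * α - round ((q' : ℝ) * α))) *
          ((q * β - round ((q : ℝ) * β)) - (q' * β - round ((q' : ℝ) * β))) := by
        push_cast
        ring
      rw [h2, abs_mul, abs_mul] at h1
      have h3 : |(q : ℝ) - q'| * |(q * α - round ((q : ℝ) * α)) - (q' * α - round ((q' : ℝ) * α))| *
          |(q * β - round ((q : ℝ) * β)) - (q' * β - round ((q' : ℝ) * β))| ≤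
          (2 * A / m) * (2 * B / m) * (2 * C / m) :=
        mul_le_mul (mul_le_mul d1 d2 (abs_nonneg _) (by positivity)) d3 (abs_nonneg _)
          (by positivity)
      have h4 : (2 * A / m) * (2 * B / m) * (2 * C / m) = 8 * (A * B * C) / (m : ℝ) ^ 3 := by
        field_simp
        ring
      have h5 : 8 * (A * B * C) / (m : ℝ) ^ 3 < ν := by
        rw [div_lt_iff₀ (by positivity)]
        linarith
      linarith
  refine hcard.trans (le_of_eq ?_)
  simp [Finset.card_product]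

end Pool.Agent.T6.H49.CSD
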