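import Mathlib
import Pool.Agent.T6.H49.CSD.ComplexPer
import Pool.Agent.T6.H49.CSD.Litt

/-! # The complexity of the cone orbit of a counterexample to the Littlewood conjecture -/

set_option autoImplicit false

open H715R2 Matrix Filter Topology

namespace Pool.Agent.T6.H49.CSD

variable {d e : ℕ}

lemma ultra_tendsto {ι X : Type*} [TopologicalSpace X] (𝒰 : Ultrafilter ι) {K : Set X}
    (hK : IsCompact K) {f : ι → X} (hf : ∀ᶠ n in (𝒰 : Filter ι), f n ∈ K) :
    ∃ x ∈ K, Tendsto f 𝒰 (𝓝 x) := by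
  obtain ⟨x, hx, hle⟩ := hK.ultrafilter_le_nhds (𝒰.map f) (by
    rw [Filter.le_principal_iff]
    exact hf)
  exact ⟨x, hx, hle⟩

lemma finite_int_box (B : ℝ) :
    {γ : Matrix (Fin d) (Fin d) ℤ | ∀ i j, |(γ i j : ℝ)| ≤ B}.Finite := by
  have h1 : (Set.pi Set.univ fun _ : Fin d => Set.pi Set.univ
      fun _ : Fin d => Set.Icc (-⌊B⌋) ⌊B⌋).Finite :=
    Set.Finite.pi fun _ => Set.Finite.pi fun _ => Set.finite_Icc _ _
  refine h1.subset fun γ hγ => ?_
  simp only [Set.mem_pi, Set.mem_univ, true_implies, Set.mem_Icc]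
  intro i j
  have h2 := abs_le.1 (hγ i j)
  constructor
  · have : -γ i j ≤ ⌊B⌋ := Int.le_floor.2 (by push_cast; linarith)
    omega
  · exact Int.le_floor.2 h2.2

/-- closeness passes to limits -/
lemma cl_limit {ι : Type*} (𝒰 : Ultrafilter ι) {x y : ι → Matrix (Fin d) (Fin d) ℝ}
    {x₀ y₀ : Matrix (Fin d) (Fin d) ℝ} {V K ε : ℝ} (hV : 0 < V) (hK : 1 ≤ K) (hε0 : 0 ≤ ε)
    (hε : d * ε ≤ 1 / 2) (hx : Tendsto x 𝒰 (𝓝 x₀)) (hy : Tendsto y 𝒰 (𝓝 y₀))
    (hdet : ∀ᶠ n in (𝒰 : Filter ι), |(y n).det| = V)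
    (h : ∀ᶠ n in (𝒰 : Filter ι), Cl K ε (x n) (y n)) : Cl K ε x₀ y₀ := by
  classical
  have hch : ∀ n, ∃ (b : Fin d → ℝ) (E : Matrix (Fin d) (Fin d) ℝ)
      (γ : Matrix (Fin d) (Fin d) ℤ), Cl K ε (x n) (y n) →
      (∀ i, 1 / K ≤ b i ∧ b i ≤ K) ∧ (∀ i j, |E i j| ≤ ε) ∧ IsUnit γ.det ∧
        x n = diagonal b * (1 + E) * y n * zR γ := by
    intro n
    by_cases hn : Cl K ε (x n) (y n)
    · obtain ⟨b, E, γ, h1⟩ := hn
      exact ⟨b, E, γ, fun _ => h1⟩
    · exact ⟨0, 0, 0, fun h => absurd h hn⟩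
  choose b E γ hall using hch
  have hev : ∀ᶠ n in (𝒰 : Filter ι), (∀ i, 1 / K ≤ b n i ∧ b n i ≤ K) ∧ (∀ i j, |E n i j| ≤ ε) ∧
      IsUnit (γ n).det ∧ x n = diagonal (b n) * (1 + E n) * y n * zR (γ n) := by
    filter_upwards [h] with n hn
    exact hall n hn
  -- bounds
  set R : ℝ := nrm x₀ + nrm y₀ + 1 with hR
  have hnrmc : Continuous (fun h : Matrix (Fin d) (Fin d) ℝ => nrm h) := by
    unfold nrm
    refine continuous_finsetSum _ fun i _ => continuous_finsetSum _ fun j _ => ?_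
    exact continuous_abs.comp (continuous_id.matrix_elem i j)
  have hentle : ∀ (h : Matrix (Fin d) (Fin d) ℝ) i j, |h i j| ≤ nrm h := by
    intro h i j
    unfold nrm
    exact le_trans (Finset.single_le_sum (f := fun j => |h i j|)
      (fun _ _ => abs_nonneg _) (Finset.mem_univ j)) (Finset.single_le_sum
      (f := fun i => ∑ j, |h i j|) (fun _ _ => Finset.sum_nonneg fun _ _ => abs_nonneg _)
      (Finset.mem_univ i))
  have hxR : ∀ᶠ n in (𝒰 : Filter ι), ∀ i j, |x n i j| ≤ R := by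
    have h1 := (hnrmc.tendsto x₀).comp hx
    filter_upwards [h1.eventually (gt_mem_nhds (by
      have := nrm_nonneg y₀
      rw [hR]; linarith : nrm x₀ < R))] with n hn i j
    exact (hentle _ i j).trans hn.le
  have hyR : ∀ᶠ n in (𝒰 : Filter ι), ∀ i j, |y n i j| ≤ R := by
    have h1 := (hnrmc.tendsto y₀).comp hy
    filter_upwards [h1.eventually (gt_mem_nhds (by
      have := nrm_nonneg x₀
      rw [hR]; linarith : nrm y₀ < R))] with n hn i j
    exact (hentle _ i j).trans hn.le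
  have hR0 : 0 ≤ R := by
    have := nrm_nonneg y₀
    have := nrm_nonneg x₀
    rw [hR]; linarith
  have hK0 : 0 < K := by linarith
  obtain ⟨R2, hR20, hR2⟩ := exists_inv_bound (V := V)
    (𝒦 := {h : Matrix (Fin d) (Fin d) ℝ | ∀ i j, |h i j| ≤ R} ∩ {h | |h.det| = V})
    ((isCompact_box R).inter_right
      (isClosed_eq (continuous_abs.comp continuous_det') continuous_const)) (fun h hh => hh.2)
  set B : ℝ := d * (R2 * (2 * (K * R))) with hB
  have hγB : ∀ᶠ n in (𝒰 : Filter ι), ∀ i j, |(γ n i j : ℝ)| ≤ B := by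
    filter_upwards [hev, hxR, hyR, hdet] with n hn hxn hyn hdn i j
    obtain ⟨hb, hE, hγ, heq⟩ := hn
    have hb0 : ∀ i, 0 < b n i := fun i => lt_of_lt_of_le (by positivity) (hb i).1
    set w := y n * zR (γ n) with hw
    -- the largest entry of `w`
    have hwle : ∀ i j, |w i j| ≤ 2 * (K * R) := by
      intro i₀ j
      obtain ⟨i, -, hi⟩ := Finset.exists_max_image (Finset.univ : Finset (Fin d))
        (fun i => |w i j|) ⟨i₀, Finset.mem_univ _⟩
      have h1 : x n i j = b n i * (w i j + ∑ l, E n i l * w l j) := by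
        have h2 : x n = diagonal (b n) * (w + E n * w) := by
          rw [heq, hw, ← Matrix.one_mul (y n * zR (γ n)), ← Matrix.mul_assoc (E n), ← Matrix.add_mul]
          simp only [Matrix.mul_assoc, Matrix.mul_one]
        rw [h2, diagonal_mul, Matrix.add_apply, Matrix.mul_apply]
      have h3 : |w i j + ∑ l, E n i l * w l j| ≤ K * R := by
        have h4 : |x n i j| = b n i * |w i j + ∑ l, E n i l * w l j| := by
          rw [h1, abs_mul, abs_of_pos (hb0 i)]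
        have h5 : |w i j + ∑ l, E n i l * w l j| = |x n i j| / b n i := by
          rw [h4, mul_comm, mul_div_cancel_right₀ _ (hb0 i).ne']
        rw [h5, div_le_iff₀ (hb0 i)]
        have h6 : 1 ≤ K * b n i := by
          have := mul_le_mul_of_nonneg_left (hb i).1 hK0.le
          rwa [mul_one_div_cancel hK0.ne'] at this
        calc |x n i j| ≤ R := hxn i j
          _ = R * 1 := (mul_one R).symm
          _ ≤ R * (K * b n i) := mul_le_mul_of_nonneg_left h6 hR0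
          _ = _ := by ring
      have h4 : |∑ l, E n i l * w l j| ≤ d * (ε * |w i j|) := by
        calc |∑ l, E n i l * w l j| ≤ ∑ l, |E n i l * w l j| := Finset.abs_sum_le_sum_abs _ _
          _ ≤ ∑ _l : Fin d, ε * |w i j| := by
              refine Finset.sum_le_sum fun l _ => ?_
              rw [abs_mul]
              exact mul_le_mul (hE i l) (hi l (Finset.mem_univ l)) (abs_nonneg _) hε0
          _ = _ := by rw [Finset.sum_const, Finset.card_univ, Fintype.card_fin, nsmul_eq_mul]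
      have h5 : |w i j| ≤ |w i j + ∑ l, E n i l * w l j| + |∑ l, E n i l * w l j| := by
        have := abs_sub (w i j + ∑ l, E n i l * w l j) (∑ l, E n i l * w l j)
        rwa [add_sub_cancel_right] at this
      have h6 : d * (ε * |w i j|) ≤ 1 / 2 * |w i j| := by
        rw [← mul_assoc]
        exact mul_le_mul_of_nonneg_right hε (abs_nonneg _)
      have h7 := hi i₀ (Finset.mem_univ i₀)
      linarith
    have hne : (y n).det ≠ 0 := by
      intro h0
      rw [h0, abs_zero] at hdn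
      exact hV.ne hdn
    have hz : zR (γ n) = (y n)⁻¹ * w := by
      rw [hw, ← Matrix.mul_assoc, Matrix.nonsing_inv_mul _ (isUnit_iff_ne_zero.2 hne),
        Matrix.one_mul]
    have h1 : (γ n i j : ℝ) = ∑ k, (y n)⁻¹ i k * w k j := by
      have := congrFun (congrFun hz i) j
      rw [Matrix.mul_apply] at this
      exact this
    rw [h1]
    calc |∑ k, (y n)⁻¹ i k * w k j| ≤ ∑ k, |(y n)⁻¹ i k * w k j| := Finset.abs_sum_le_sum_abs _ _
      _ ≤ ∑ _k : Fin d, R2 * (2 * (K * R)) := by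
          refine Finset.sum_le_sum fun k _ => ?_
          rw [abs_mul]
          exact mul_le_mul ((hentle _ i k).trans (hR2 _ ⟨hyn, hdn⟩)) (hwle k j) (abs_nonneg _) hR20
      _ = _ := by rw [Finset.sum_const, Finset.card_univ, Fintype.card_fin, nsmul_eq_mul, hB]
  -- the limits
  have hγfin : ∃ γ₀ : Matrix (Fin d) (Fin d) ℤ, ∀ᶠ n in (𝒰 : Filter ι), γ n = γ₀ := by
    have h1 := finite_int_box (d := d) B
    have h2 : ∀ᶠ n in (𝒰 : Filter ι), γ n ∈ {γ : Matrix (Fin d) (Fin d) ℤ | ∀ i j, |(γ i j : ℝ)| ≤ B} := hγB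
    have h3 : (⋃ γ₀ ∈ {γ : Matrix (Fin d) (Fin d) ℤ | ∀ i j, |(γ i j : ℝ)| ≤ B},
        {n | γ n = γ₀}) ∈ 𝒰 := by
      filter_upwards [h2] with n hn
      exact Set.mem_biUnion hn rfl
    obtain ⟨γ₀, -, hγ₀⟩ := (Ultrafilter.finite_biUnion_mem_iff h1).1 h3
    exact ⟨γ₀, hγ₀⟩
  obtain ⟨γ₀, hγ₀⟩ := hγfin
  obtain ⟨b₀, hb₀, hbl⟩ := ultra_tendsto 𝒰 (K := Set.pi Set.univ fun _ : Fin d => Set.Icc (1 / K) K)
    (isCompact_univ_pi fun _ => isCompact_Icc) (f := b) (by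
      filter_upwards [hev] with n hn i _
      exact hn.1 i)
  obtain ⟨E₀, hE₀, hEl⟩ := ultra_tendsto 𝒰 (K := {h : Matrix (Fin d) (Fin d) ℝ | ∀ i j, |h i j| ≤ ε})
    (isCompact_box ε) (f := E) (by
      filter_upwards [hev] with n hn
      exact hn.2.1)
  have hlim : Tendsto (fun n => diagonal (b n) * (1 + E n) * y n * zR γ₀) 𝒰
      (𝓝 (diagonal b₀ * (1 + E₀) * y₀ * zR γ₀)) := by
    have h1 : Tendsto (fun n => diagonal (b n)) 𝒰 (𝓝 (diagonal b₀)) := by
      have hc : Continuous (fun v : Fin d → ℝ => (diagonal v : Matrix (Fin d) (Fin d) ℝ)) :=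
        Continuous.matrix_diagonal continuous_id
      exact (hc.tendsto b₀).comp hbl
    have h2 : Tendsto (fun n => 1 + E n) 𝒰 (𝓝 (1 + E₀)) := hEl.const_add 1
    exact ((h1.mul h2).mul hy).mul_const (zR γ₀)
  have hxeq : x₀ = diagonal b₀ * (1 + E₀) * y₀ * zR γ₀ := by
    refine tendsto_nhds_unique (hx.congr' ?_) hlim
    filter_upwards [hev, hγ₀] with n hn hγn
    have h1 := hn.2.2.2
    rwa [hγn] at h1
  obtain ⟨n, hn, hγn⟩ := (hev.and hγ₀).exists
  refine ⟨b₀, E₀, γ₀, fun i => hb₀ i (Set.mem_univ i), hE₀, ?_, hxeq⟩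
  rw [← hγn]
  exact hn.2.2.1

lemma cl_right {K ε : ℝ} {x y : Matrix (Fin d) (Fin d) ℝ} {δ : Matrix (Fin d) (Fin d) ℤ}
    (hδ : IsUnit δ.det) (h : Cl K ε x y) : Cl K ε (x * zR δ) (y * zR δ) := by
  obtain ⟨b, E, γ, hb, hE, hγ, heq⟩ := h
  refine ⟨b, E, δ⁻¹ * γ * δ, hb, hE, ?_, ?_⟩
  · rw [Matrix.det_mul, Matrix.det_mul]
    exact (((Matrix.isUnit_nonsing_inv_det_iff).2 hδ).mul hγ).mul hδ
  · rw [heq, zR_mul, zR_mul]
    calc diagonal b * (1 + E) * y * zR γ * zR δ = diagonal b * (1 + E) * y * 1 * zR γ * zR δ := by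
          rw [Matrix.mul_one]
      _ = diagonal b * (1 + E) * y * (zR δ * zR δ⁻¹) * zR γ * zR δ := by rw [zR_inv hδ]
      _ = _ := by simp only [Matrix.mul_assoc]

/-- the limit set of the deep part of the cone is bounded below by the lower limit -/
lemma YY_nu' {α β ν : ℝ} (hα : Irrational α) {q₀ : ℕ}
    (hν : ∀ q p r : ℤ, (q₀ : ℤ) ≤ |q| → ν ≤ |(q : ℝ) * (α * q - p) * (β * q - r)|)
    {h : Matrix (Fin 3) (Fin 3) ℝ} (hh : h ∈ YY (LLm α β)) : HasNu h ν := by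
  classical
  -- a lower bound for small `q`
  obtain ⟨δ, hδ0, hδ⟩ : ∃ δ : ℝ, 0 < δ ∧ ∀ q p : ℤ, q ≠ 0 → |q| < q₀ → δ ≤ |α * q - p| := by
    set S : Finset ℤ := (Finset.Icc (-(q₀ : ℤ)) q₀).erase 0 with hS
    by_cases hSe : S.Nonempty
    · obtain ⟨q₁, hq₁, hmin⟩ := Finset.exists_min_image S
        (fun q : ℤ => |α * q - round (α * q)|) hSe
      refine ⟨|α * q₁ - round (α * q₁)|, ?_, fun q p hq hqq => ?_⟩
      · rw [abs_pos, sub_ne_zero]
        intro h0
        have h1 : q₁ ≠ 0 := (Finset.mem_erase.1 hq₁).1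
        exact (hα.mul_intCast h1) ⟨(round (α * q₁) : ℤ), by push_cast; exact h0.symm⟩
      · have hqS : q ∈ S := by
          rw [hS, Finset.mem_erase, Finset.mem_Icc]
          have := abs_lt.1 hqq
          exact ⟨hq, by omega, by omega⟩
        exact (hmin q hqS).trans (round_le _ _)
    · refine ⟨1, one_pos, fun q p hq hqq => ?_⟩
      exfalso
      apply hSe
      refine ⟨q, ?_⟩
      rw [hS, Finset.mem_erase, Finset.mem_Icc]
      have := abs_lt.1 hqq
      exact ⟨hq, by omega, by omega⟩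
  intro m hm
  by_contra hcon
  push Not at hcon
  set ρ : ℝ := ∑ i, |(h *ᵥ iR m) i| + 1 with hρ
  have hρ0 : 0 < ρ := by
    have : 0 ≤ ∑ i, |(h *ᵥ iR m) i| := Finset.sum_nonneg fun _ _ => abs_nonneg _
    rw [hρ]; linarith
  have hcont : ∀ i, Continuous (fun h' : Matrix (Fin 3) (Fin 3) ℝ => |(h' *ᵥ iR m) i|) := by
    intro i
    refine continuous_abs.comp ?_
    unfold mulVec dotProduct
    exact continuous_finsetSum _ fun j _ => (continuous_apply_apply i j).mul continuous_const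
  have hopen : ∀ᶠ h' in 𝓝 h, |FF h' (iR m)| < ν ∧ ∀ i, |(h' *ᵥ iR m) i| < ρ := by
    refine ((continuous_abs.comp (continuous_FF (iR m))).tendsto h).eventually
      (gt_mem_nhds hcon) |>.and (Filter.eventually_all.2 fun i => ?_)
    refine ((hcont i).tendsto h).eventually (gt_mem_nhds ?_)
    have := Finset.single_le_sum (f := fun i => |(h *ᵥ iR m) i|) (fun i _ => abs_nonneg _)
      (Finset.mem_univ i)
    rw [hρ]; linarith
  obtain ⟨N, hN⟩ := exists_nat_gt (max ρ (ρ / δ))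
  have hN1 := (le_max_left ρ (ρ / δ)).trans_lt hN
  have hN2 := (le_max_right ρ (ρ / δ)).trans_lt hN
  have hmem : h ∈ closure (OrbN (LLm α β) N) := Set.mem_iInter.1 hh N
  obtain ⟨h', ⟨h1, h2⟩, ⟨a, γ, ha0, ha1, haN1, haN2, hγ, rfl⟩⟩ :=
    mem_closure_iff_nhds.1 hmem _ hopen
  have h3 := first_ne α β ha0 hγ hm (hN1.trans_le haN1) (hN1.trans_le haN2) (fun i => (h2 i).le)
  have hlarge : (q₀ : ℤ) ≤ |(γ *ᵥ m) 0| := by
    by_contra hlt
    push Not at hlt
    have h4 := hδ _ ((γ *ᵥ m) 1) h3 hlt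
    obtain ⟨e0, e1, e2⟩ := orb_mulVec α β a γ m
    have h5 := h2 1
    rw [e1, abs_mul, abs_of_pos (ha0 1)] at h5
    have h6 : ρ < a 1 * δ := by
      rw [div_lt_iff₀ hδ0] at hN2
      exact hN2.trans_le (mul_le_mul_of_nonneg_right haN1 hδ0.le)
    have h7 : a 1 * δ ≤ a 1 * |α * ((γ *ᵥ m) 0 : ℤ) - ((γ *ᵥ m) 1 : ℤ)| :=
      mul_le_mul_of_nonneg_left h4 (ha0 1).le
    linarith
  have h4 := hν ((γ *ᵥ m) 0) ((γ *ᵥ m) 1) ((γ *ᵥ m) 2) hlarge
  rw [FF_orb ha1, FF_LLm] at h1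
  exact absurd h4 (not_le.2 h1)

/-- **The complexity of the cone orbit of a counterexample to the Littlewood conjecture.** -/
theorem litt_complexity {ν K : ℝ} (hν : 0 < ν) (hK : 1 ≤ K) :
    ∃ c₀ ε₀ : ℝ, 0 < c₀ ∧ 0 < ε₀ ∧ ∀ α β : ℝ, Irrational α →
      (∃ ν' : ℝ, 0 < ν' ∧ ∀ q p r : ℤ, q ≠ 0 → ν' ≤ |(q : ℝ) * (α * q - p) * (β * q - r)|) →
      (∃ q₀ : ℕ, ∀ q p r : ℤ, (q₀ : ℤ) ≤ |q| → ν ≤ |(q : ℝ) * (α * q - p) * (β * q - r)|) →
      ∀ ε : ℝ, 0 < ε → ε < ε₀ → ∀ (N : ℝ) (k : ℕ) (col : (Fin 3 → ℝ) → Fin k),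
      (∀ a a' : Fin 3 → ℝ, (∀ i, 0 < a i) → ∏ i, a i = 1 → N ≤ a 1 → N ≤ a 2 →
        (∀ i, 0 < a' i) → ∏ i, a' i = 1 → N ≤ a' 1 → N ≤ a' 2 → col a = col a' →
        Cl K ε (diagonal a * LLm α β) (diagonal a' * LLm α β)) →
      c₀ * Real.log (1 / ε) ^ 2 ≤ k := by
  classical
  obtain ⟨c₀, ε₁, hc₀, hε₁, hmain⟩ := complexity_fin (e := 2) le_rfl one_pos hν hK
  refine ⟨c₀, min ε₁ (1 / 6), hc₀, by positivity, ?_⟩
  rintro α β hα ⟨ν', hν'0, hν'⟩ ⟨q₀, hq₀⟩ ε hε0 hε N k col hcol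
  have hεε₁ : ε < ε₁ := hε.trans_le (min_le_left _ _)
  have hε6 : ε < 1 / 6 := hε.trans_le (min_le_right _ _)
  obtain ⟨h, hh⟩ := YY_nonempty hν'0 hν'
  have hdet : |h.det| = 1 := by rw [abs_det_closure (YY_subset _ hh), LLm_det]
  have hnu : HasNu h ν := YY_nu' hα hq₀ hh
  have hint : ¬ PropInt h := not_propInt_YY hν'0 hν' hh
  obtain ⟨P, hP, hfin⟩ := hmain h hdet hnu hint ε hε0 hεε₁
  have hexp : (2 + 1) - (2 + 1) / (2 + 1).minFac = 2 := by
    have : (2 + 1).minFac = 3 := (Nat.prime_three).minFac_eq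
    rw [this]
  rw [hexp] at hfin
  -- points of the deep part of the cone orbit which tend to `h`
  have hseq : ∀ n : ℕ, ∃ (a : Fin 3 → ℝ) (γ : Matrix (Fin 3) (Fin 3) ℤ), (∀ i, 0 < a i) ∧
      ∏ i, a i = 1 ∧ (n : ℝ) ≤ a 1 ∧ (n : ℝ) ≤ a 2 ∧ IsUnit γ.det ∧
      ∀ i j, |(diagonal a * LLm α β * zR γ) i j - h i j| < 1 / ((n : ℝ) + 1) := by
    intro n
    have h1 : h ∈ closure (OrbN (LLm α β) n) := Set.mem_iInter.1 hh n
    have h2 : ∀ᶠ x in 𝓝 h, ∀ i j, |x i j - h i j| < 1 / ((n : ℝ) + 1) := by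
      refine Filter.eventually_all.2 fun i => Filter.eventually_all.2 fun j => ?_
      have hc : Continuous (fun x : Matrix (Fin 3) (Fin 3) ℝ => |x i j - h i j|) :=
        continuous_abs.comp ((continuous_apply_apply i j).sub continuous_const)
      refine (hc.tendsto h).eventually (gt_mem_nhds ?_)
      rw [sub_self, abs_zero]
      positivity
    obtain ⟨x, hx, ⟨a, γ, ha0, ha1, h1, h2, hγ, rfl⟩⟩ := mem_closure_iff_nhds.1 h1 _ h2
    exact ⟨a, γ, ha0, ha1, h1, h2, hγ, hx⟩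
  choose s γ hs0 hs1 hsN1 hsN2 hγ hdist using hseq
  set 𝒰 : Ultrafilter ℕ := hyperfilter ℕ with h𝒰
  have h𝒰le : (𝒰 : Filter ℕ) ≤ atTop := by
    rw [← Nat.cofinite_eq_atTop]
    exact hyperfilter_le_cofinite
  have hxlim : Tendsto (fun n => diagonal (s n) * LLm α β * zR (γ n)) 𝒰 (𝓝 h) := by
    refine Tendsto.mono_left ?_ h𝒰le
    refine tendsto_pi_nhds.2 fun i => tendsto_pi_nhds.2 fun j => ?_
    rw [tendsto_iff_dist_tendsto_zero]
    refine squeeze_zero (fun _ => dist_nonneg) (fun n => ?_) tendsto_one_div_add_atTop_nhds_zero_nat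
    rw [Real.dist_eq]
    exact (hdist n i j).le
  -- the colours
  have hcolor : ∀ a : Fin 3 → ℝ, ∃ c : Fin k, ∀ᶠ n in (𝒰 : Filter ℕ), col (fun i => a i * s n i) = c := by
    intro a
    have h1 : (⋃ c ∈ (Set.univ : Set (Fin k)), {n | col (fun i => a i * s n i) = c}) ∈ 𝒰 := by
      have h2 : (⋃ c ∈ (Set.univ : Set (Fin k)), {n | col (fun i => a i * s n i) = c}) =
          Set.univ := by
        ext n
        simp
      rw [h2]
      exact Filter.univ_mem
    obtain ⟨c, -, hc⟩ := (Ultrafilter.finite_biUnion_mem_iff (Set.finite_univ (α := Fin k))).1 h1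
    exact ⟨c, hc⟩
  choose col' hcol' using hcolor
  refine hfin k col' fun a ha a' ha' heq => ?_
  obtain ⟨ha0, ha1⟩ := hP a ha
  obtain ⟨ha0', ha1'⟩ := hP a' ha'
  have hdeep : ∀ b : Fin 3 → ℝ, (∀ i, 0 < b i) → ∀ᶠ n in (𝒰 : Filter ℕ),
      N ≤ b 1 * s n 1 ∧ N ≤ b 2 * s n 2 := by
    intro b hb
    refine h𝒰le ?_
    obtain ⟨M, hM⟩ := exists_nat_ge (max (N / b 1) (N / b 2))
    filter_upwards [eventually_ge_atTop M] with n hn
    have hMn : (M : ℝ) ≤ n := by exact_mod_cast hn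
    constructor
    · have h3 : N / b 1 ≤ s n 1 := ((le_max_left _ _).trans hM).trans (hMn.trans (hsN1 n))
      rw [div_le_iff₀ (hb 1)] at h3
      linarith
    · have h3 : N / b 2 ≤ s n 2 := ((le_max_right _ _).trans hM).trans (hMn.trans (hsN2 n))
      rw [div_le_iff₀ (hb 2)] at h3
      linarith
  have hlimd : ∀ b : Fin 3 → ℝ, Tendsto (fun n => diagonal b * (diagonal (s n) * LLm α β * zR (γ n)))
      𝒰 (𝓝 (diagonal b * h)) := by
    intro b
    have hc : Continuous (fun M : Matrix (Fin 3) (Fin 3) ℝ => diagonal b * M) :=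
      continuous_const.matrix_mul continuous_id
    exact (hc.tendsto h).comp hxlim
  refine cl_limit 𝒰 one_pos hK hε0.le (by norm_num; linarith) (hlimd a) (hlimd a')
    (Eventually.of_forall fun n => ?_) ?_
  · rw [det_diag ha1', Matrix.det_mul, det_diag (hs1 n), det_zR, abs_mul,
      abs_det_of_isUnit (hγ n), mul_one, LLm_det]
  · filter_upwards [hcol' a, hcol' a', hdeep a ha0, hdeep a' ha0'] with n h1 h2 h3 h4
    have h5 := hcol (fun i => a i * s n i) (fun i => a' i * s n i)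
      (fun i => mul_pos (ha0 i) (hs0 n i)) (by rw [Finset.prod_mul_distrib, ha1, hs1 n, one_mul])
      h3.1 h3.2
      (fun i => mul_pos (ha0' i) (hs0 n i)) (by rw [Finset.prod_mul_distrib, ha1', hs1 n, one_mul])
      h4.1 h4.2 (by rw [h1, h2, heq])
    have h6 := cl_right (hγ n) h5
    have e1 : ∀ b : Fin 3 → ℝ, diagonal (fun i => b i * s n i) * LLm α β * zR (γ n) =
        diagonal b * (diagonal (s n) * LLm α β * zR (γ n)) := by
      intro b
      rw [← diagonal_mul_diagonal]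
      simp only [Matrix.mul_assoc]
    rwa [e1, e1] at h6

end Pool.Agent.T6.H49.CSD
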