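import Mathlib
import Pool.Agent.T6.H49.CSD.Litt

/-! # The values of `q ⟨qα⟩ ⟨qβ⟩` do not concentrate -/

set_option autoImplicit false

open MvPolynomial H715R2 Matrix Filter Topology

namespace Pool.Agent.T6.H49.CSD

/-- **No atoms for Littlewood.** -/
theorem litt_no_atoms {α β ν T : ℝ} (hν0 : 0 < ν)
    (hν : ∀ q p r : ℤ, q ≠ 0 → ν ≤ |(q : ℝ) * (α * q - p) * (β * q - r)|) (hT : 0 < T)
    {ε : ℝ} (hε : 0 < ε) : ∃ δ C : ℝ, 0 < δ ∧ ∀ Q : ℝ, 1 ≤ Q → ∀ v : ℝ, ∀ S : Finset ℕ,
      (∀ q ∈ S, 0 < q ∧ (q : ℝ) ≤ Q ∧ fL α β q < T ∧ |fL α β q - v| < δ) →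
      (S.card : ℝ) ≤ ε * Real.log Q ^ 2 + C * (1 + Real.log Q) := by
  classical
  have hdetY : ∀ h ∈ YY (LLm α β), |h.det| = 1 := fun h hh => by
    rw [abs_det_closure (YY_subset _ hh), LLm_det]
  have hne0 : ∀ h ∈ YY (LLm α β), h.det ≠ 0 := by
    intro h hh h0
    have := hdetY _ hh
    rw [h0, abs_zero] at this
    exact zero_ne_one this
  obtain ⟨C, hC0, hC⟩ := count_subspace 2 hν0 (T := T + 2) (by linarith)
  obtain ⟨ρ, R, hρ0, hR⟩ := exists_bound_loc (d := 3) (by norm_num) 1 ν one_pos hν0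
  set 𝒦 : Set (Matrix (Fin 3) (Fin 3) ℝ) := {h | ∀ i j, |h i j| ≤ R} ∩ YY (LLm α β) with h𝒦
  have hcpt : IsCompact 𝒦 := (isCompact_box R).inter_right (YY_closed _)
  obtain ⟨R2, hR20, hR2⟩ := exists_inv_bound (V := 1)
    (𝒦 := {h : Matrix (Fin 3) (Fin 3) ℝ | ∀ i j, |h i j| ≤ R} ∩ {h | |h.det| = 1})
    ((isCompact_box R).inter_right
      (isClosed_eq (continuous_abs.comp continuous_det') continuous_const)) (fun h hh => hh.2)
  set M : ℝ := |Real.log ν| + |Real.log T| with hM
  have hM0 : 0 ≤ M := by positivity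
  set G1 : ℝ := ((3 : ℕ) : ℝ) ^ 2 * |R| with hG1
  have hG10 : 0 ≤ G1 := by positivity
  set C2 : ℝ := 1 + Real.log (1 + G1 * (R2 * Real.exp M)) with hC2
  have hC20 : 0 ≤ C2 := by
    have : 0 ≤ Real.log (1 + G1 * (R2 * Real.exp M)) := Real.log_nonneg (by
      have : 0 ≤ G1 * (R2 * Real.exp M) := by positivity
      linarith)
    linarith
  set C5 : ℝ := 16 * C * (C2 + 2) with hC5
  have hC50 : 0 ≤ C5 := by positivity
  -- the side of the squares, first choice
  set lam0 : ℝ := C5 / ε + 1 + ρ with hlam0'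
  -- it has to be large for the approximation by the limit set; the approximation is applied at
  -- the multiples of the side
  set lam : ℝ := lam0 with hlamdef
  have hlam1 : 1 ≤ lam := by
    have : 0 ≤ C5 / ε := by positivity
    linarith
  have hlam0 : 0 < lam := by linarith
  set XL : ℝ := R2 * Real.exp (M + 2 * lam) with hXL
  have hXL0 : 0 ≤ XL := by positivity
  set KL : ℝ := C * (1 + Real.log (1 + G1 * XL)) ^ (2 - 1) with hKL
  have hKL0 : 0 ≤ KL := by
    have : 0 ≤ Real.log (1 + G1 * XL) := Real.log_nonneg (by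
      have : 0 ≤ G1 * XL := by positivity
      linarith)
    positivity
  have hKLle : KL ≤ C * ((C2 + 2) * lam) := by
    rw [hKL, pow_one]
    refine mul_le_mul_of_nonneg_left ?_ hC0
    have h1 := log_bound hG10 hR20 (Real.exp_pos M).le hlam0.le 2
    have h2 : Real.exp M * Real.exp (lam * (2 : ℕ)) = Real.exp (M + 2 * lam) := by
      rw [← Real.exp_add]
      push_cast
      ring_nf
    rw [h2] at h1
    push_cast at h1
    have h3 : 1 + Real.log (1 + G1 * XL) ≤ C2 + lam * 2 := h1
    have h4 : C2 ≤ C2 * lam := le_mul_of_one_le_right hC20 hlam1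
    linarith
  set Bx : Finset (Fin 3 → ℤ) := (finite_box (d := 3) XL).toFinset.erase 0 with hBx
  obtain ⟨δ₁, hδ₁0, hδ₁⟩ := local_bound hcpt (T := T + 1) Bx ⌊KL⌋₊ (by
    intro h hh v S hS hv
    refine Nat.le_floor ?_
    have h1 := hC h (hne0 h hh.2) (YY_nu hν hh.2) (Submodule.span ℚ {v})
      (exists_coeff_notMem (hne0 h hh.2) (not_propInt_YY hν0 hν hh.2) v) XL hXL0 S (fun x hx => by
        obtain ⟨hx0, hxX⟩ := Finset.mem_erase.1 (hS hx)
        refine ⟨hx0, (Set.Finite.mem_toFinset _).1 hxX, ?_, ?_⟩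
        · have := (hv x hx).1
          linarith
        · rw [(hv x hx).2]
          exact Submodule.mem_span_singleton_self _)
    refine h1.trans (mul_le_mul_of_nonneg_left (pow_le_pow_left₀ ?_ ?_ _) hC0)
    · have : 0 ≤ Real.log (1 + (∑ i, ∑ j, |h i j|) * XL) := Real.log_nonneg (by
        have h2 : 0 ≤ nrm h := nrm_nonneg h
        have : 0 ≤ (∑ i, ∑ j, |h i j|) * XL := mul_nonneg h2 hXL0
        linarith)
      linarith
    · have h2 : nrm h ≤ G1 := nrm_le (d := 3) fun i j => (hh.1 i j).trans (le_abs_self R)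
      have h3 : nrm h * XL ≤ G1 * XL := mul_le_mul_of_nonneg_right h2 hXL0
      have h4 : Real.log (1 + nrm h * XL) ≤ Real.log (1 + G1 * XL) := by
        refine Real.log_le_log ?_ (by linarith)
        have : 0 ≤ nrm h * XL := mul_nonneg (nrm_nonneg h) hXL0
        linarith
      show 1 + Real.log (1 + nrm h * XL) ≤ 1 + Real.log (1 + G1 * XL)
      linarith)
  set η : ℝ := min 1 (δ₁ / 2) with hη
  have hη0 : 0 < η := lt_min one_pos (by linarith)
  obtain ⟨N, hN⟩ := near_YY (α := α) (β := β) R Bx hη0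
  -- the number of strips which are too close to the walls
  obtain ⟨k₀, hk₀⟩ := exists_nat_gt ((N : ℝ) + ρ + 1)
  obtain ⟨K', hK'⟩ := box_count hν0 hν (Real.exp (M + 2 * lam)) (Real.exp_pos _)
  set C7 : ℝ := 8 * (M / lam + 1) ^ 2 * (2 * KL) + 2 * (M + 2) * k₀ * K' + 1 with hC7
  refine ⟨δ₁ / 2, C7 + 8 * (M / lam + 1) ^ 2 * (2 * KL), by linarith, fun Q hQ v S hS => ?_⟩
  have hlQ : 0 ≤ Real.log Q := Real.log_nonneg hQ
  -- coordinates
  set y1 : ℕ → ℝ := fun q => |(q : ℝ) * α - round ((q : ℝ) * α)| with hy1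
  set y2 : ℕ → ℝ := fun q => |(q : ℝ) * β - round ((q : ℝ) * β)| with hy2
  set w1 : ℕ → ℝ := fun q => -Real.log (y1 q) with hw1
  set w2 : ℕ → ℝ := fun q => -Real.log (y2 q) with hw2
  have hfν : ∀ q ∈ S, ν ≤ fL α β q := by
    intro q hq
    have h1 := hν (q : ℤ) (round ((q : ℝ) * α)) (round ((q : ℝ) * β)) (by
      have := (hS q hq).1
      omega)
    rw [abs_mul, abs_mul] at h1
    push_cast at h1
    rw [Nat.abs_cast, mul_comm α, mul_comm β] at h1
    exact h1
  have hq0 : ∀ q ∈ S, (0 : ℝ) < q := fun q hq => by exact_mod_cast (hS q hq).1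
  have hfe : ∀ q, fL α β q = q * y1 q * y2 q := fun q => rfl
  have hy10 : ∀ q ∈ S, 0 < y1 q := by
    intro q hq
    have h1 := hfν q hq
    rcases (abs_nonneg ((q : ℝ) * α - round ((q : ℝ) * α))).lt_or_eq with h | h
    · exact h
    · rw [hfe, hy1] at h1
      simp only at h1
      rw [← h] at h1
      simp at h1
      linarith
  have hy20 : ∀ q ∈ S, 0 < y2 q := by
    intro q hq
    have h1 := hfν q hq
    rcases (abs_nonneg ((q : ℝ) * β - round ((q : ℝ) * β))).lt_or_eq with h | h
    · exact h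
    · rw [hfe, hy2] at h1
      simp only at h1
      rw [← h] at h1
      simp at h1
      linarith
  have hw10 : ∀ q ∈ S, 0 ≤ w1 q := by
    intro q hq
    have h1 : y1 q ≤ 1 := (abs_sub_round _).trans (by norm_num)
    rw [hw1]
    simp only
    rw [neg_nonneg]
    exact Real.log_nonpos (hy10 q hq).le h1
  have hw20 : ∀ q ∈ S, 0 ≤ w2 q := by
    intro q hq
    have h1 : y2 q ≤ 1 := (abs_sub_round _).trans (by norm_num)
    rw [hw2]
    simp only
    rw [neg_nonneg]
    exact Real.log_nonpos (hy20 q hq).le h1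
  have hlogf : ∀ q ∈ S, Real.log (fL α β q) = Real.log q - w1 q - w2 q := by
    intro q hq
    rw [hfe, Real.log_mul (mul_pos (hq0 q hq) (hy10 q hq)).ne' (hy20 q hq).ne',
      Real.log_mul (hq0 q hq).ne' (hy10 q hq).ne']
    simp only [hw1, hw2]
    ring
  have hfM : ∀ q ∈ S, |Real.log (fL α β q)| ≤ M := by
    intro q hq
    have h1 : Real.log ν ≤ Real.log (fL α β q) := Real.log_le_log hν0 (hfν q hq)
    have h2 : Real.log (fL α β q) ≤ Real.log T :=
      Real.log_le_log (hν0.trans_le (hfν q hq)) (hS q hq).2.2.1.le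
    have h3 := neg_abs_le (Real.log ν)
    have h4 := le_abs_self (Real.log T)
    have h5 := abs_nonneg (Real.log ν)
    have h6 := abs_nonneg (Real.log T)
    rw [abs_le]
    constructor <;> linarith
  have hlogq : ∀ q ∈ S, Real.log q ≤ Real.log Q := fun q hq =>
    Real.log_le_log (hq0 q hq) (hS q hq).2.1
  have hwsum : ∀ q ∈ S, w1 q + w2 q ≤ Real.log Q + M := by
    intro q hq
    have h1 := hlogf q hq
    have h2 := (abs_le.1 (hfM q hq)).1
    have h3 := hlogq q hq
    linarith
  set L' : ℕ := ⌊(Real.log Q + M) / lam⌋₊ with hL'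
  have hidx : ∀ q ∈ S, ∀ w : ℝ, w ≤ w1 q + w2 q → ⌊w / lam⌋₊ < L' + 1 := by
    intro q hq w hw
    refine Nat.lt_succ_of_le (Nat.floor_le_floor ?_)
    exact div_le_div_of_nonneg_right (hw.trans (hwsum q hq)) hlam0.le
  let f : ℕ → ℕ × ℕ := fun q => (⌊w1 q / lam⌋₊, ⌊w2 q / lam⌋₊)
  have hfmem : ∀ q ∈ S, f q ∈ Finset.range (L' + 1) ×ˢ Finset.range (L' + 1) := by
    intro q hq
    rw [Finset.mem_product, Finset.mem_range, Finset.mem_range]
    exact ⟨hidx q hq _ (by linarith [hw20 q hq]), hidx q hq _ (by linarith [hw10 q hq])⟩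
  -- bounds on a square
  have hsq : ∀ p : ℕ × ℕ, ∀ q ∈ S, f q = p →
      (q : ℝ) ≤ Real.exp (lam * p.1 + lam * p.2 + M + 2 * lam) ∧
      y1 q ≤ Real.exp (-(lam * p.1)) ∧ y2 q ≤ Real.exp (-(lam * p.2)) := by
    intro p q hq hp
    have h1 : (p.1 : ℝ) ≤ w1 q / lam := by
      rw [← hp]; exact Nat.floor_le (div_nonneg (hw10 q hq) hlam0.le)
    have h2 : (p.2 : ℝ) ≤ w2 q / lam := by
      rw [← hp]; exact Nat.floor_le (div_nonneg (hw20 q hq) hlam0.le)
    have h3 : w1 q / lam < p.1 + 1 := by rw [← hp]; exact Nat.lt_floor_add_one _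
    have h4 : w2 q / lam < p.2 + 1 := by rw [← hp]; exact Nat.lt_floor_add_one _
    rw [le_div_iff₀ hlam0] at h1 h2
    rw [div_lt_iff₀ hlam0] at h3 h4
    have h5 := hlogf q hq
    have h6 := (abs_le.1 (hfM q hq)).2
    refine ⟨?_, ?_, ?_⟩
    · rw [← Real.exp_log (hq0 q hq)]
      refine Real.exp_le_exp.2 ?_
      nlinarith
    · rw [← Real.exp_log (hy10 q hq)]
      refine Real.exp_le_exp.2 ?_
      have : Real.log (y1 q) = - w1 q := by simp [hw1]
      rw [this]
      nlinarith
    · rw [← Real.exp_log (hy20 q hq)]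
      refine Real.exp_le_exp.2 ?_
      have : Real.log (y2 q) = - w2 q := by simp [hw2]
      rw [this]
      nlinarith
  -- every square
  have hall : ∀ p : ℕ × ℕ, ({q ∈ S | f q = p} : Finset _).card ≤ K' := by
    intro p
    refine hK' (Real.exp (lam * p.1 + lam * p.2 + M + 2 * lam)) (Real.exp (-(lam * p.1)))
      (Real.exp (-(lam * p.2))) (Real.exp_pos _) (Real.exp_pos _) (Real.exp_pos _) ?_ _
      fun q hq => ?_
    · rw [← Real.exp_add, ← Real.exp_add]
      refine Real.exp_le_exp.2 ?_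
      linarith
    · obtain ⟨hqS, hqp⟩ := Finset.mem_filter.1 hq
      exact hsq p q hqS hqp
  -- the squares far from the walls
  have hdeep : ∀ p : ℕ × ℕ, k₀ ≤ p.1 → k₀ ≤ p.2 →
      ({q ∈ S | f q = p} : Finset _).card ≤ 2 * ⌊KL⌋₊ := by
    intro p hp1 hp2
    set a : Fin 3 → ℝ := ![Real.exp (-(lam * p.1 + lam * p.2)), Real.exp (lam * p.1),
      Real.exp (lam * p.2)] with ha
    have ha0 : ∀ i, 0 < a i := by
      intro i
      fin_cases i <;> simp [ha, Real.exp_pos]
    have ha1 : ∏ i, a i = 1 := by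
      rw [Fin.prod_univ_three]
      simp only [ha, Matrix.cons_val_zero, Matrix.cons_val_one, Matrix.cons_val]
      rw [← Real.exp_add, ← Real.exp_add]
      rw [show -(lam * p.1 + lam * p.2) + lam * p.1 + lam * p.2 = 0 by ring, Real.exp_zero]
    have hbig : ∀ k : ℕ, k₀ ≤ k → (N : ℝ) + ρ + 1 < Real.exp (lam * k) := by
      intro k hk
      have h1 : (k₀ : ℝ) ≤ k := by exact_mod_cast hk
      have h2 : (k : ℝ) ≤ lam * k := le_mul_of_one_le_left (Nat.cast_nonneg _) hlam1
      have h3 := Real.add_one_le_exp (lam * k)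
      linarith
    have e1 : a 1 = Real.exp (lam * p.1) := rfl
    have e2 : a 2 = Real.exp (lam * p.2) := rfl
    have e0 : a 0 = Real.exp (-(lam * p.1 + lam * p.2)) := rfl
    have hN0 : (0 : ℝ) ≤ N := Nat.cast_nonneg N
    obtain ⟨γ, hγ, hγR⟩ := hR (diagonal a * LLm α β)
      (by rw [det_mul, det_diagonal, ha1, one_mul]; exact LLm_det α β) (by
      intro m hm hb
      have h1 : diagonal a * LLm α β * zR (1 : Matrix (Fin 3) (Fin 3) ℤ) = diagonal a * LLm α β := by
        rw [zR_one, Matrix.mul_one]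
      have h2 := first_ne α β (γ := 1) ha0 (by simp) hm (ρ := ρ)
        (by rw [e1]; linarith [hbig p.1 hp1])
        (by rw [e2]; linarith [hbig p.2 hp2]) (by rw [h1]; exact hb)
      rw [one_mulVec] at h2
      have h3 := hν (m 0) (m 1) (m 2) h2
      rw [← h1, FF_orb ha1, one_mulVec, FF_LLm]
      exact h3)
    set h' : Matrix (Fin 3) (Fin 3) ℝ := diagonal a * LLm α β * zR γ with hh'
    have hOrb : h' ∈ OrbN (LLm α β) N := ⟨a, γ, ha0, ha1, by
      rw [e1]; linarith [hbig p.1 hp1], by rw [e2]; linarith [hbig p.2 hp2], hγ, rfl⟩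
    obtain ⟨h, hhY, hhR, hhn⟩ := hN h' hOrb hγR
    have hh'det : |h'.det| = 1 := by rw [abs_det_orb (OrbN_subset _ _ hOrb), LLm_det]
    have hh'u : IsUnit h'.det := by
      refine isUnit_iff_ne_zero.2 fun h0 => ?_
      rw [h0, abs_zero] at hh'det
      exact zero_ne_one hh'det
    let ψ : ℕ → (Fin 3 → ℤ) := fun q => γ⁻¹ *ᵥ xq α β q
    have hγψ : ∀ q, γ *ᵥ ψ q = xq α β q := by
      intro q
      simp only [ψ]
      rw [mulVec_mulVec, Matrix.mul_nonsing_inv _ hγ, one_mulVec]
    have hψinj : Function.Injective ψ := by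
      intro q q' hqq
      have h1 : xq α β q = xq α β q' := by rw [← hγψ q, ← hγψ q', hqq]
      have h2 := congrFun h1 0
      simp only [xq, Matrix.cons_val_zero] at h2
      exact_mod_cast h2
    have hFψ : ∀ q, FF h' (iR (ψ q)) = FF (LLm α β) (iR (xq α β q)) := by
      intro q
      rw [hh', FF_orb ha1, hγψ]
    have hψB : ∀ q ∈ S, f q = p → ψ q ∈ Bx := by
      intro q hq hqp
      obtain ⟨b1, b2, b3⟩ := hsq p q hq hqp
      refine Finset.mem_erase.2 ⟨?_, ?_⟩
      · intro h0
        have h1 := hγψ q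
        rw [h0, mulVec_zero] at h1
        have h2 := congrFun h1 0
        simp only [xq, Matrix.cons_val_zero, Pi.zero_apply] at h2
        have h3 := (hS q hq).1
        omega
      · rw [Set.Finite.mem_toFinset]
        intro i
        obtain ⟨l0, l1, l2⟩ := LLm_xq α β q
        have h1 : h' *ᵥ iR (ψ q) = fun i => a i * (LLm α β *ᵥ iR (xq α β q)) i := by
          rw [hh', ← mulVec_mulVec, zR_mulVec_iR, hγψ, ← mulVec_mulVec]
          funext i
          rw [mulVec_diagonal]
        have h2 : iR (ψ q) = h'⁻¹ *ᵥ (fun i => a i * (LLm α β *ᵥ iR (xq α β q)) i) := by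
          rw [← h1, mulVec_mulVec, Matrix.nonsing_inv_mul _ hh'u, one_mulVec]
        have hbd : ∀ j, |a j * (LLm α β *ᵥ iR (xq α β q)) j| ≤ Real.exp (M + 2 * lam) := by
          have hone : (1 : ℝ) ≤ Real.exp (M + 2 * lam) := Real.one_le_exp (by positivity)
          intro j
          rw [abs_mul, abs_of_pos (ha0 j)]
          fin_cases j
          · show a 0 * |(LLm α β *ᵥ iR (xq α β q)) 0| ≤ _
            rw [l0, e0, Nat.abs_cast]
            calc Real.exp (-(lam * p.1 + lam * p.2)) * q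
                ≤ Real.exp (-(lam * p.1 + lam * p.2)) *
                  Real.exp (lam * p.1 + lam * p.2 + M + 2 * lam) :=
                  mul_le_mul_of_nonneg_left b1 (Real.exp_pos _).le
              _ = Real.exp (M + 2 * lam) := by
                  rw [← Real.exp_add]
                  congr 1
                  ring
          · show a 1 * |(LLm α β *ᵥ iR (xq α β q)) 1| ≤ _
            rw [l1, e1]
            refine le_trans ?_ hone
            calc Real.exp (lam * p.1) * |(q : ℝ) * α - round ((q : ℝ) * α)|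
                ≤ Real.exp (lam * p.1) * Real.exp (-(lam * p.1)) :=
                  mul_le_mul_of_nonneg_left b2 (Real.exp_pos _).le
              _ = 1 := by rw [← Real.exp_add, add_neg_cancel, Real.exp_zero]
          · show a 2 * |(LLm α β *ᵥ iR (xq α β q)) 2| ≤ _
            rw [l2, e2]
            refine le_trans ?_ hone
            calc Real.exp (lam * p.2) * |(q : ℝ) * β - round ((q : ℝ) * β)|
                ≤ Real.exp (lam * p.2) * Real.exp (-(lam * p.2)) :=
                  mul_le_mul_of_nonneg_left b3 (Real.exp_pos _).le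
              _ = 1 := by rw [← Real.exp_add, add_neg_cancel, Real.exp_zero]
        have h4 : ((ψ q i : ℤ) : ℝ) =
            ∑ j, h'⁻¹ i j * (a j * (LLm α β *ᵥ iR (xq α β q)) j) := congrFun h2 i
        rw [h4]
        refine (Finset.abs_sum_le_sum_abs _ _).trans ?_
        calc ∑ j, |h'⁻¹ i j * (a j * (LLm α β *ᵥ iR (xq α β q)) j)|
            ≤ ∑ j, |h'⁻¹ i j| * Real.exp (M + 2 * lam) := by
              refine Finset.sum_le_sum fun j _ => ?_
              rw [abs_mul]
              exact mul_le_mul_of_nonneg_left (hbd j) (abs_nonneg _)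
          _ = (∑ j, |h'⁻¹ i j|) * Real.exp (M + 2 * lam) := by rw [Finset.sum_mul]
          _ ≤ nrm h'⁻¹ * Real.exp (M + 2 * lam) := by
              refine mul_le_mul_of_nonneg_right ?_ (Real.exp_pos _).le
              exact Finset.single_le_sum (f := fun i => ∑ j, |h'⁻¹ i j|)
                (fun i _ => Finset.sum_nonneg fun j _ => abs_nonneg _) (Finset.mem_univ i)
          _ ≤ XL := mul_le_mul_of_nonneg_right (hR2 h' ⟨hγR, hh'det⟩) (Real.exp_pos _).le
    -- the two signs
    have hsign : ∀ σ : ℝ, (σ = 1 ∨ σ = -1) →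
        ({q ∈ S | f q = p ∧ FF (LLm α β) (iR (xq α β q)) = σ * fL α β q} : Finset _).card ≤
          ⌊KL⌋₊ := by
      intro σ hσ
      set S' : Finset ℕ := {q ∈ S | f q = p ∧ FF (LLm α β) (iR (xq α β q)) = σ * fL α β q} with hS'
      rw [← Finset.card_image_of_injective S' hψinj]
      refine hδ₁ h ⟨hhR, hhY⟩ (σ * v) _ ?_ ?_
      · intro z hz
        obtain ⟨q, hq, rfl⟩ := Finset.mem_image.1 hz
        obtain ⟨hqS, hqp, -⟩ := Finset.mem_filter.1 hq
        exact hψB q hqS hqp
      · intro z hz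
        obtain ⟨q, hq, rfl⟩ := Finset.mem_image.1 hz
        obtain ⟨hqS, hqp, hqσ⟩ := Finset.mem_filter.1 hq
        have h1 := hhn (ψ q) (hψB q hqS hqp)
        rw [hFψ, hqσ] at h1
        have h2 := (hS q hqS).2.2.1
        have h3 := (hS q hqS).2.2.2
        have h4 : η ≤ 1 := min_le_left _ _
        have h5 : η ≤ δ₁ / 2 := min_le_right _ _
        have hσa : |σ| = 1 := by rcases hσ with h | h <;> simp [h]
        have h6 : |σ * fL α β q| = fL α β q := by
          rw [abs_mul, hσa, one_mul, abs_of_nonneg]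
          exact hν0.le.trans (hfν q hqS)
        constructor
        · have h7 : |FF h (iR (ψ q))| ≤ |σ * fL α β q| + |σ * fL α β q - FF h (iR (ψ q))| := by
            have e : FF h (iR (ψ q)) = σ * fL α β q - (σ * fL α β q - FF h (iR (ψ q))) := by ring
            conv_lhs => rw [e]
            exact abs_sub _ _
          rw [h6] at h7
          linarith
        · have h7 : |FF h (iR (ψ q)) - σ * v| ≤
              |σ * fL α β q - FF h (iR (ψ q))| + |σ * fL α β q - σ * v| := by
            have e : FF h (iR (ψ q)) - σ * v =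
                (σ * fL α β q - σ * v) - (σ * fL α β q - FF h (iR (ψ q))) := by ring
            rw [e]
            refine (abs_sub _ _).trans (le_of_eq ?_)
            ring
          have h8 : |σ * fL α β q - σ * v| = |fL α β q - v| := by
            rw [← mul_sub, abs_mul, hσa, one_mul]
          rw [h8] at h7
          linarith
    have hcover : ({q ∈ S | f q = p} : Finset _) ⊆
        ({q ∈ S | f q = p ∧ FF (LLm α β) (iR (xq α β q)) = 1 * fL α β q} : Finset _) ∪
        ({q ∈ S | f q = p ∧ FF (LLm α β) (iR (xq α β q)) = (-1) * fL α β q} : Finset _) := by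
      intro q hq
      obtain ⟨hqS, hqp⟩ := Finset.mem_filter.1 hq
      rw [Finset.mem_union, Finset.mem_filter, Finset.mem_filter]
      rcases abs_choice (FF (LLm α β) (iR (xq α β q))) with h | h
      · left
        refine ⟨hqS, hqp, ?_⟩
        rw [fL_eq, h, one_mul]
      · right
        refine ⟨hqS, hqp, ?_⟩
        rw [fL_eq, h]
        ring
    have h1 := (Finset.card_le_card hcover).trans (Finset.card_union_le _ _)
    have h2 := hsign 1 (Or.inl rfl)
    have h3 := hsign (-1) (Or.inr rfl)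
    omega
  have htot : S.card ≤ (L' + 1) * (L' + 1) * (2 * ⌊KL⌋₊) + 2 * ((L' + 1) * k₀ * K') := by
    have h1 := Finset.card_eq_sum_card_fiberwise (f := f) (s := S)
      (t := Finset.range (L' + 1) ×ˢ Finset.range (L' + 1)) hfmem
    rw [h1]
    have h2 : ∀ p ∈ Finset.range (L' + 1) ×ˢ Finset.range (L' + 1),
        ({q ∈ S | f q = p} : Finset _).card ≤ 2 * ⌊KL⌋₊ +
          ((if p.1 < k₀ then K' else 0) + (if p.2 < k₀ then K' else 0)) := by
      intro p _
      by_cases hp1 : p.1 < k₀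
      · rw [if_pos hp1]
        have := hall p
        omega
      · by_cases hp2 : p.2 < k₀
        · rw [if_pos hp2]
          have := hall p
          omega
        · rw [if_neg hp1, if_neg hp2]
          have := hdeep p (not_lt.1 hp1) (not_lt.1 hp2)
          omega
    refine (Finset.sum_le_sum h2).trans ?_
    rw [Finset.sum_add_distrib, Finset.sum_add_distrib, Finset.sum_const, Finset.card_product,
      Finset.card_range, smul_eq_mul]
    have hstrip : ∑ i ∈ Finset.range (L' + 1), (if i < k₀ then K' else 0) ≤ k₀ * K' := by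
      rw [← Finset.sum_filter, Finset.sum_const, smul_eq_mul]
      refine Nat.mul_le_mul_right _ ?_
      calc (Finset.filter (fun i => i < k₀) (Finset.range (L' + 1))).card
          ≤ (Finset.range k₀).card := Finset.card_le_card fun i hi =>
            Finset.mem_range.2 (Finset.mem_filter.1 hi).2
        _ = k₀ := Finset.card_range _
    have h3 : ∑ p ∈ Finset.range (L' + 1) ×ˢ Finset.range (L' + 1),
        (if p.1 < k₀ then K' else 0) ≤ (L' + 1) * k₀ * K' := by
      calc ∑ p ∈ Finset.range (L' + 1) ×ˢ Finset.range (L' + 1), (if p.1 < k₀ then K' else 0)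
          = ∑ i ∈ Finset.range (L' + 1), ∑ _j ∈ Finset.range (L' + 1),
            (if i < k₀ then K' else 0) := Finset.sum_product _ _ _
        _ = ∑ i ∈ Finset.range (L' + 1), (L' + 1) * (if i < k₀ then K' else 0) := by
            refine Finset.sum_congr rfl fun i _ => ?_
            rw [Finset.sum_const, Finset.card_range, smul_eq_mul]
        _ = (L' + 1) * ∑ i ∈ Finset.range (L' + 1), (if i < k₀ then K' else 0) :=
            (Finset.mul_sum _ _ _).symm
        _ ≤ (L' + 1) * (k₀ * K') := Nat.mul_le_mul_left _ hstrip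
        _ = _ := (mul_assoc _ _ _).symm
    have h4 : ∑ p ∈ Finset.range (L' + 1) ×ˢ Finset.range (L' + 1),
        (if p.2 < k₀ then K' else 0) ≤ (L' + 1) * k₀ * K' := by
      calc ∑ p ∈ Finset.range (L' + 1) ×ˢ Finset.range (L' + 1), (if p.2 < k₀ then K' else 0)
          = ∑ _i ∈ Finset.range (L' + 1), ∑ j ∈ Finset.range (L' + 1),
            (if j < k₀ then K' else 0) := Finset.sum_product _ _ _
        _ = (L' + 1) * ∑ j ∈ Finset.range (L' + 1), (if j < k₀ then K' else 0) := by
            rw [Finset.sum_const, Finset.card_range, smul_eq_mul]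
        _ ≤ (L' + 1) * (k₀ * K') := Nat.mul_le_mul_left _ hstrip
        _ = _ := (mul_assoc _ _ _).symm
    omega
  have htot2 : (S.card : ℝ) ≤ ((Real.log Q + M) / lam + 1) ^ 2 * (2 * KL) +
      2 * (((Real.log Q + M) / lam + 1) * k₀ * K') := by
    have h1 : (S.card : ℝ) ≤ ((L' : ℝ) + 1) * (L' + 1) * (2 * (⌊KL⌋₊ : ℝ)) +
        2 * (((L' : ℝ) + 1) * k₀ * K') := by exact_mod_cast htot
    have h2 : (L' : ℝ) ≤ (Real.log Q + M) / lam := Nat.floor_le (by positivity)
    have h3 : (⌊KL⌋₊ : ℝ) ≤ KL := Nat.floor_le hKL0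
    refine h1.trans (add_le_add ?_ ?_)
    · rw [sq]
      gcongr
    · gcongr
  have h1 : (Real.log Q + M) / lam + 1 = Real.log Q / lam + (M / lam + 1) := by ring
  have h2 : ((Real.log Q + M) / lam + 1) ^ 2 ≤
      2 ^ 2 * ((Real.log Q / lam) ^ 2 + (M / lam + 1) ^ 2) := by
    rw [h1]
    exact add_pow_le' (by positivity) (by positivity) _
  have h3 : 2 ^ 2 * (Real.log Q / lam) ^ 2 * (2 * KL) ≤ ε * Real.log Q ^ 2 := by
    have h4 : 2 ^ 2 * (Real.log Q / lam) ^ 2 * (2 * KL) ≤
        2 ^ 2 * (Real.log Q / lam) ^ 2 * (2 * (C * ((C2 + 2) * lam))) :=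
      mul_le_mul_of_nonneg_left (mul_le_mul_of_nonneg_left hKLle (by norm_num)) (by positivity)
    refine h4.trans ?_
    have h6 : (2 : ℝ) ^ 2 * (Real.log Q / lam) ^ 2 * (2 * (C * ((C2 + 2) * lam))) =
        (C5 / 2) / lam * Real.log Q ^ 2 := by
      rw [hC5]
      field_simp
      ring
    rw [h6]
    refine mul_le_mul_of_nonneg_right ?_ (sq_nonneg _)
    rw [div_le_iff₀ hlam0]
    have h7 : ε * (C5 / ε) = C5 := by field_simp
    have h8 : ε * (C5 / ε) ≤ ε * lam := mul_le_mul_of_nonneg_left (by linarith) hε.le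
    linarith
  have h5 : (Real.log Q + M) / lam + 1 ≤ (M + 2) * (1 + Real.log Q) := by
    have h6 : (Real.log Q + M) / lam ≤ Real.log Q + M := div_le_self (by positivity) hlam1
    nlinarith
  have h6 : 2 * (((Real.log Q + M) / lam + 1) * k₀ * K') ≤
      2 * (M + 2) * k₀ * K' * (1 + Real.log Q) := by
    have h7 : ((Real.log Q + M) / lam + 1) * k₀ * K' ≤ ((M + 2) * (1 + Real.log Q)) * k₀ * K' := by
      gcongr
    linarith
  have h7 : 2 ^ 2 * (M / lam + 1) ^ 2 * (2 * KL) ≤
      (8 * (M / lam + 1) ^ 2 * (2 * KL)) * (1 + Real.log Q) := by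
    have h8 : 0 ≤ (M / lam + 1) ^ 2 * (2 * KL) := by positivity
    nlinarith
  have h8 := mul_le_mul_of_nonneg_right h2 (by positivity : (0 : ℝ) ≤ 2 * KL)
  have h9 : 0 ≤ 8 * (M / lam + 1) ^ 2 * (2 * KL) * (1 + Real.log Q) := by positivity
  have h10 : (C7 + 8 * (M / lam + 1) ^ 2 * (2 * KL)) * (1 + Real.log Q) =
      8 * (M / lam + 1) ^ 2 * (2 * KL) * (1 + Real.log Q) +
      2 * (M + 2) * k₀ * K' * (1 + Real.log Q) + (1 + Real.log Q) +
      8 * (M / lam + 1) ^ 2 * (2 * KL) * (1 + Real.log Q) := by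
    rw [hC7]; ring
  rw [h10]
  linarith

end Pool.Agent.T6.H49.CSD
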